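import Mathlib.Order.WellFounded
import Mathlib.Order.Interval.Set.Basic
import Mathlib.Data.Set.Prod

/-!
# Cliques in unions of triangle free graphs

Let `c` colour the pairs of a subset `Z` of a well-order with colours from `J`, such that no
triangle `x < z < y` has a single colour. Then there is an injection from `Z` to the subsets of
`J × J` (the theorem of Erdős and Rado for triangles).
-/

namespace Pool.Agent.FreeSetsG

open Set

section
variable {W J : Type} [LinearOrder W] [WellFoundedLT W]

/-- `x` is on the path of `z`: the colour of `(x', x)` is the colour of `(x', z)` for all `x'` on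
the path of `x` -/
noncomputable def path (c : W → W → J) : W → W → Prop := WellFoundedLT.fix (fun x ih z =>
  x < z ∧ ∀ x' (h : x' < x), ih x' h x → c x' x = c x' z)

lemma path_iff (c : W → W → J) (x z : W) :
    path c x z ↔ x < z ∧ ∀ x', x' < x → path c x' x → c x' x = c x' z := by
  unfold path
  rw [WellFoundedLT.fix_eq]

lemma path_lt {c : W → W → J} {x z : W} (h : path c x z) : x < z := ((path_iff c x z).1 h).1

lemma path_col {c : W → W → J} {x' x z : W} (h : path c x z) (h' : path c x' x) :
    c x' x = c x' z := ((path_iff c x z).1 h).2 x' (path_lt h') h'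

lemma path_trans {c : W → W → J} (x : W) : ∀ y z, path c x y → path c y z → path c x z := by
  induction x using WellFoundedLT.induction with
  | ind x ih =>
    intro y z h1 h2
    rw [path_iff]
    refine ⟨(path_lt h1).trans (path_lt h2), fun x' hx' h3 => ?_⟩
    have h4 := ih x' hx' x y h3 h1
    rw [path_col h1 h3, path_col h2 h4]

lemma path_comp {c : W → W → J} (x : W) : ∀ y z, path c x z → path c y z → x < y →
    path c x y := by
  induction x using WellFoundedLT.induction with
  | ind x ih =>
    intro y z h1 h2 hxy
    rw [path_iff]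
    refine ⟨hxy, fun x' hx' h3 => ?_⟩
    have h4 := path_trans x' x z h3 h1
    have h5 := ih x' hx' y z h4 h2 (hx'.trans hxy)
    rw [path_col h1 h3, path_col h2 h5]

/-- the elements of `Z` only: `W` is replaced by the subtype `Z` -/
lemma path_of_agree {c : W → W → J} {y z : W} (hyz : y < z)
    (h : ∀ x, path c x z → x < y → c x y = c x z) : path c y z := by
  have key : ∀ x, path c x y → path c x z := by
    intro x
    induction x using WellFoundedLT.induction with
    | ind x ih =>
      intro h1
      rw [path_iff]
      refine ⟨(path_lt h1).trans hyz, fun x' hx' h3 => ?_⟩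
      have h4 := path_trans x' x y h3 h1
      have h5 := ih x' hx' h4
      rw [path_col h1 h3, h x' h5 (path_lt h4)]
  rw [path_iff]
  exact ⟨hyz, fun x _ h1 => h x (key x h1) (path_lt h1)⟩

/-- the code of an element: the colours on its path, with their order -/
def code (c : W → W → J) (z : W) : Set (J × J) :=
  {t | ∃ x y, path c x z ∧ path c y z ∧ x ≤ y ∧ t = (c x z, c y z)}

variable {c : W → W → J} (tri : ∀ x z y, x < z → z < y → ¬ (c x z = c x y ∧ c z y = c x y))
include tri

lemma col_inj {x y z : W} (h1 : path c x z) (h2 : path c y z) (h : c x z = c y z) : x = y := by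
  rcases lt_trichotomy x y with h3 | h3 | h3
  · have h4 := path_comp x y z h1 h2 h3
    exact absurd ⟨path_col h2 h4, h.symm⟩ (tri x y z h3 (path_lt h2))
  · exact h3
  · have h4 := path_comp y x z h2 h1 h3
    exact absurd ⟨path_col h1 h4, h⟩ (tri y x z h3 (path_lt h1))

lemma mem_code {x y z : W} (h1 : path c x z) (h2 : path c y z) :
    (c x z, c y z) ∈ code c z ↔ x ≤ y := by
  constructor
  · rintro ⟨x', y', h3, h4, h5, h6⟩
    rw [Prod.mk.injEq] at h6
    rw [col_inj tri h1 h3 h6.1, col_inj tri h2 h4 h6.2]
    exact h5
  · exact fun h => ⟨x, y, h1, h2, h, rfl⟩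

lemma code_ne {y z : W} (hyz : y < z) : code c y ≠ code c z := by
  intro heq
  by_cases hp : path c y z
  · -- the colour of `(y, z)` is new
    have h1 : (c y z, c y z) ∈ code c z := ⟨y, y, hp, hp, le_rfl, rfl⟩
    rw [← heq] at h1
    obtain ⟨x, x', h2, h3, _, h5⟩ := h1
    rw [Prod.mk.injEq] at h5
    have h6 := path_trans x y z h2 hp
    have h7 : c x z = c y z := by rw [← path_col hp h2, h5.1]
    exact absurd (path_lt h2) (by rw [col_inj tri h6 hp h7]; exact lt_irrefl _)
  · have hex : ∃ x, path c x z ∧ x < y ∧ c x y ≠ c x z := by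
      by_contra hno
      push Not at hno
      exact hp (path_of_agree hyz hno)
    let S : Set W := {x | path c x z ∧ x < y ∧ c x y ≠ c x z}
    let x := wellFounded_lt.min S hex
    have hx : x ∈ S := wellFounded_lt.min_mem S hex
    have hmin : ∀ x' < x, x' ∉ S := fun x' h h' => wellFounded_lt.not_lt_min S h' h
    obtain ⟨hx1, hx2, hx3⟩ := hx
    have hbelow : ∀ x', path c x' x → path c x' z ∧ c x' y = c x' z := by
      intro x' h
      have h1 := path_trans x' x z h hx1
      refine ⟨h1, ?_⟩
      by_contra h2
      exact hmin x' (path_lt h) ⟨h1, (path_lt h).trans hx2, h2⟩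
    have hxy : path c x y := by
      rw [path_iff]
      refine ⟨hx2, fun x' _ h => ?_⟩
      rw [(hbelow x' h).2, path_col hx1 h]
    -- the colour of `x` on the path of `z` occurs on the path of `y`
    have h1 : (c x z, c x z) ∈ code c y := by
      rw [heq]; exact ⟨x, x, hx1, hx1, le_rfl, rfl⟩
    obtain ⟨x1, x1', h2, _, _, h5⟩ := h1
    rw [Prod.mk.injEq] at h5
    have h5' : c x z = c x1 y := h5.1
    rcases lt_trichotomy x1 x with h6 | h6 | h6
    · -- then `x1` is on the path of `x`
      have h7 := path_comp x1 x y h2 hxy h6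
      have h8 := (hbelow x1 h7)
      have h9 : c x1 z = c x z := by rw [← h8.2, ← h5']
      have h10 := col_inj tri h8.1 hx1 h9
      exact absurd h6 (by rw [h10]; exact lt_irrefl _)
    · rw [h6] at h5'
      exact hx3 h5'.symm
    · -- the colour of `x` on the path of `y` is on the path of `z`
      have h7 := path_comp x x1 y hxy h2 h6
      have h8 : (c x y, c x1 y) ∈ code c z := by
        rw [← heq]; exact ⟨x, x1, hxy, h2, h6.le, rfl⟩
      obtain ⟨x2, x3, h9, h10, h11, h12⟩ := h8
      rw [Prod.mk.injEq] at h12
      have h13 : x3 = x := col_inj tri h10 hx1 (by rw [← h12.2, h5'])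
      have h14 : x2 ≤ x := by rw [← h13]; exact h11
      rcases h14.lt_or_eq with h15 | h15
      · have h16 := path_comp x2 x z h9 hx1 h15
        have h17 := hbelow x2 h16
        have h18 : c x2 y = c x y := by rw [h17.2, ← h12.1]
        have h19 := path_trans x2 x y h16 hxy
        have h20 := col_inj tri h19 hxy h18
        exact absurd h15 (by rw [h20]; exact lt_irrefl _)
      · rw [h15] at h12
        exact hx3 h12.1

lemma code_inj : Function.Injective (code c) := by
  intro y z h
  rcases lt_trichotomy y z with h1 | h1 | h1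
  · exact absurd h (code_ne tri h1)
  · exact h1
  · exact absurd h.symm (code_ne tri h1)

end

/-- cliques in the union of triangle free graphs `H j`, `j ∈ J`, have size at most `2 ^ |J × J|` -/
theorem exists_code {W J : Type} [LinearOrder W] [WellFoundedLT W] (H : J → W → W → Prop)
    (tri : ∀ j x y z, H j x y → H j y z → ¬ H j x z) (Z : Set W)
    (hZ : ∀ x ∈ Z, ∀ y ∈ Z, x < y → ∃ j, H j x y) :
    ∃ R : W → Set (J × J), InjOn R Z := by
  classical
  rcases isEmpty_or_nonempty J with hJ | hJ
  · refine ⟨fun _ => ∅, fun x hx y hy _ => ?_⟩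
    rcases lt_trichotomy x y with h1 | h1 | h1
    · obtain ⟨j, _⟩ := hZ x hx y hy h1
      exact hJ.elim j
    · exact h1
    · obtain ⟨j, _⟩ := hZ y hy x hx h1
      exact hJ.elim j
  · haveI : WellFoundedLT Z := ⟨InvImage.wf Subtype.val wellFounded_lt⟩
    let c : Z → Z → J := fun x y => if h : ∃ j, H j x.1 y.1 then h.choose else Classical.arbitrary J
    have hc : ∀ x y : Z, x < y → H (c x y) x.1 y.1 := by
      intro x y hxy
      have h := hZ x.1 x.2 y.1 y.2 hxy
      change H (if h : ∃ j, H j x.1 y.1 then h.choose else _) x.1 y.1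
      rw [dif_pos h]
      exact h.choose_spec
    have htri : ∀ x z y : Z, x < z → z < y → ¬ (c x z = c x y ∧ c z y = c x y) := by
      rintro x z y h1 h2 ⟨h3, h4⟩
      have e1 := hc x z h1
      have e2 := hc z y h2
      have e3 := hc x y (h1.trans h2)
      rw [h3] at e1
      rw [h4] at e2
      exact tri _ _ _ _ e1 e2 e3
    refine ⟨fun x => if h : x ∈ Z then code c ⟨x, h⟩ else ∅, fun x hx y hy hxy => ?_⟩
    simp only [dif_pos hx, dif_pos hy] at hxy
    exact congrArg Subtype.val (code_inj htri hxy)

end Pool.Agent.FreeSetsG
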