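import Mathlib.SetTheory.Cardinal.Order
import Mathlib.SetTheory.Cardinal.Regular
import Mathlib.Order.WellFounded

/-!
# Closed partial orders and distributivity
-/

namespace Pool.Agent.FreeSetsG

open Cardinal Set

/-- nonempty chains of size less than `κ` have lower bounds -/
def Closed (κ : Cardinal.{0}) (P : Type) [Preorder P] : Prop :=
  ∀ (J : Type), Nonempty J → #J < κ → ∀ c : J → P, (∀ j k, c j ≤ c k ∨ c k ≤ c j) →
    ∃ q, ∀ j, q ≤ c j

/-- recursive constructions of length less than `κ` -/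
theorem chain_rec {κ : Cardinal.{0}} {P : Type} [Preorder P] (hP : Closed κ P)
    {I : Type} [LinearOrder I] [WellFoundedLT I] (hI : #I < κ)
    {T : Type} [Nonempty T] (Good : (i : I) → ((j : I) → j < i → T) → T → P → Prop)
    (mono : ∀ i s t q r, r ≤ q → Good i s t q → Good i s t r) (p : P)
    (ext : ∀ i s q, q ≤ p → ∃ r ≤ q, ∃ t, Good i s t r) :
    ∃ q ≤ p, ∃ s : I → T, ∀ i, Good i (fun j _ => s j) (s i) q := by
  classical
  let Inv : (i : I) → ((j : I) → j < i → P × T) → P × T → Prop :=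
    fun i prev r => r.1 ≤ p ∧ (∀ j hj, r.1 ≤ (prev j hj).1) ∧
      Good i (fun j hj => (prev j hj).2) r.2 r.1
  let F : (i : I) → ((j : I) → j < i → P × T) → P × T := fun i prev =>
    if h : ∃ r, Inv i prev r then h.choose else (p, Classical.arbitrary T)
  let c : I → P × T := WellFoundedLT.fix F
  have hc : ∀ i, c i = F i (fun j _ => c j) := fun i => WellFoundedLT.fix_eq F i
  have hInv : ∀ i, Inv i (fun j _ => c j) (c i) := by
    intro i
    induction i using WellFoundedLT.induction with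
    | ind i ih =>
      have hex : ∃ r, Inv i (fun j _ => c j) r := by
        obtain ⟨r0, hr0p, hr0⟩ : ∃ r0 : P, r0 ≤ p ∧ ∀ j < i, r0 ≤ (c j).1 := by
          by_cases hne : (Iio i).Nonempty
          · obtain ⟨q, hq⟩ := hP (Iio i) hne.to_subtype
              ((mk_set_le _).trans_lt hI) (fun j => (c j.1).1) (by
                rintro ⟨j, hj⟩ ⟨k, hk⟩
                rcases lt_trichotomy j k with h | h | h
                · exact Or.inr ((ih k hk).2.1 j h)
                · subst h; exact Or.inl le_rfl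
                · exact Or.inl ((ih j hj).2.1 k h))
            obtain ⟨j, hj⟩ := hne
            exact ⟨q, (hq ⟨j, hj⟩).trans (ih j hj).1, fun k hk => hq ⟨k, hk⟩⟩
          · exact ⟨p, le_rfl, fun j hj => absurd ⟨j, hj⟩ hne⟩
        obtain ⟨r, hr, t, ht⟩ := ext i (fun j _ => (c j).2) r0 hr0p
        exact ⟨(r, t), hr.trans hr0p, fun j hj => hr.trans (hr0 j hj), ht⟩
      rw [hc i]
      change Inv i _ (if h : ∃ r, Inv i (fun j _ => c j) r then h.choose else _)
      rw [dif_pos hex]
      exact hex.choose_spec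
  rcases isEmpty_or_nonempty I with hemp | hne
  · exact ⟨p, le_rfl, fun i => hemp.elim i, fun i => hemp.elim i⟩
  · obtain ⟨q, hq⟩ := hP I hne hI (fun i => (c i).1) (by
      intro j k
      rcases lt_trichotomy j k with h | h | h
      · exact Or.inr ((hInv k).2.1 j h)
      · subst h; exact Or.inl le_rfl
      · exact Or.inl ((hInv j).2.1 k h))
    obtain ⟨i0⟩ := hne
    exact ⟨q, (hq i0).trans (hInv i0).1, fun i => (c i).2,
      fun i => mono _ _ _ _ _ (hq i) (hInv i).2.2⟩

/-- distributivity -/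
theorem distrib {κ : Cardinal.{0}} {P : Type} [Preorder P] (hP : Closed κ P)
    {I : Type} (hI : #I < κ) (D : I → Set P) (p : P)
    (hD : ∀ i, ∀ q ≤ p, ∃ r ≤ q, r ∈ D i) (hop : ∀ i, ∀ q ∈ D i, ∀ r ≤ q, r ∈ D i) :
    ∃ q ≤ p, ∀ i, q ∈ D i := by
  obtain ⟨_, hw⟩ := exists_wellFoundedLT I
  obtain ⟨q, hq, s, hs⟩ := chain_rec hP hI (T := Unit) (fun i _ _ q => q ∈ D i)
    (fun i _ _ q r hr h => hop i q h r hr) p (fun i _ q hq => by
      obtain ⟨r, hr, h⟩ := hD i q hq
      exact ⟨r, hr, (), h⟩)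
  exact ⟨q, hq, hs⟩

end Pool.Agent.FreeSetsG
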