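import Pool.Agent.Lib_MP_38e082_gen.Cond

/-!
# The collapse

`Coll I Θ` consists of the functions from proper initial segments of `I` to `Θ`.
-/

set_option linter.unusedSectionVars false

namespace Pool.Agent.FreeSetsG

open Cardinal Set

lemma Closed.mono {κ κ' : Cardinal.{0}} {P : Type} [Preorder P] (h : Closed κ P) (hk : κ' ≤ κ) :
    Closed κ' P := fun J h1 h2 c hc => h J h1 (h2.trans_le hk) c hc

lemma Closed.prod {κ : Cardinal.{0}} {P Q : Type} [Preorder P] [Preorder Q] (hP : Closed κ P)
    (hQ : Closed κ Q) : Closed κ (P × Q) := by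
  intro J h1 h2 c hc
  obtain ⟨p, hp⟩ := hP J h1 h2 (fun j => (c j).1) (fun j k => by
    rcases hc j k with h | h
    · exact Or.inl h.1
    · exact Or.inr h.1)
  obtain ⟨q, hq⟩ := hQ J h1 h2 (fun j => (c j).2) (fun j k => by
    rcases hc j k with h | h
    · exact Or.inl h.2
    · exact Or.inr h.2)
  exact ⟨(p, q), fun j => ⟨hp j, hq j⟩⟩

/-- functions from a proper initial segment of `I` to `Θ` -/
@[ext] structure Coll (I Θ : Type) [LinearOrder I] [Inhabited Θ] : Type where
  /-- the length -/
  len : I
  /-- the function, extended by the default value -/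
  val : I → Θ
  out : ∀ x, len ≤ x → val x = default

namespace Coll

variable {I Θ : Type} [LinearOrder I] [Inhabited Θ]

instance : Preorder (Coll I Θ) where
  le b a := a.len ≤ b.len ∧ ∀ x < a.len, b.val x = a.val x
  le_refl a := ⟨le_rfl, fun _ _ => rfl⟩
  le_trans c b a h1 h2 := ⟨h2.1.trans h1.1, fun x hx => by
    rw [h1.2 x (hx.trans_le h2.1), h2.2 x hx]⟩

lemma le_def {a b : Coll I Θ} : b ≤ a ↔ a.len ≤ b.len ∧ ∀ x < a.len, b.val x = a.val x := Iff.rfl

/-- the restriction to the elements below `i` -/
def res (a : Coll I Θ) (i : I) : Coll I Θ where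
  len := min i a.len
  val x := if x < min i a.len then a.val x else default
  out _ hx := if_neg (not_lt.2 hx)

lemma le_res (a : Coll I Θ) (i : I) : a ≤ a.res i :=
  ⟨min_le_right _ _, fun _ hx => (if_pos hx).symm⟩

lemma res_eq {a b : Coll I Θ} (h : b ≤ a) {i : I} (hi : i ≤ a.len) : b.res i = a.res i := by
  have e1 : min i b.len = i := min_eq_left (hi.trans h.1)
  have e2 : min i a.len = i := min_eq_left hi
  ext x
  · change min i b.len = min i a.len
    rw [e1, e2]
  · change (if x < min i b.len then b.val x else default) =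
      if x < min i a.len then a.val x else default
    rw [e1, e2]
    split_ifs with h1
    · exact h.2 x (h1.trans_le hi)
    · rfl

lemma res_self (a : Coll I Θ) : a.res a.len = a := by
  ext x
  · exact min_self _
  · change (if x < min a.len a.len then a.val x else default) = a.val x
    rw [min_self]
    split_ifs with h1
    · rfl
    · exact (a.out x (not_lt.1 h1)).symm

lemma card_le : #(Coll I Θ) ≤ #(I × (I → Θ)) := by
  refine mk_le_of_injective (f := fun a : Coll I Θ => (a.len, a.val)) ?_
  intro a b h
  rw [Prod.mk.injEq] at h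
  ext x
  · exact h.1
  · exact congrFun h.2 x

section
variable [WellFoundedLT I] [hne : Nonempty I]

/-- the empty function -/
noncomputable instance : OrderTop (Coll I Θ) where
  top := { len := wellFounded_lt.min univ ⟨Classical.arbitrary I, trivial⟩
           val := fun _ => default
           out := fun _ _ => rfl }
  le_top a := ⟨not_lt.1 (wellFounded_lt.not_lt_min univ (mem_univ a.len)),
    fun x hx => absurd hx (wellFounded_lt.not_lt_min univ (mem_univ x))⟩

end

/-- every element of `Θ` is a value of an extension -/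
lemma exists_val (hmax : ∀ i : I, ∃ j, i < j) (a : Coll I Θ) (t : Θ) :
    ∃ b ≤ a, ∃ i < b.len, b.val i = t := by
  classical
  obtain ⟨j, hj⟩ := hmax a.len
  refine ⟨{ len := j
            val := fun x => if x < a.len then a.val x else if x = a.len then t else default
            out := fun x hx => ?_ }, ⟨hj.le, fun x hx => if_pos hx⟩, a.len, hj, ?_⟩
  · rw [if_neg (not_lt.2 (hj.le.trans hx)), if_neg (hj.trans_le hx).ne']
  · change (if a.len < a.len then a.val a.len else if a.len = a.len then t else default) = t
    rw [if_neg (lt_irrefl _), if_pos rfl]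

/-- every condition has an extension of length greater than `i` -/
lemma exists_len (hmax : ∀ i : I, ∃ j, i < j) (a : Coll I Θ) (i : I) :
    ∃ b ≤ a, i < b.len := by
  obtain ⟨j, hj⟩ := hmax (max i a.len)
  have h1 := lt_of_le_of_lt (le_max_left _ _) hj
  have h2 := lt_of_le_of_lt (le_max_right _ _) hj
  exact ⟨{ len := j, val := a.val, out := fun x hx => a.out x (h2.le.trans hx) },
    ⟨h2.le, fun _ _ => rfl⟩, h1⟩

/-- the collapse is `< μ`-closed -/
lemma closed [WellFoundedLT I] (hreg : ∀ s : Set I, #s < #I → ∃ b, ∀ x ∈ s, x < b) :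
    Closed #I (Coll I Θ) := by
  classical
  intro J hJn hJ c dir
  obtain ⟨j0⟩ := hJn
  have hbd : {a : I | ∀ j, (c j).len ≤ a}.Nonempty := by
    obtain ⟨a, ha⟩ := hreg (range fun j => (c j).len) (mk_range_le.trans_lt hJ)
    exact ⟨a, fun j => (ha _ ⟨j, rfl⟩).le⟩
  let top : I := wellFounded_lt.min _ hbd
  have htop : ∀ j, (c j).len ≤ top := wellFounded_lt.min_mem _ hbd
  have coh : ∀ y k, y < (c k).len → (if h : ∃ k', y < (c k').len then (c h.choose).val y
      else default) = (c k).val y := by
    intro y k hy
    have h : ∃ k', y < (c k').len := ⟨k, hy⟩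
    rw [dif_pos h]
    rcases dir k h.choose with h1 | h1
    · exact (h1.2 y h.choose_spec).symm
    · exact h1.2 y hy
  refine ⟨{ len := top
            val := fun y => if h : ∃ k', y < (c k').len then (c h.choose).val y else default
            out := fun x hx => ?_ }, fun k => ⟨htop k, fun y hy => coh y k hy⟩⟩
  rw [dif_neg]
  rintro ⟨k, hk⟩
  exact absurd (hk.trans_le (htop k)) (not_lt.2 hx)

end Coll

/-- the values of the collapse -/
abbrev Th (I : Type) : Type := Set (I × I)

/-- the collapse of `2 ^ μ` to `μ` -/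
abbrev AA (I : Type) [LinearOrder I] : Type := Coll I (Th I)

/-- the first factor -/
abbrev RR (W I : Type) [LinearOrder W] [LinearOrder I] (L : I → Cardinal.{0}) : Type :=
  Cond W I L (Set (W × AA I))

/-- the forcing -/
abbrev PP (W I : Type) [LinearOrder W] [LinearOrder I] (L : I → Cardinal.{0}) : Type :=
  RR W I L × AA I

/-- `ell` and `mu` are the elements of `W` that correspond to the strong limit cardinal `λ` and
to its cofinality `μ` -/
class Setup2 (W I : Type) [LinearOrder W] [WellFoundedLT W] [LinearOrder I] [WellFoundedLT I]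
    (L : I → Cardinal.{0}) (ell mu : W) (e : I → W) : Prop extends Setup W I L where
  regI : ∀ s : Set I, #s < #I → ∃ b, ∀ x ∈ s, x < b
  infI : ℵ₀ ≤ #I
  smallI : ∀ i : I, #(Iio i) < #I
  cardA : #(AA I × Th I) < lam L
  card_ell : #(Iio ell) = lam L
  lt_ell : ∀ b < ell, #(Iio b) < lam L
  emb : StrictMono e
  range_emb : range e = Iio mu
  mu_lt : mu < ell
  cof : ∃ c : I → W, (∀ n, c n < ell) ∧ ∀ x < ell, ∃ n, x < c n
  nat : ∃ e : ℕ → W, StrictMono e ∧ ∃ w ≤ mu, range e = Iio w
  pow : ∀ a < ell, ∃ b < ell, ∃ h : W → Set (W × AA I), ∀ S ⊆ Iio a ×ˢ (univ : Set (AA I)),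
    ∃ x < b, h x = S

section
variable {W I : Type} [LinearOrder W] [WellFoundedLT W] [LinearOrder I] [WellFoundedLT I]
  {L : I → Cardinal.{0}} {ell mu : W} {e : I → W}

variable [hS2 : Setup2 W I L ell mu e]
include hS2

variable (W L ell mu e) in
lemma cardA' : #(AA I) < lam L := by
  refine lt_of_le_of_lt ?_ hS2.cardA
  exact mk_le_of_injective (f := fun a : AA I => (a, (default : Th I)))
    (fun a b h => congrArg Prod.fst h)

variable (W L ell mu e) in
lemma cardI_lt : #I < lam L := by
  have : Nonempty I := hS2.ne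
  refine lt_of_le_of_lt ?_ hS2.cardA
  refine mk_le_of_injective (f := fun i : I => ((⊤ : AA I), ({(i, i)} : Th I))) ?_
  intro i j h
  have h1 : ({(i, i)} : Th I) = {(j, j)} := congrArg Prod.snd h
  have h2 := singleton_injective h1
  exact congrArg Prod.fst h2

end

end Pool.Agent.FreeSetsG
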