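import Pool.Agent.Lib_MP_38e082_lc.Transversal
import Pool.Agent.Lib_MP_38e082_gen.Chains

/-!
# The forcing conditions

`W` is a well-order of size `λ⁺` all of whose proper initial segments have size at most
`λ = sup L i`, where `L i` (`i ∈ I`) is a strictly increasing sequence of infinite cardinals and
`I` is a well-order of type `μ`.
-/

set_option linter.unusedSectionVars false

namespace Pool.Agent.FreeSetsG

open Cardinal Set Pool.Agent.FreeSets

/-- the singular cardinal -/
noncomputable def lam {I : Type} (L : I → Cardinal.{0}) : Cardinal.{0} := ⨆ i, L i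

/-- the standing assumptions on the well-orders `W`, `I` and the cardinals `L i` -/
class Setup (W I : Type) [LinearOrder W] [WellFoundedLT W] [LinearOrder I] [WellFoundedLT I]
    (L : I → Cardinal.{0}) : Prop where
  ne : Nonempty I
  nomax : ∀ i : I, ∃ j, i < j
  mono : StrictMono L
  inf : ∀ i, ℵ₀ ≤ L i
  small : ∀ a : W, #(Iio a) ≤ lam L
  reg : ∀ s : Set W, #s ≤ lam L → ∃ a, ∀ x ∈ s, x < a

section basic
variable {W I : Type} [LinearOrder W] [WellFoundedLT W] [LinearOrder I] [WellFoundedLT I]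
  {L : I → Cardinal.{0}}

section
set_option linter.unusedSectionVars false
variable (W)
variable [hS : Setup W I L]
include hS

lemma L_le_lam (n : I) : L n ≤ lam L := le_ciSup Cardinal.bddAbove_of_small n

lemma L_lt_lam (n : I) : L n < lam L := by
  obtain ⟨m, hm⟩ := hS.nomax n
  exact (hS.mono hm).trans_le (L_le_lam W m)

lemma aleph0_le_lam : ℵ₀ ≤ lam L := by
  obtain ⟨i⟩ := hS.ne
  exact (hS.inf i).trans (L_le_lam W i)

lemma succ_L_lt_lam (n : I) : Order.succ (L n) < lam L := by
  obtain ⟨m, hm⟩ := hS.nomax n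
  exact (Order.succ_le_of_lt (hS.mono hm)).trans_lt (L_lt_lam W m)

/-- a set of size at most `λ` is a union of sets `T i` of size at most `L i` -/
lemma exists_decomp {T : Type} (hT : #T ≤ lam L) : ∃ f : T → I, ∀ n, #{t // f t = n} ≤ L n := by
  have h1 : #T ≤ Cardinal.sum L := hT.trans (Cardinal.iSup_le_sum L)
  have h2 : Cardinal.sum L = #(Σ n, (L n).out) := by simp
  rw [h2] at h1
  obtain ⟨e⟩ := h1
  refine ⟨fun t => (e t).1, fun n => ?_⟩
  have h3 : L n = #((L n).out) := by simp
  rw [h3]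
  refine mk_le_of_injective (f := fun t : {t // (e t).1 = n} =>
    Equiv.sigmaSubtype n ⟨e t.1, t.2⟩) ?_
  intro a b h
  have h4 := (Equiv.sigmaSubtype n).injective h
  exact Subtype.ext (e.injective (congrArg Subtype.val h4))

end

section
variable (L)
variable [hS : Setup W I L]
include hS

lemma exists_gt' (a : W) : ∃ b, a < b := by
  obtain ⟨b, hb⟩ := hS.reg {a} (by
    rw [mk_singleton]
    exact one_le_aleph0.trans (aleph0_le_lam W))
  exact ⟨b, hb a rfl⟩

lemma nonempty_W : Nonempty W := by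
  obtain ⟨b, _⟩ := hS.reg ∅ (by simp)
  exact ⟨b⟩

/-- the next element -/
noncomputable def suc (a : W) : W := wellFounded_lt.min {x | a < x} (exists_gt' L a)

lemma lt_suc_iff {a x : W} : x < suc L a ↔ x ≤ a := by
  have h1 : a < suc L a := wellFounded_lt.min_mem {x | a < x} (exists_gt' L a)
  constructor
  · intro h
    by_contra h2
    exact wellFounded_lt.not_lt_min {x | a < x} (not_le.1 h2) h
  · intro h; exact h.trans_lt h1

lemma lt_suc (a : W) : a < suc L a := (lt_suc_iff L).2 le_rfl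

/-- the least element -/
noncomputable def bt : W := wellFounded_lt.min (univ : Set W) (by
  obtain ⟨a⟩ := nonempty_W (W := W) L
  exact ⟨a, trivial⟩)

lemma not_lt_bt (x : W) : ¬ x < bt (W := W) L := wellFounded_lt.not_lt_min _ (mem_univ x)

lemma bt_le (x : W) : bt (W := W) L ≤ x := not_lt.1 (not_lt_bt L x)

end

end basic

/-- forcing conditions; `T` is the type of the values of the coding part -/
structure Cond (W I : Type) [LinearOrder W] (L : I → Cardinal.{0}) (T : Type) : Type where
  /-- the length -/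
  len : W
  /-- the graphs -/
  H : I → W → W → Prop
  H_lt : ∀ {j x y}, H j x y → x < y ∧ y < len
  card_H : ∀ j y, #{x // H j x y} ≤ L j
  tri : ∀ j x y z, H j x y → H j y z → ¬ H j x z
  /-- the promises -/
  Y : Set (Set W)
  card_Y : #Y ≤ lam L
  Y_lt : ∀ {s}, s ∈ Y → ∀ x ∈ s, x < len
  Y_card : ∀ {s}, s ∈ Y → lam L ≤ #s
  /-- the coding part -/
  bit : W → T

namespace Cond

variable {W I : Type} [LinearOrder W] [LinearOrder I] {L : I → Cardinal.{0}} {T : Type}

/-- the order of the conditions -/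
structure LE' (q p : Cond W I L T) : Prop where
  len : p.len ≤ q.len
  H : ∀ j x y, y < p.len → (q.H j x y ↔ p.H j x y)
  bit : ∀ y, y < p.len → q.bit y = p.bit y
  Y : p.Y ⊆ q.Y
  prom : ∀ y, p.len ≤ y → y < q.len → ∀ s ∈ p.Y, ∃ j, ∃ x ∈ s, q.H j x y

instance : Preorder (Cond W I L T) where
  le q p := LE' q p
  le_refl p := ⟨le_rfl, fun _ _ _ _ => Iff.rfl, fun _ _ => rfl, Subset.rfl,
    fun y h1 h2 => absurd h2 (not_lt.2 h1)⟩
  le_trans r q p h1 h2 := by
    refine ⟨h2.len.trans h1.len, fun j x y h => ?_, fun y h => ?_, h2.Y.trans h1.Y, ?_⟩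
    · rw [h1.H j x y (h.trans_le h2.len), h2.H j x y h]
    · rw [h1.bit y (h.trans_le h2.len), h2.bit y h]
    · intro y hy1 hy2 s hs
      rcases lt_or_ge y q.len with h | h
      · obtain ⟨j, x, hx, hj⟩ := h2.prom y hy1 h s hs
        exact ⟨j, x, hx, (h1.H j x y h).2 hj⟩
      · exact h1.prom y h hy2 s (h2.Y hs)

lemma le_def {q p : Cond W I L T} : q ≤ p ↔ LE' q p := Iff.rfl

section
variable [WellFoundedLT W] [WellFoundedLT I] [hS : Setup W I L] [hT : Inhabited T]
include hS

/-- the empty condition -/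
noncomputable instance : OrderTop (Cond W I L T) where
  top :=
    { len := bt L
      H := fun _ _ _ => False
      H_lt := fun h => h.elim
      card_H := fun j y => by simp
      tri := fun _ _ _ _ h => h.elim
      Y := ∅
      card_Y := by simp
      Y_lt := fun h => h.elim
      Y_card := fun h => h.elim
      bit := fun _ => default }
  le_top p := ⟨bt_le L _, fun j x y h => absurd h (not_lt_bt L _),
    fun y h => absurd h (not_lt_bt L _), empty_subset _, fun _ _ _ _ h => h.elim⟩

/-- extension by one point -/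
lemma exists_one_point (p : Cond W I L T) (S : T) :
    ∃ q, q ≤ p ∧ q.len = suc L p.len ∧ q.bit p.len = S := by
  classical
  obtain ⟨f, hf⟩ := exists_decomp W p.card_Y
  have key : ∀ j, ∃ h : {t : p.Y // f t = j} → W, (∀ t, h t ∈ (t.1.1 : Set W)) ∧
      ∀ t t', ¬ p.H j (h t) (h t') := by
    intro j
    refine exists_transversal (L j) (hS.inf j) (hf j) (p.H j)
      (fun x h => lt_irrefl _ (p.H_lt h).1) (p.card_H j) _ ?_
    intro t
    exact (succ_L_lt_lam W j).trans_le (p.Y_card t.1.2)
  choose h hh1 hh2 using key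
  let P : I → Set W := fun j => range (h j)
  have hPlt : ∀ {j x}, x ∈ P j → x < p.len := by
    rintro j x ⟨t, rfl⟩
    exact p.Y_lt t.1.2 _ (hh1 j t)
  have hPH : ∀ {j x y}, x ∈ P j → y ∈ P j → ¬ p.H j x y := by
    rintro j x y ⟨t, rfl⟩ ⟨t', rfl⟩
    exact hh2 j t t'
  have hlt := lt_suc L p.len
  refine ⟨{
    len := suc L p.len
    H := fun j x y => p.H j x y ∨ (y = p.len ∧ x ∈ P j)
    H_lt := ?_
    card_H := ?_
    tri := ?_
    Y := p.Y
    card_Y := p.card_Y
    Y_lt := fun hs x hx => (p.Y_lt hs x hx).trans hlt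
    Y_card := p.Y_card
    bit := Function.update p.bit p.len S }, ?_, rfl, ?_⟩
  · rintro j x y (h1 | ⟨rfl, h1⟩)
    · exact ⟨(p.H_lt h1).1, (p.H_lt h1).2.trans hlt⟩
    · exact ⟨hPlt h1, hlt⟩
  · intro j y
    by_cases hy : y = p.len
    · have h1 : #{x // p.H j x y ∨ (y = p.len ∧ x ∈ P j)} ≤ #(P j) := by
        apply mk_le_mk_of_subset
        rintro x (h2 | h2)
        · exact absurd (p.H_lt h2).2 (by rw [hy]; exact lt_irrefl _)
        · exact h2.2
      exact h1.trans (mk_range_le.trans (hf j))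
    · have h1 : #{x // p.H j x y ∨ (y = p.len ∧ x ∈ P j)} ≤ #{x // p.H j x y} := by
        apply mk_le_mk_of_subset
        rintro x (h2 | h2)
        · exact h2
        · exact absurd h2.1 hy
      exact h1.trans (p.card_H j y)
  · rintro j x y z (h1 | ⟨h1, h1'⟩) (h2 | ⟨h2, h2'⟩) (h3 | ⟨h3, h3'⟩)
    · exact p.tri j x y z h1 h2 h3
    · exact absurd (p.H_lt h2).2 (by rw [h3]; exact lt_irrefl _)
    · exact absurd (p.H_lt h3).2 (by rw [h2]; exact lt_irrefl _)
    · exact hPH h3' h2' h1
    · exact absurd ((p.H_lt h2).1.trans (p.H_lt h2).2) (by rw [h1]; exact lt_irrefl _)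
    · exact absurd (p.H_lt h2).2 (by rw [h3]; exact lt_irrefl _)
    · exact absurd (hPlt h2') (by rw [h1]; exact lt_irrefl _)
    · exact absurd (hPlt h2') (by rw [h1]; exact lt_irrefl _)
  · refine ⟨hlt.le, fun j x y hy => ?_, fun y hy => ?_, Subset.rfl, ?_⟩
    · constructor
      · rintro (h1 | h1)
        · exact h1
        · exact absurd hy (by rw [h1.1]; exact lt_irrefl _)
      · exact Or.inl
    · exact Function.update_of_ne hy.ne _ _
    · intro y hy1 hy2 s hs
      have hy : y = p.len := le_antisymm ((lt_suc_iff L).1 hy2) hy1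
      exact ⟨f ⟨s, hs⟩, h _ ⟨⟨s, hs⟩, rfl⟩, hh1 _ ⟨⟨s, hs⟩, rfl⟩, Or.inr ⟨hy, ⟨_, rfl⟩⟩⟩
  · exact Function.update_self _ _ _

/-- a new promise can be added -/
lemma exists_promise (p : Cond W I L T) (s : Set W) (h1 : ∀ x ∈ s, x < p.len)
    (h2 : lam L ≤ #s) : ∃ q, q ≤ p ∧ q.len = p.len ∧ s ∈ q.Y := by
  refine ⟨{ p with
    Y := insert s p.Y
    card_Y := ?_
    Y_lt := ?_
    Y_card := ?_ }, ?_, rfl, mem_insert _ _⟩
  · refine mk_insert_le.trans ?_
    exact add_le_of_le (aleph0_le_lam W) p.card_Y (one_le_aleph0.trans (aleph0_le_lam W))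
  · rintro t (rfl | ht)
    · exact h1
    · exact p.Y_lt ht
  · rintro t (rfl | ht)
    · exact h2
    · exact p.Y_card ht
  · exact ⟨le_rfl, fun _ _ _ _ => Iff.rfl, fun _ _ => rfl, subset_insert _ _,
      fun y h1 h2 => absurd h2 (not_lt.2 h1)⟩

/-- chains of length at most `λ` have lower bounds -/
theorem closed : Closed (Order.succ (lam L)) (Cond W I L T) := by
  classical
  intro J hJn hJ' c dir
  have hJ : #J ≤ lam L := Order.lt_succ_iff.1 hJ'
  obtain ⟨j0⟩ := hJn
  -- the supremum of the lengths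
  have hbd : {a : W | ∀ j, (c j).len ≤ a}.Nonempty := by
    obtain ⟨a, ha⟩ := hS.reg (range fun j => (c j).len) (mk_range_le.trans hJ)
    exact ⟨a, fun j => (ha _ ⟨j, rfl⟩).le⟩
  let top : W := wellFounded_lt.min _ hbd
  have htop : ∀ j, (c j).len ≤ top := wellFounded_lt.min_mem _ hbd
  have hlt_top : ∀ {x}, x < top → ∃ j, x < (c j).len := by
    intro x hx
    by_contra h
    push Not at h
    exact wellFounded_lt.not_lt_min {a : W | ∀ j, (c j).len ≤ a} h hx
  -- coherence
  have cohH : ∀ j x y k, y < (c k).len → ((∃ k', (c k').H j x y) ↔ (c k).H j x y) := by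
    intro j x y k hy
    constructor
    · rintro ⟨k', h⟩
      rcases dir k k' with h1 | h1
      · exact (h1.H j x y ((c k').H_lt h).2).2 h
      · exact (h1.H j x y hy).1 h
    · exact fun h => ⟨k, h⟩
  have cohbit : ∀ y k, y < (c k).len → (if h : ∃ k', y < (c k').len then (c h.choose).bit y
      else default) = (c k).bit y := by
    intro y k hy
    have h : ∃ k', y < (c k').len := ⟨k, hy⟩
    rw [dif_pos h]
    rcases dir k h.choose with h1 | h1
    · exact (h1.bit y h.choose_spec).symm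
    · exact h1.bit y hy
  refine ⟨{
    len := top
    H := fun j x y => ∃ k, (c k).H j x y
    H_lt := ?_
    card_H := ?_
    tri := ?_
    Y := ⋃ k, (c k).Y
    card_Y := ?_
    Y_lt := ?_
    Y_card := ?_
    bit := fun y => if h : ∃ k', y < (c k').len then (c h.choose).bit y else default },
      fun k => ⟨htop k, fun j x y hy => cohH j x y k hy, fun y hy => cohbit y k hy,
        subset_iUnion (fun k => (c k).Y) k, ?_⟩⟩
  · rintro j x y ⟨k, h⟩
    exact ⟨((c k).H_lt h).1, ((c k).H_lt h).2.trans_le (htop k)⟩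
  · intro j y
    by_cases hy : ∃ k, y < (c k).len
    · obtain ⟨k, hk⟩ := hy
      have : {x | ∃ k, (c k).H j x y} = {x | (c k).H j x y} := by
        ext x; exact cohH j x y k hk
      calc #{x // ∃ k, (c k).H j x y} = #({x | ∃ k, (c k).H j x y} : Set W) := rfl
        _ = #({x | (c k).H j x y} : Set W) := by rw [this]
        _ ≤ L j := (c k).card_H j y
    · have : IsEmpty {x // ∃ k, (c k).H j x y} :=
        ⟨fun ⟨x, k, h⟩ => hy ⟨k, ((c k).H_lt h).2⟩⟩
      rw [mk_eq_zero]
      exact zero_le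
  · rintro j x y z ⟨k1, h1⟩ ⟨k2, h2⟩ ⟨k3, h3⟩
    have hz := ((c k3).H_lt h3).2
    have hy := ((c k3).H_lt h3).1
    have h2' := (cohH j y z k3 hz).1 ⟨k2, h2⟩
    have h1' := (cohH j x y k3 (((c k3).H_lt h2').1.trans hz)).1 ⟨k1, h1⟩
    exact (c k3).tri j x y z h1' h2' h3
  · refine (mk_iUnion_le _).trans ?_
    refine (mul_le_mul' hJ (ciSup_le' fun k => (c k).card_Y)).trans ?_
    rw [mul_eq_self (aleph0_le_lam W)]
  · intro s hs x hx
    obtain ⟨k, hk⟩ := mem_iUnion.1 hs
    exact ((c k).Y_lt hk x hx).trans_le (htop k)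
  · intro s hs
    obtain ⟨k, hk⟩ := mem_iUnion.1 hs
    exact (c k).Y_card hk
  · intro y hy1 hy2 s hs
    obtain ⟨k', hk'⟩ := hlt_top hy2
    rcases dir k' k with h1 | h1
    · obtain ⟨j, x, hx, hj⟩ := h1.prom y hy1 hk' s hs
      exact ⟨j, x, hx, k', hj⟩
    · exact absurd (hy1.trans_lt hk') (not_lt.2 h1.len)

/-- conditions can be made arbitrarily long -/
theorem exists_len (a : W) (p : Cond W I L T) : ∃ q ≤ p, a < q.len := by
  induction a using WellFoundedLT.induction generalizing p with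
  | ind a ih =>
    obtain ⟨q, hq, h⟩ := distrib (closed (W := W) (I := I) (L := L) (T := T)) (I := Iio a)
      (Order.lt_succ_iff.2 (hS.small a))
      (fun b => {q | b.1 < q.len}) p (fun b q _ => ih b.1 b.2 q)
      (fun b q h r hr => lt_of_lt_of_le h (LE'.len hr))
    obtain ⟨r, hr, hlen, _⟩ := exists_one_point q default
    refine ⟨r, hr.trans hq, ?_⟩
    rw [hlen, lt_suc_iff]
    by_contra hlt
    exact lt_irrefl _ (h ⟨q.len, not_le.1 hlt⟩)

end

end Cond

end Pool.Agent.FreeSetsG
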