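import Pool.Agent.Lib_MP_38e082_gen.Full

/-!
# Deciding functions and subsets
-/

set_option linter.unusedSectionVars false

namespace Pool.Agent.FreeSetsG

open Pool.Agent.Forcing Pool.Agent.Forcing.Name Pool.Agent.Inner Set Pool.Agent.FreeSets Cardinal

section one
variable {W I : Type} [LinearOrder W] [WellFoundedLT W] [LinearOrder I] [WellFoundedLT I]
  [Nonempty I] {L : I → Cardinal.{0}} [hS : Setup W I L]
include hS

/-- `q` decides the value of `R` at `x` -/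
def Dec (R : Fam.{1}) (l : List (Name (PP W I L))) (x : W) (q : PP W I L) : Prop :=
  (∃ b : W, Frc R (ev omegaName (check x :: check b :: l)) q) ∨
    ∀ b : W, ∀ r ≤ q, ¬ Frc R (ev omegaName (check x :: check b :: l)) r

lemma Dec.mono {R : Fam.{1}} {l : List (Name (PP W I L))} {x : W} {q r : PP W I L}
    (h : Dec R l x q) (hr : r ≤ q) : Dec R l x r := by
  rcases h with ⟨b, h⟩ | h
  · exact Or.inl ⟨b, h.mono hr⟩
  · exact Or.inr fun b s hs => h b s (hs.trans hr)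

lemma exists_dec (R : Fam.{1}) (l : List (Name (PP W I L))) (x : W) (p : PP W I L) :
    ∃ q ≤ p, Dec R l x q := by
  by_cases h : ∃ b : W, ∃ r ≤ p, Frc R (ev omegaName (check x :: check b :: l)) r
  · obtain ⟨b, r, hr, h⟩ := h
    exact ⟨r, hr, Or.inl ⟨b, h⟩⟩
  · push Not at h
    exact ⟨p, le_rfl, Or.inr h⟩

/-- deciding modulo the collapse -/
lemma exists_dec2 (R : Fam.{1}) (l : List (Name (PP W I L))) (A : Set W)
    (hA : #(A × AA I) ≤ lam L) (p : RR W I L) (a0 : AA I) :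
    ∃ q ≤ p, ∀ x ∈ A, ∀ a ≤ a0, ∃ a' ≤ a, Dec R l x (q, a') := by
  have hA' : #(A × {a : AA I // a ≤ a0}) < Order.succ (lam L) := by
    refine Order.lt_succ_iff.2 (le_trans ?_ hA)
    exact mk_le_of_injective (f := fun t : A × {a : AA I // a ≤ a0} => (t.1, t.2.1))
      (fun s t h => by
        rw [Prod.mk.injEq] at h
        exact Prod.ext h.1 (Subtype.ext h.2))
  obtain ⟨q, hq, h⟩ := distrib (Cond.closed (W := W) (I := I) (L := L) (T := Set (W × AA I)))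
    hA' (fun t => {q | ∃ a' ≤ t.2.1, Dec R l t.1.1 (q, a')}) p
    (fun t q _ => by
      obtain ⟨r, hr, h⟩ := exists_dec R l t.1.1 (q, t.2.1)
      exact ⟨r.1, hr.1, r.2, hr.2, h⟩)
    (fun t q h r hr => by
      obtain ⟨a', ha', h⟩ := h
      exact ⟨a', ha', h.mono ⟨hr, le_rfl⟩⟩)
  exact ⟨q, hq, fun x hx a ha => h (⟨x, hx⟩, ⟨a, ha⟩)⟩

/-- injectivity of forced injections on canonical names -/
lemma inj_unique {i A B : Name (PP W I L)} {p : PP W I L} {b b' x : W}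
    (h : Frc RInj (ev omegaName [i, A, B]) p)
    (h1 : Frc RVal (ev omegaName [check b, check x, i]) p)
    (h2 : Frc RVal (ev omegaName [check b', check x, i]) p) : b = b' := by
  obtain ⟨𝔊, hF, h0, hSN⟩ := exists_full
    ({i, A, B, check b, check b', check x} : Set (Name (PP W I L))) (by simp) p
  subst h0
  have hi : i ∈ 𝔊.N := hSN (by simp)
  have hA : A ∈ 𝔊.N := hSN (by simp)
  have hB : B ∈ 𝔊.N := hSN (by simp)
  have hb : check b ∈ 𝔊.N := hSN (by simp)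
  have hb' : check b' ∈ 𝔊.N := hSN (by simp)
  have hx : check x ∈ 𝔊.N := hSN (by simp)
  have t0 : IsInj 𝔊.E (𝔊.cls ⟨i, hi⟩) (𝔊.cls ⟨A, hA⟩) (𝔊.cls ⟨B, hB⟩) :=
    Frc.true_list fo_inj 𝔊 [⟨i, hi⟩, ⟨A, hA⟩, ⟨B, hB⟩] ⟨omegaName, hF.rich.omega_mem⟩ h
  have t1 : Val 𝔊.E (𝔊.cls ⟨i, hi⟩) (𝔊.cls ⟨check b, hb⟩) (𝔊.cls ⟨check x, hx⟩) :=
    Frc.true_list fo_val 𝔊 [⟨check b, hb⟩, ⟨check x, hx⟩, ⟨i, hi⟩]
      ⟨omegaName, hF.rich.omega_mem⟩ h1
  have t2 : Val 𝔊.E (𝔊.cls ⟨i, hi⟩) (𝔊.cls ⟨check b', hb'⟩) (𝔊.cls ⟨check x, hx⟩) :=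
    Frc.true_list fo_val 𝔊 [⟨check b', hb'⟩, ⟨check x, hx⟩, ⟨i, hi⟩]
      ⟨omegaName, hF.rich.omega_mem⟩ h2
  have t3 := t0.2 _ _ _ t1 t2
  exact (rep_self hb).check_inj (t3 ▸ rep_self hb')

lemma val_swap {i : Name (PP W I L)} {p : PP W I L} {b x : W}
    (h : Frc RVal (ev omegaName [check b, check x, i]) p) :
    Frc RVal' (ev omegaName [check x, check b, i]) p := by
  refine frc_full fo_val' _ _ {check b, check x, i} (by simp) ?_
  intro 𝔊' hF' h0' hSN' hl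
  have hb' : check b ∈ 𝔊'.N := hSN' (by simp)
  have hx' : check x ∈ 𝔊'.N := hSN' (by simp)
  have hi' : i ∈ 𝔊'.N := hSN' (by simp)
  exact Frc.true_list fo_val 𝔊' [⟨check b, hb'⟩, ⟨check x, hx'⟩, ⟨i, hi'⟩]
    ⟨omegaName, hF'.rich.omega_mem⟩ (h.mono h0')

lemma val_swap' {i : Name (PP W I L)} {p : PP W I L} {b x : W}
    (h : Frc RVal' (ev omegaName [check x, check b, i]) p) :
    Frc RVal (ev omegaName [check b, check x, i]) p := by
  refine frc_full fo_val _ _ {check b, check x, i} (by simp) ?_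
  intro 𝔊' hF' h0' hSN' hl
  have hb' : check b ∈ 𝔊'.N := hSN' (by simp)
  have hx' : check x ∈ 𝔊'.N := hSN' (by simp)
  have hi' : i ∈ 𝔊'.N := hSN' (by simp)
  exact Frc.true_list fo_val' 𝔊' [⟨check x, hx'⟩, ⟨check b, hb'⟩, ⟨i, hi'⟩]
    ⟨omegaName, hF'.rich.omega_mem⟩ (h.mono h0')

/-- there are no new injections into smaller sets, general form -/
theorem no_inj_gen {K : Type} (S B : Set W) (hc : #(B × K) < #S) (i : Name (PP W I L))
    (p : PP W I L) (c : K → PP W I L) (hcp : ∀ k, c k ≤ p)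
    (hdec : ∀ x ∈ B, ∀ r ≤ p, ∃ k, ∃ r' ≤ r, r' ≤ c k ∧ Dec RVal' [i] x (c k)) :
    ¬ Frc RInj (ev omegaName [i, checkSet S, checkSet B]) p := by
  intro h
  have key : ∀ b ∈ S, ∃ x ∈ B, ∃ k, Frc RVal (ev omegaName [check b, check x, i]) (c k) := by
    intro b hb
    obtain ⟨𝔊, hF, h0, hSN⟩ := exists_full
      ({i, checkSet S, checkSet B, check b} : Set (Name (PP W I L))) (by simp) p
    subst h0
    have hi : i ∈ 𝔊.N := hSN (by simp)
    have hA : checkSet S ∈ 𝔊.N := hSN (by simp)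
    have hB : checkSet B ∈ 𝔊.N := hSN (by simp)
    have hbN : check b ∈ 𝔊.N := hSN (by simp)
    have t0 : IsInj 𝔊.E (𝔊.cls ⟨i, hi⟩) (𝔊.cls ⟨checkSet S, hA⟩) (𝔊.cls ⟨checkSet B, hB⟩) :=
      Frc.true_list fo_inj 𝔊 [⟨i, hi⟩, ⟨checkSet S, hA⟩, ⟨checkSet B, hB⟩]
        ⟨omegaName, hF.rich.omega_mem⟩ h
    have hbS : 𝔊.E (𝔊.cls ⟨check b, hbN⟩) (𝔊.cls ⟨checkSet S, hA⟩) :=
      (E_checkSet hF.rich hA).2 ⟨b, hb, rep_self hbN⟩
    obtain ⟨y, hy, _⟩ := t0.1.2 _ hbS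
    obtain ⟨x, hx, hxr⟩ := (E_checkSet hF.rich hB).1 (isFun_mem hF.rich.zfc t0.1 hy).2
    obtain ⟨y', rfl⟩ := 𝔊.exists_rep y
    obtain ⟨n, hn⟩ := rep_cls_iff.1 hxr
    obtain ⟨m, hm⟩ := (truth_list fo_val 𝔊 [⟨check b, hbN⟩, y', ⟨i, hi⟩]
      ⟨omegaName, hF.rich.omega_mem⟩).1 hy
    have hm' : Frc RVal (ev omegaName [check b, check x, i]) (𝔊.G (max n m)) := by
      refine frc_congr_list ?_ (hm.mono (𝔊.anti (le_max_right n m)))
      exact List.Forall₂.cons (feq_refl _ _) (List.Forall₂.cons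
        (feq_mono hn (𝔊.anti (le_max_left _ _))) (List.Forall₂.cons (feq_refl _ _) .nil))
    obtain ⟨k, r', hr', hrk, hd⟩ := hdec x hx (𝔊.G (max n m)) (𝔊.anti (Nat.zero_le _))
    refine ⟨x, hx, k, ?_⟩
    rcases hd with ⟨b', hb'⟩ | hno
    · have hb2 : Frc RVal (ev omegaName [check b', check x, i]) (c k) := val_swap' hb'
      have hbb : b = b' := inj_unique
        (h.mono (hr'.trans (𝔊.anti (Nat.zero_le _)))) (hm'.mono hr') (hb2.mono hrk)
      rw [hbb]; exact hb2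
    · exact absurd (val_swap (hm'.mono hr')) (hno b _ hrk)
  choose x hxB k hx using fun b : S => key b.1 b.2
  have hinj : Function.Injective (fun b : S => ((⟨x b, hxB b⟩ : B), k b)) := by
    intro b b' hbb
    rw [Prod.mk.injEq] at hbb
    have e : x b = x b' := congrArg Subtype.val hbb.1
    have h1 := hx b
    rw [e, hbb.2] at h1
    exact Subtype.ext (inj_unique (h.mono (hcp _)) h1 (hx b'))
  exact absurd (mk_le_of_injective hinj) (not_le.2 hc)

/-- there are no new injections into sets of size at most `λ`, from sets that are larger also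
than the collapse -/
theorem no_inj2 (S B : Set W) (hB : #(B × AA I) ≤ lam L) (hc : #(B × AA I) < #S)
    (i : Name (PP W I L)) (p : PP W I L) :
    ¬ Frc RInj (ev omegaName [i, checkSet S, checkSet B]) p := by
  intro h
  obtain ⟨q, hq, hdec⟩ := exists_dec2 RVal' [i] B hB p.1 p.2
  have hqp : (q, p.2) ≤ p := ⟨hq, le_rfl⟩
  refine no_inj_gen (K := {a : AA I // a ≤ p.2}) S B (lt_of_le_of_lt ?_ hc) i (q, p.2)
    (fun a => (q, a.1)) (fun a => ⟨le_rfl, a.2⟩) ?_ (h.mono hqp)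
  · exact mk_le_of_injective (f := fun t : B × {a : AA I // a ≤ p.2} => (t.1, t.2.1))
      (fun s t h => by
        rw [Prod.mk.injEq] at h
        exact Prod.ext h.1 (Subtype.ext h.2))
  · intro x hx r hr
    obtain ⟨a', ha', hd⟩ := hdec x hx r.2 hr.2
    exact ⟨⟨a', ha'.trans hr.2⟩, (r.1, a'), ⟨le_rfl, ha'⟩, ⟨hr.1, le_rfl⟩, hd⟩

/-- sets of size at most `λ` are given by names that depend on the collapse only -/
theorem exists_decide_set (z : Name (PP W I L)) (A : Set W) (hA : #(A × AA I) ≤ lam L)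
    (p : PP W I L) (h1 : ∀ q ≤ p, ∀ b : W, fmem (check b) z q → b ∈ A)
    (h2 : Frc RSub (ev omegaName [z, kapN W L]) p) :
    ∃ q ≤ p.1, ∃ S ⊆ A ×ˢ {a | a ≤ p.2}, (∀ x a, (x, a) ∈ S → fmem (check x) z (q, a)) ∧
      feq z (evN S) (q, p.2) := by
  have hA' : #(A × {a : AA I // a ≤ p.2}) < Order.succ (lam L) := by
    refine Order.lt_succ_iff.2 (le_trans ?_ hA)
    exact mk_le_of_injective (f := fun t : A × {a : AA I // a ≤ p.2} => (t.1, t.2.1))
      (fun s t h => by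
        rw [Prod.mk.injEq] at h
        exact Prod.ext h.1 (Subtype.ext h.2))
  obtain ⟨q, hq, h⟩ := distrib (Cond.closed (W := W) (I := I) (L := L) (T := Set (W × AA I)))
    hA' (fun t => {q | ∃ a' ≤ t.2.1, fmem (check t.1.1) z (q, a') ∨
      ∀ r ≤ (q, a'), ¬ fmem (check t.1.1) z r}) p.1
    (fun t q _ => by
      by_cases h : ∃ r ≤ (q, t.2.1), fmem (check t.1.1) z r
      · obtain ⟨r, hr, h⟩ := h
        exact ⟨r.1, hr.1, r.2, hr.2, Or.inl h⟩
      · push Not at h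
        exact ⟨q, le_rfl, t.2.1, le_rfl, Or.inr h⟩)
    (fun t q h r hr => by
      obtain ⟨a', ha', h⟩ := h
      have hle : (r, a') ≤ (q, a') := ⟨hr, le_rfl⟩
      rcases h with h | h
      · exact ⟨a', ha', Or.inl (fmem_mono h hle)⟩
      · exact ⟨a', ha', Or.inr fun s hs => h s (hs.trans hle)⟩)
  have hqp : (q, p.2) ≤ p := ⟨hq, le_rfl⟩
  let S : Set (W × AA I) := {t | t.1 ∈ A ∧ t.2 ≤ p.2 ∧ fmem (check t.1) z (q, t.2)}
  refine ⟨q, hq, S, fun t ht => ⟨ht.1, ht.2.1⟩, fun x a hxa => hxa.2.2, ?_⟩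
  have hfo : FO.{1} (fun _ _ v => v 0 = v 1) := FO.eq 0 1
  have key : Frc (fun _ _ v => v 0 = v 1) (ev omegaName [z, evN S]) (q, p.2) := by
    refine frc_full hfo _ _ {kapN W L} (by simp) ?_
    intro 𝔊 hF h0 hSN hl
    have hzN : z ∈ 𝔊.N := hl _ (by simp)
    have hSN' : evN S ∈ 𝔊.N := hl _ (by simp)
    have hkN : kapN W L ∈ 𝔊.N := hSN (by simp)
    change 𝔊.cls ⟨z, hzN⟩ = 𝔊.cls ⟨_, hSN'⟩
    have t0 : Sub 𝔊.E (𝔊.cls ⟨z, hzN⟩) (𝔊.cls ⟨kapN W L, hkN⟩) :=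
      Frc.true_list fo_sub 𝔊 [⟨z, hzN⟩, ⟨kapN W L, hkN⟩] ⟨omegaName, hF.rich.omega_mem⟩ (n := 0)
        ((h2.mono hqp).mono h0)
    apply ext hF.rich.zfc
    intro t
    constructor
    · intro ht
      obtain ⟨x, _, hx⟩ := (E_checkSet hF.rich hkN).1 (t0 t ht)
      obtain ⟨t', rfl⟩ := 𝔊.exists_rep t
      obtain ⟨n, hn⟩ := rep_cls_iff.1 hx
      obtain ⟨m, hm⟩ := ht
      have h3 : fmem (check x) z (𝔊.G (max n m)) :=
        fmem_congr_left (feq_mono hn (𝔊.anti (le_max_left _ _)))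
          (fmem_mono hm (𝔊.anti (le_max_right _ _)))
      have hle : 𝔊.G (max n m) ≤ (q, p.2) := (𝔊.anti (Nat.zero_le _)).trans h0
      have hxA : x ∈ A := h1 _ (hle.trans hqp) x h3
      refine ⟨max n m, ?_⟩
      refine fmem_congr_left (feq_symm (feq_mono hn (𝔊.anti (le_max_left _ _)))) ?_
      intro r hr
      obtain ⟨a', ha', h4⟩ := h (⟨x, hxA⟩, ⟨r.2, (hr.trans hle).2⟩)
      have e1 : (r.1, a') ≤ r := ⟨le_rfl, ha'⟩
      have e2 : (r.1, a') ≤ (q, a') := ⟨(hr.trans hle).1, le_rfl⟩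
      rcases h4 with h4 | h4
      · exact ⟨(r.1, a'), e1, ⟨(x, a'), hxA, ha'.trans (hr.trans hle).2, h4⟩,
          ⟨le_top, le_rfl⟩, feq_refl _ _⟩
      · exact absurd (fmem_mono h3 (e1.trans hr)) (h4 _ e2)
    · intro ht
      obtain ⟨x, a, n, ⟨hxA, ha, hx⟩, hna, hxr⟩ := (E_evN hF.rich hSN').1 ht
      obtain ⟨t', rfl⟩ := 𝔊.exists_rep t
      obtain ⟨m, hm⟩ := rep_cls_iff.1 hxr
      refine ⟨max n m, fmem_congr_left (feq_symm (feq_mono hm (𝔊.anti (le_max_right _ _))))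
        (fmem_mono hx ⟨?_, ?_⟩)⟩
      · exact ((𝔊.anti (Nat.zero_le _)).trans h0).1
      · exact (𝔊.anti (le_max_left n m)).2.trans hna
  exact key.force (φ := .eq 0 1) (fun _ _ _ => Iff.rfl)

lemma sub_check {z : Name (PP W I L)} {A : Set W} {p : PP W I L}
    (h : Frc RSub (ev omegaName [z, checkSet A]) p) :
    (∀ q ≤ p, ∀ b : W, fmem (check b) z q → b ∈ A) ∧ Frc RSub (ev omegaName [z, kapN W L]) p := by
  constructor
  · intro q hq b hb
    obtain ⟨𝔊, hF, h0, hSN⟩ := exists_full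
      ({z, checkSet A, check b} : Set (Name (PP W I L))) (by simp) q
    subst h0
    have hz : z ∈ 𝔊.N := hSN (by simp)
    have hA : checkSet A ∈ 𝔊.N := hSN (by simp)
    have hbN : check b ∈ 𝔊.N := hSN (by simp)
    have t0 : Sub 𝔊.E (𝔊.cls ⟨z, hz⟩) (𝔊.cls ⟨_, hA⟩) :=
      Frc.true_list fo_sub 𝔊 [⟨z, hz⟩, ⟨_, hA⟩] ⟨omegaName, hF.rich.omega_mem⟩ (h.mono hq)
    obtain ⟨x, hx, hxr⟩ := (E_checkSet hF.rich hA).1 (t0 (𝔊.cls ⟨check b, hbN⟩) ⟨0, hb⟩)
    rw [(rep_self hbN).check_inj hxr]; exact hx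
  · refine frc_full fo_sub _ _ {checkSet A} (by simp) ?_
    intro 𝔊 hF h0 hSN hl
    have hz := hl z (by simp)
    have hk := hl (kapN W L) (by simp)
    have hA : checkSet A ∈ 𝔊.N := hSN (by simp)
    have t0 : Sub 𝔊.E (𝔊.cls ⟨z, hz⟩) (𝔊.cls ⟨_, hA⟩) :=
      Frc.true_list fo_sub 𝔊 [⟨z, hz⟩, ⟨_, hA⟩] ⟨omegaName, hF.rich.omega_mem⟩ (n := 0)
        (h.mono h0)
    intro t ht
    obtain ⟨x, _, hxr⟩ := (E_checkSet hF.rich hA).1 (t0 t ht)
    exact (E_checkSet hF.rich hk).2 ⟨x, mem_univ x, hxr⟩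

lemma exists_decide_sub {z : Name (PP W I L)} {A : Set W} (hA : #(A × AA I) ≤ lam L)
    {p : PP W I L} (h : Frc RSub (ev omegaName [z, checkSet A]) p) :
    ∃ q ≤ p.1, ∃ S ⊆ A ×ˢ {a | a ≤ p.2}, feq z (evN S) (q, p.2) := by
  obtain ⟨q, hq, S, hS, _, h3⟩ := exists_decide_set z A hA p (sub_check h).1 (sub_check h).2
  exact ⟨q, hq, S, hS, h3⟩

end one

section two
variable {W I : Type} [LinearOrder W] [WellFoundedLT W] [LinearOrder I] [WellFoundedLT I]
  [Nonempty I] {L : I → Cardinal.{0}} {ell mu : W} {e : I → W} [hS2 : Setup2 W I L ell mu e]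
include hS2

variable (L ell mu e) in
lemma mul_le {A : Set W} (hA : #A ≤ lam L) : #(A × AA I) ≤ lam L := by
  rw [mk_prod, lift_id, lift_id]
  refine (mul_le_mul' hA (cardA' W L ell mu e).le).trans ?_
  rw [mul_eq_self (aleph0_le_lam W)]

variable (L ell mu e) in
lemma mul_lt {A : Set W} (hA : #A < lam L) : #(A × AA I) < lam L := by
  rw [mk_prod, lift_id, lift_id]
  exact mul_lt_of_lt (aleph0_le_lam W) hA (cardA' W L ell mu e)

variable (W L ell mu e) in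
/-- the forcing is `< μ`-closed -/
lemma closedPP : Closed #I (PP W I L) := by
  have h1 : Closed #I (RR W I L) := Closed.mono (Cond.closed (W := W) (I := I) (L := L)
    (T := Set (W × AA I))) ((cardI_lt W L ell mu e).le.trans (Order.le_succ _))
  exact h1.prod (Coll.closed hS2.regI)

/-- deciding fewer than `μ` values -/
lemma exists_dec1 (R : Fam.{1}) (l : List (Name (PP W I L))) (A : Set W)
    (hA : #A < #I) (p : PP W I L) : ∃ q ≤ p, ∀ x ∈ A, Dec R l x q := by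
  obtain ⟨q, hq, h⟩ := distrib (closedPP W L ell mu e) hA (fun t : A => {q | Dec R l t.1 q}) p
    (fun t q _ => exists_dec R l t.1 q) (fun t q h r hr => Dec.mono h hr)
  exact ⟨q, hq, fun x hx => h ⟨x, hx⟩⟩

/-- there are no new injections into sets of size less than `μ` -/
theorem no_inj1 (S B : Set W) (hB : #B < #I) (hc : #B < #S)
    (i : Name (PP W I L)) (p : PP W I L) :
    ¬ Frc RInj (ev omegaName [i, checkSet S, checkSet B]) p := by
  intro h
  obtain ⟨q, hq, hdec⟩ := exists_dec1 (ell := ell) (mu := mu) (e := e) RVal' [i] B hB p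
  refine no_inj_gen (K := Unit) S B (lt_of_le_of_lt ?_ hc) i q
    (fun _ => q) (fun _ => le_rfl) ?_ (h.mono hq)
  · exact mk_le_of_injective (f := fun t : B × Unit => t.1) (fun s t h => Prod.ext h rfl)
  · intro x hx r hr
    exact ⟨(), r, le_rfl, hr, (hdec x hx)⟩

end two

end Pool.Agent.FreeSetsG
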