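import Pool.Agent.Lib_MP_38e082_gen.Inst

/-!
# The existence theorem for a regular cardinal `μ`
-/

set_option linter.unusedSectionVars false

namespace Pool.Agent.FreeSetsG

open Cardinal Set Ordinal Pool.Agent.Inner Pool.Agent.FreeSets Pool.Agent.Forcing

theorem exists_model (μ : Cardinal.{0}) (hμ : μ.IsRegular) :
    ∃ (M : Type 1) (E : M → M → Prop), ModelsZFC E ∧ OmegaModel E ∧
      ∃ m l k f : M, SingularCof E m l ∧ (∀ n : ℕ, μ = ℵ_ n → IsAleph E n m) ∧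
        StrongLimit E l ∧ IsSuccCard E l k ∧ (∃ s, OntoPow E s k l) ∧
        Counterexample E m l k f := by
  haveI := ne_II hμ
  haveI := setup2 hμ
  obtain ⟨M, E, h1, h2, m, l, k, f, h3, h4, h5⟩ := exists_model_gen (LL μ) (ell0 μ) (el μ μ.ord)
    (fun i => el μ (tpi μ i)) (fun i => el μ (ℵ_ (i : Ordinal.{0})).ord)
    (fun n => el μ (n : Ordinal.{0}))
  refine ⟨M, E, h1, h2, m, l, k, f, h3, fun n hn => h4 n ?_, h5⟩
  have hle : ∀ i ≤ n, tp μ (el μ (ℵ_ (i : Ordinal.{0})).ord) = (ℵ_ (i : Ordinal.{0})).ord := by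
    intro i hi
    refine tp_el (ord_le_ord.2 (le_trans ?_ (mu_lt_ll hμ).le))
    rw [hn]
    exact aleph_le_aleph.2 (Nat.cast_le.2 hi)
  have hω : (ω : Ordinal.{0}) ≤ (ll μ).ord := by
    rw [← ord_aleph0]
    exact ord_le_ord.2 (aleph0_le_beth _)
  have hnat : ∀ n : ℕ, tp μ (el μ (n : Ordinal.{0})) = (n : Ordinal.{0}) := fun n =>
    tp_el ((natCast_lt_omega0 n).le.trans hω)
  refine ⟨?_, ?_, ?_, ?_, ?_, ?_⟩
  · change el μ (ℵ_ (n : Ordinal.{0})).ord = el μ μ.ord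
    rw [← hn]
  · intro i hi
    rw [← tp_lt, hle i hi.le, hle (i+1) hi]
    exact ord_lt_ord.2 (aleph_lt_aleph.2 (Nat.cast_lt.2 (Nat.lt_succ_self i)))
  · intro i hi a ha
    have h6 := tp_lt.2 ha
    rw [hle i hi, lt_ord, card_tp] at h6
    rw [← card_tp (el μ (ℵ_ (i : Ordinal.{0})).ord), hle i hi, card_ord]
    exact h6
  · intro i hi a ha
    have h6 := tp_lt.2 ha
    rw [hle (i+1) hi, lt_ord, card_tp] at h6
    change #(Iio a) ≤ #(Iio (el μ (ℵ_ (i : Ordinal.{0})).ord))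
    rw [← card_tp (el μ (ℵ_ (i : Ordinal.{0})).ord), hle i hi.le, card_ord]
    have h7 : ℵ_ ((i + 1 : ℕ) : Ordinal.{0}) = Order.succ (ℵ_ (i : Ordinal.{0})) := by
      rw [Nat.cast_succ, ← aleph_succ]
      rfl
    rw [h7] at h6
    exact Order.lt_succ_iff.1 h6
  · intro i j hij
    rw [← tp_lt, hnat, hnat]
    exact Nat.cast_lt.2 hij
  · have h8 : tp μ (el μ (ℵ_ ((0 : ℕ) : Ordinal.{0})).ord) = ω := by
      rw [hle 0 (Nat.zero_le n), Nat.cast_zero, aleph_zero, ord_aleph0]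
    ext x
    rw [mem_Iio, ← tp_lt, h8, lt_omega0]
    constructor
    · rintro ⟨n, rfl⟩
      exact ⟨n, hnat n⟩
    · rintro ⟨n, hn⟩
      exact ⟨n, tp_inj ((hnat n).trans hn.symm)⟩

end Pool.Agent.FreeSetsG
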