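import Pool.Agent.Lib_MP_38e082_gen.Hit
import Pool.Agent.Lib_MP_38e082_gen.Tri

/-!
# Free sets of the generic set mapping have size at most `μ`
-/

set_option linter.unusedSectionVars false

namespace Pool.Agent.FreeSetsG

open Pool.Agent.Forcing Pool.Agent.Forcing.Name Pool.Agent.Inner Set Pool.Agent.FreeSets Cardinal

/-- the property: `v 0` is a free subset of `v 1`, for the set mapping `v 2` -/
abbrev RFree : Fam.{1} := fun _ E v => Sub E (v 0) (v 1) ∧ IsFree E (v 2) (v 0)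

lemma fo_free : FO RFree := FO.and (FO.sub _ _) (FOx.isFree _ _)

/-- the property: there is an injection from `v 0` to `v 1` -/
abbrev REInj : Fam.{1} := fun _ E v => ∃ j, IsInj E j (v 0) (v 1)

lemma fo_einj : FO REInj := FO.ex (FOx.isInj 0 1 2)

section one
variable {W I : Type} [LinearOrder W] [WellFoundedLT W] [LinearOrder I] [WellFoundedLT I]
  [Nonempty I] {L : I → Cardinal.{0}} [hS : Setup W I L]
include hS

/-- free sets are free for the condition -/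
lemma free_cond {H : Name (PP W I L)} {p : PP W I L}
    (h : Frc RFree (ev omegaName [H, kapN W L, fN W L]) p) {x y : W} (hx : fmem (check x) H p)
    (hy : fmem (check y) H p) (hlt : x < y) (hyp : y < p.1.len) : ∃ j, p.1.H j x y := by
  by_contra hno
  push Not at hno
  obtain ⟨𝔊, hF, h0, hSN⟩ := exists_full
    ({H, kapN W L, fN W L, check x, check y, checkSet (down p.1 y)} : Set (Name (PP W I L)))
    (by simp) p
  subst h0
  have hHN : H ∈ 𝔊.N := hSN (by simp)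
  have hk : kapN W L ∈ 𝔊.N := hSN (by simp)
  have hf : fN W L ∈ 𝔊.N := hSN (by simp)
  have hxN : check x ∈ 𝔊.N := hSN (by simp)
  have hyN : check y ∈ 𝔊.N := hSN (by simp)
  have hDN : checkSet (down (𝔊.G 0).1 y) ∈ 𝔊.N := hSN (by simp)
  obtain ⟨_, t2⟩ := Frc.true_list fo_free 𝔊 [⟨H, hHN⟩, ⟨_, hk⟩, ⟨_, hf⟩]
    ⟨omegaName, hF.rich.omega_mem⟩ h
  have t2' : IsFree 𝔊.E (𝔊.cls ⟨_, hf⟩) (𝔊.cls ⟨H, hHN⟩) := t2
  have hne : 𝔊.cls ⟨check y, hyN⟩ ≠ 𝔊.cls ⟨check x, hxN⟩ := by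
    intro he
    exact hlt.ne ((rep_self hxN).check_inj (he ▸ rep_self hyN))
  refine t2' (𝔊.cls ⟨_, hyN⟩) (𝔊.cls ⟨_, hxN⟩) (𝔊.cls ⟨_, hDN⟩) ⟨0, hy⟩ ⟨0, hx⟩ hne
    ((val_genName stable_down hF hf).2 ⟨0, y, hyp, rep_self hyN, rep_self hDN⟩) ?_
  exact (E_checkSet hF.rich hDN).2 ⟨x, ⟨hlt, hno⟩, rep_self hxN⟩

/-! ### the minimal levels -/

/-- `i` is the least level at which the restriction of `a` decides that `x` is in the set -/
def IsMin1 (S : Set (W × AA I)) (a : AA I) (x : W) (i : I) : Prop :=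
  i ≤ a.len ∧ (x, a.res i) ∈ S ∧ ∀ i' < i, (x, a.res i') ∉ S

/-- `i'` is the least argument at which `a` has the code of `x` as value -/
def IsMin2 (R : AA I → W → Th I) (a : AA I) (x : W) (i i' : I) : Prop :=
  i' < a.len ∧ a.val i' = R (a.res i) x ∧ ∀ j < i', a.val j ≠ R (a.res i) x

omit hS in
lemma IsMin1.mono {S : Set (W × AA I)} {a b : AA I} (hb : b ≤ a) {x : W} {i : I}
    (h : IsMin1 S a x i) : IsMin1 S b x i := by
  obtain ⟨h1, h2, h3⟩ := h
  refine ⟨h1.trans hb.1, ?_, fun i' hi' => ?_⟩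
  · rw [Coll.res_eq hb h1]; exact h2
  · rw [Coll.res_eq hb (hi'.le.trans h1)]; exact h3 i' hi'

omit hS in
lemma IsMin1.unique {S : Set (W × AA I)} {a : AA I} {x : W} {i j : I}
    (h : IsMin1 S a x i) (h' : IsMin1 S a x j) : i = j := by
  rcases lt_trichotomy i j with h1 | h1 | h1
  · exact absurd h.2.1 (h'.2.2 i h1)
  · exact h1
  · exact absurd h'.2.1 (h.2.2 j h1)

omit hS in
lemma IsMin2.mono {R : AA I → W → Th I} {a b : AA I} (hb : b ≤ a) {x : W} {i i' : I}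
    (hi : i ≤ a.len) (h : IsMin2 R a x i i') : IsMin2 R b x i i' := by
  obtain ⟨h1, h2, h3⟩ := h
  refine ⟨h1.trans_le hb.1, ?_, fun j hj => ?_⟩
  · rw [Coll.res_eq hb hi, hb.2 i' h1]; exact h2
  · rw [Coll.res_eq hb hi, hb.2 j (hj.trans h1)]; exact h3 j hj

omit hS in
lemma IsMin2.unique {R : AA I → W → Th I} {a : AA I} {x : W} {i i' j' : I}
    (h : IsMin2 R a x i i') (h' : IsMin2 R a x i j') : i' = j' := by
  rcases lt_trichotomy i' j' with h1 | h1 | h1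
  · exact absurd h.2.1 (h'.2.2 i' h1)
  · exact h1
  · exact absurd h'.2.1 (h.2.2 j' h1)

/-- the index set of the name of the injection -/
abbrev Ind (S : Set (W × AA I)) (R : AA I → W → Th I) : Type :=
  Σ a : AA I, {t : W × I × I // IsMin1 S a t.1 t.2.1 ∧ IsMin2 R a t.1 t.2.1 t.2.2}

/-- the name of the injection -/
noncomputable def jN (S : Set (W × AA I)) (R : AA I → W → Th I) (g : I × I → W) :
    Name (PP W I L) :=
  Name.mk (Ind S R) (fun t => opairName (check t.2.1.1) (check (g (t.2.1.2.1, t.2.1.2.2))))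
    (fun t => (⊤, t.1))

lemma coherent_jN (𝔊 : Gen (PP W I L)) (S : Set (W × AA I)) (R : AA I → W → Th I)
    (g : I × I → W) : Coherent 𝔊 (fun t : Ind S R => check t.2.1.1)
      (fun t => check (g (t.2.1.2.1, t.2.1.2.2))) (fun t => (⊤, t.1)) := by
  rintro ⟨a, ⟨x, i, i'⟩, h1, h2⟩ ⟨b, ⟨y, j, j'⟩, h3, h4⟩ n h5 h6 h7
  have h8 : x = y := feq_check_iff.1 h7
  subst h8
  have h5' : (𝔊.G n).2 ≤ a := h5.2
  have h6' : (𝔊.G n).2 ≤ b := h6.2
  have e1 : i = j := (IsMin1.mono h5' h1).unique (IsMin1.mono h6' h3)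
  subst e1
  have e2 : i' = j' := (IsMin2.mono h5' h1.1 h2).unique (IsMin2.mono h6' h3.1 h4)
  subst e2
  exact feq_refl _ _

lemma val_jN {𝔊 : Gen (PP W I L)} (hF : Full 𝔊) {S : Set (W × AA I)} {R : AA I → W → Th I}
    {g : I × I → W} (h : jN S R g ∈ 𝔊.N) {u v : 𝔊.M} : Val 𝔊.E (𝔊.cls ⟨_, h⟩) u v ↔
      ∃ (a : AA I) (x : W) (i i' : I) (n : ℕ), IsMin1 S a x i ∧ IsMin2 R a x i i' ∧
        (𝔊.G n).2 ≤ a ∧ Rep 𝔊 u (check x) ∧ Rep 𝔊 v (check (g (i, i'))) := by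
  refine (val_mk hF.rich (A := fun t : Ind S R => check t.2.1.1)
    (B := fun t => check (g (t.2.1.2.1, t.2.1.2.2))) (c := fun t => (⊤, t.1)) h).trans ?_
  constructor
  · rintro ⟨⟨a, ⟨x, i, i'⟩, h1, h2⟩, n, h3, h4, h5⟩
    exact ⟨a, x, i, i', n, h1, h2, h3.2, h4, h5⟩
  · rintro ⟨a, x, i, i', n, h1, h2, h3, h4, h5⟩
    exact ⟨⟨a, ⟨x, i, i'⟩, h1, h2⟩, n, ⟨le_top, h3⟩, h4, h5⟩

end one

/-- the property: `v 0` is defined at `v 1` -/
abbrev RDef : Fam.{1} := fun _ E v => ∃ y, Val E (v 0) (v 1) y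

lemma fo_def : FO RDef := FO.ex (FO.val _ _ _)

section two
variable {W I : Type} [LinearOrder W] [WellFoundedLT W] [LinearOrder I] [WellFoundedLT I]
  [Nonempty I] {L : I → Cardinal.{0}} {ell mu : W} {e : I → W} [hS2 : Setup2 W I L ell mu e]
include hS2

variable (ell mu e) in
/-- free sets are bounded -/
lemma exists_bound {H : Name (PP W I L)} {p : PP W I L}
    (h : Frc RFree (ev omegaName [H, kapN W L, fN W L]) p) :
    ∃ q ≤ p.1, ∃ a : W, ∀ r ≤ (q, p.2), ∀ b : W, fmem (check b) H r → b < a := by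
  by_contra hcon
  push Not at hcon
  let Ξ : Type := (Order.succ #(AA I × Th I)).ord.ToType
  have hΞ : #Ξ = Order.succ #(AA I × Th I) := by simp [Ξ]
  have hΞlam : #Ξ ≤ lam L := by rw [hΞ]; exact Order.succ_le_of_lt hS2.cardA
  have hne : Nonempty W := nonempty_W L
  obtain ⟨q, hq, s, hs⟩ := chain_rec (Cond.closed (W := W) (I := I) (L := L)
    (T := Set (W × AA I))) (I := Ξ) (Order.lt_succ_iff.2 hΞlam) (T := W × AA I)
    (fun i s t r => fmem (check t.1) H (r, t.2) ∧ t.2 ≤ p.2 ∧ ∀ j hj, (s j hj).1 < t.1)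
    (fun i s t q r hr h => ⟨fmem_mono h.1 ⟨hr, le_rfl⟩, h.2⟩) p.1 (by
      intro i s q hq
      have hcard : #(range (fun j : Iio i => (s j.1 j.2).1)) ≤ lam L :=
        mk_range_le.trans ((mk_set_le _).trans hΞlam)
      obtain ⟨a, ha⟩ := hS2.reg _ hcard
      obtain ⟨r, hr, b, hb, hab⟩ := hcon q hq a
      exact ⟨r.1, hr.1, (b, r.2), hb, hr.2, fun j hj => (ha _ ⟨⟨j, hj⟩, rfl⟩).trans_le hab⟩)
  have hcard : #(range fun i => (s i).1) ≤ lam L := mk_range_le.trans hΞlam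
  obtain ⟨a, ha⟩ := hS2.reg _ hcard
  obtain ⟨r, hr, hlen⟩ := Cond.exists_len a q
  have hcode : ∀ b : AA I, ∃ R : W → Th I,
      InjOn R {x | ∃ i, (s i).1 = x ∧ (s i).2 = b} := by
    intro b
    refine exists_code r.H r.tri _ ?_
    rintro _ ⟨i, rfl, hi⟩ _ ⟨j, rfl, hj⟩ hlt
    have hle : (r, b) ≤ p := ⟨hr.trans hq, hi ▸ (hs i).2.1⟩
    refine free_cond (p := (r, b)) (h.mono hle) ?_ ?_ hlt ((ha _ ⟨j, rfl⟩).trans hlen)
    · rw [← hi]; exact fmem_mono (hs i).1 ⟨hr, le_rfl⟩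
    · rw [← hj]; exact fmem_mono (hs j).1 ⟨hr, le_rfl⟩
  choose R hR using hcode
  have hinj0 : ∀ i j, (s i).1 = (s j).1 → i = j := by
    intro i j hij
    rcases lt_trichotomy i j with h1 | h1 | h1
    · exact absurd hij ((hs j).2.2 i h1).ne
    · exact h1
    · exact absurd hij.symm ((hs i).2.2 j h1).ne
  have hinj : Function.Injective (fun i : Ξ => ((s i).2, R (s i).2 (s i).1)) := by
    intro i j hij
    rw [Prod.mk.injEq] at hij
    obtain ⟨h1, h2⟩ := hij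
    rw [h1] at h2
    exact hinj0 i j (hR (s j).2 ⟨i, rfl, h1⟩ ⟨j, rfl, rfl⟩ h2)
  have h1 := mk_le_of_injective hinj
  rw [hΞ] at h1
  exact absurd (Order.lt_succ #(AA I × Th I)) (not_lt.2 h1)

variable (ell mu e) in
/-- free sets are forced to have size at most `μ` -/
lemma frc_small {H : Name (PP W I L)} {p : PP W I L}
    (h : Frc RFree (ev omegaName [H, kapN W L, fN W L]) p) :
    ∃ q ≤ p, Frc REInj (ev omegaName [H, check mu]) q := by
  classical
  obtain ⟨q1, hq1, b, hb⟩ := exists_bound ell mu e h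
  have hsub : Frc RSub (ev omegaName [H, kapN W L]) p := by
    refine frc_full fo_sub _ _ {fN W L} (by simp) ?_
    intro 𝔊 hF h0 hSN hl
    have hHN := hl H (by simp)
    have hk := hl (kapN W L) (by simp)
    have hf : fN W L ∈ 𝔊.N := hSN (by simp)
    exact (Frc.true_list fo_free 𝔊 [⟨H, hHN⟩, ⟨_, hk⟩, ⟨_, hf⟩]
      ⟨omegaName, hF.rich.omega_mem⟩ (n := 0) (h.mono h0)).1
  have hle1 : (q1, p.2) ≤ p := ⟨hq1, le_rfl⟩
  obtain ⟨q2, hq2, S, hSb, hS, hfeq⟩ := exists_decide_set H (Iio b)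
    (mul_le L ell mu e (hS2.small b)) (q1, p.2) hb (hsub.mono hle1)
  obtain ⟨q3, hq3, hlen⟩ := Cond.exists_len b q2
  have hle3 : (q3, p.2) ≤ (q2, p.2) := ⟨hq3, le_rfl⟩
  have hle3p : (q3, p.2) ≤ p := ⟨hq3.trans (hq2.trans hq1), le_rfl⟩
  have hfeq3 : feq H (evN S) (q3, p.2) := feq_mono hfeq hle3
  -- the codes
  have hcode : ∀ a : AA I, ∃ R : W → Th I, InjOn R {x | (x, a) ∈ S} := by
    intro a
    refine exists_code q3.H q3.tri _ ?_
    intro x hx y hy hlt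
    have hle : (q3, a) ≤ p := ⟨hle3p.1, (hSb hx).2⟩
    refine free_cond (p := (q3, a)) (h.mono hle) ?_ ?_ hlt ((hSb hy).1.trans hlen)
    · exact fmem_mono (hS x a hx) ⟨hq3, le_rfl⟩
    · exact fmem_mono (hS y a hy) ⟨hq3, le_rfl⟩
  choose R hR using hcode
  -- the pairing
  obtain ⟨pr, hpr⟩ : ∃ pr : I × I → I, Function.Injective pr := by
    have h1 : #(I × I) ≤ #I := by
      simp only [mk_prod, lift_id]
      exact (mul_eq_self hS2.infI).le
    obtain ⟨φ⟩ := h1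
    exact ⟨φ, φ.injective⟩
  let g : I × I → W := fun t => e (pr t)
  have hg : Function.Injective g := hS2.emb.injective.comp hpr
  have hgmu : ∀ t, g t < mu := fun t => by
    have : e (pr t) ∈ Iio mu := by rw [← hS2.range_emb]; exact mem_range_self _
    exact this
  refine ⟨(q3, p.2), hle3p, frc_full fo_einj _ _ {evN S, jN S R g} (by simp) ?_⟩
  intro 𝔊 hF h0 hSN hl
  have hHN := hl H (by simp)
  have hmN := hl (check mu) (by simp)
  have hSN' : evN S ∈ 𝔊.N := hSN (by simp)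
  have hjN : jN S R g ∈ 𝔊.N := hSN (by simp)
  have hcls : 𝔊.cls ⟨H, hHN⟩ = 𝔊.cls ⟨_, hSN'⟩ := (𝔊.cls_eq).2 ⟨0, feq_mono hfeq3 h0⟩
  change ∃ j, IsInj 𝔊.E j (𝔊.cls ⟨H, hHN⟩) (𝔊.cls ⟨check mu, hmN⟩)
  rw [hcls]
  refine ⟨𝔊.cls ⟨_, hjN⟩, ⟨?_, ?_⟩, ?_⟩
  · intro z hz
    obtain ⟨u, v, h1, h2⟩ := isPair_of_mem_mk hF.rich (A := fun t : Ind S R => check t.2.1.1)
      (B := fun t => check (g (t.2.1.2.1, t.2.1.2.2))) (c := fun t => (⊤, t.1)) hjN hz
    obtain ⟨a, x, i, i', n, h3, h4, h5, h6, h7⟩ := (val_jN hF hjN).1 h2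
    refine ⟨u, v, ?_, (E_rep_check hF.decC (rep_self hmN)).2 ⟨_, hgmu _, h7⟩, h1⟩
    exact (E_evN hF.rich hSN').2 ⟨x, a.res i, n, h3.2.1, h5.trans (Coll.le_res a i), h6⟩
  · intro u hu
    obtain ⟨x, a, n, h1, h2, h3⟩ := (E_evN hF.rich hSN').1 hu
    obtain ⟨u', rfl⟩ := 𝔊.exists_rep u
    obtain ⟨m, hm⟩ := rep_cls_iff.1 h3
    have h4 : Frc RDef (ev omegaName [jN S R g, u'.1]) (𝔊.G (max n m)) := by
      refine Frc.dense fo_def fun r hr => ?_
      have hra : r.2 ≤ a := (hr.trans (𝔊.anti (le_max_left n m))).2.trans h2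
      -- the first level
      let Q1 : Set I := {i | i ≤ r.2.len ∧ (x, r.2.res i) ∈ S}
      have hQ1 : Q1.Nonempty := ⟨a.len, hra.1, by
        rw [Coll.res_eq hra le_rfl, Coll.res_self]; exact h1⟩
      let i := wellFounded_lt.min Q1 hQ1
      have hi : i ∈ Q1 := wellFounded_lt.min_mem Q1 hQ1
      have hmin1 : IsMin1 S r.2 x i := ⟨hi.1, hi.2, fun i' hi' h =>
        wellFounded_lt.not_lt_min Q1 ⟨hi'.le.trans hi.1, h⟩ hi'⟩
      obtain ⟨c, hc, j, hj, hjv⟩ := Coll.exists_val hS2.nomax r.2 (R (r.2.res i) x)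
      have hres : c.res i = r.2.res i := Coll.res_eq hc hi.1
      let Q2 : Set I := {j | c.val j = R (c.res i) x}
      have hQ2 : Q2.Nonempty := ⟨j, by
        change c.val j = R (c.res i) x
        rw [hres]; exact hjv⟩
      let i' := wellFounded_lt.min Q2 hQ2
      have hi' : i' ∈ Q2 := wellFounded_lt.min_mem Q2 hQ2
      have hi'j : i' ≤ j := by
        by_contra hlt
        exact wellFounded_lt.not_lt_min Q2 (show j ∈ Q2 by
          change c.val j = R (c.res i) x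
          rw [hres]; exact hjv) (not_le.1 hlt)
      have hmin2 : IsMin2 R c x i i' := ⟨hi'j.trans_lt hj, hi', fun j' hj' h =>
        wellFounded_lt.not_lt_min Q2 h hj'⟩
      have hmin1' : IsMin1 S c x i := hmin1.mono hc
      refine ⟨(r.1, c), ⟨le_rfl, hc⟩, frc_full fo_def _ _ ∅ countable_empty ?_⟩
      intro 𝔊' hF' h0' _ hl'
      have hjN' := hl' (jN S R g) (by simp)
      have huN' := hl' u'.1 (by simp)
      have hur : Rep 𝔊' (𝔊'.cls ⟨u'.1, huN'⟩) (check x) := by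
        refine rep_cls_iff.2 ⟨0, feq_mono hm ?_⟩
        have hle : (r.1, c) ≤ r := ⟨le_rfl, hc⟩
        exact h0'.trans (hle.trans (hr.trans (𝔊.anti (le_max_right n m))))
      obtain ⟨v, _, hv⟩ := exists_val hF' (A := fun t : Ind S R => check t.2.1.1)
        (B := fun t => check (g (t.2.1.2.1, t.2.1.2.2))) (c := fun t => (⊤, t.1)) hjN'
        (coherent_jN 𝔊' S R g) (i := ⟨c, ⟨x, i, i'⟩, hmin1', hmin2⟩) (n := 0)
        ⟨le_top, h0'.2⟩ hur
      exact ⟨v, hv⟩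
    obtain ⟨v, hv⟩ := Frc.true_list fo_def 𝔊 [⟨_, hjN⟩, u'] ⟨omegaName, hF.rich.omega_mem⟩ h4
    exact ⟨v, hv, fun v' hv' => val_unique hF (A := fun t : Ind S R => check t.2.1.1)
      (B := fun t => check (g (t.2.1.2.1, t.2.1.2.2))) (c := fun t => (⊤, t.1)) hjN
      (coherent_jN 𝔊 S R g) hv' hv⟩
  · intro u u' v h1 h2
    obtain ⟨a, x, i, i', n, h3, h4, h5, h6, h7⟩ := (val_jN hF hjN).1 h1
    obtain ⟨a2, x2, j, j', n2, k3, k4, k5, k6, k7⟩ := (val_jN hF hjN).1 h2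
    have h8 := hg (h7.check_inj k7)
    rw [Prod.mk.injEq] at h8
    obtain ⟨h9, h10⟩ := h8
    subst h9
    subst h10
    have l1 : (𝔊.G (max n n2)).2 ≤ a := (𝔊.anti (le_max_left n n2)).2.trans h5
    have l2 : (𝔊.G (max n n2)).2 ≤ a2 := (𝔊.anti (le_max_right n n2)).2.trans k5
    have m1 := h3.mono l1
    have m2 := k3.mono l2
    have m3 := h4.mono l1 h3.1
    have m4 := k4.mono l2 k3.1
    have h11 : R ((𝔊.G (max n n2)).2.res i) x = R ((𝔊.G (max n n2)).2.res i) x2 := by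
      rw [← m3.2.1, ← m4.2.1]
    have h12 : x = x2 := hR _ m1.2.1 m2.2.1 h11
    subst h12
    exact h6.unique k6

end two

end Pool.Agent.FreeSetsG
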