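import Pool.Agent.Lib_MP_38e082_lc.Check
import Pool.Agent.Lib_MP_38e082_lc.Voc
import Pool.Agent.Lib_MP_38e082_gen.Coll

/-!
# Generic models that decide canonical names
-/

set_option linter.unusedSectionVars false

namespace Pool.Agent.FreeSetsG

open Pool.Agent.Forcing Pool.Agent.Forcing.Name Pool.Agent.Inner Set Pool.Agent.FreeSets Cardinal

/-! ### definability -/

namespace FOx

lemma isInj (i j k : ℕ) : FO.{1} (fun _ E v => IsInj E (v i) (v j) (v k)) :=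
  FO.and (FO.isFun _ _ _) (FO.all (FO.all (FO.all (FO.imp (FO.val _ _ _)
    (FO.imp (FO.val _ _ _) (FO.eq _ _))))))

lemma isFree (i j : ℕ) : FO.{1} (fun _ E v => IsFree E (v i) (v j)) :=
  FO.all (FO.all (FO.all (FO.imp (FO.mem _ _) (FO.imp (FO.mem _ _)
    (FO.imp (FO.not (FO.eq _ _)) (FO.imp (FO.val _ _ _) (FO.not (FO.mem _ _))))))))

lemma isInter (i j k l : ℕ) : FO.{1} (fun _ E v => IsInter E (v i) (v j) (v k) (v l)) :=
  FO.all (FO.iff (FO.mem _ _) (FO.and (FO.mem _ _) (FO.all (FO.all (FO.imp (FO.mem _ _)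
    (FO.imp (FO.val _ _ _) (FO.mem _ _)))))))

end FOx

/-- the property: `v 2` maps `v 0` to `v 1` -/
abbrev RVal : Fam.{1} := fun _ E v => Val E (v 2) (v 0) (v 1)
/-- the property: `v 2` maps `v 1` to `v 0` -/
abbrev RVal' : Fam.{1} := fun _ E v => Val E (v 2) (v 1) (v 0)
/-- the property: `v 0` is an injection from `v 1` to `v 2` -/
abbrev RInj : Fam.{1} := fun _ E v => IsInj E (v 0) (v 1) (v 2)
/-- the property: `v 0` is a subset of `v 1` -/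
abbrev RSub : Fam.{1} := fun _ E v => Sub E (v 0) (v 1)

lemma fo_val : FO RVal := FO.val _ _ _
lemma fo_val' : FO RVal' := FO.val _ _ _
lemma fo_inj : FO RInj := FOx.isInj _ _ _
lemma fo_sub : FO RSub := FO.sub _ _

lemma feq_ev {P : Type} [Preorder P] [OrderTop P] {l l' : List (Name P)}
    {p : P} (h : List.Forall₂ (fun x y => feq x y p) l l') (i : ℕ) :
    feq (ev omegaName l i) (ev omegaName l' i) p := by
  induction h generalizing i with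
  | nil => exact feq_refl _ _
  | cons h1 _ ih =>
    cases i with
    | zero => exact h1
    | succ i => exact ih i

/-- replacing names in a list -/
lemma frc_congr_list {P : Type} [Preorder P] [OrderTop P] {R : Fam.{1}} {l l' : List (Name P)}
    {p : P} (h : List.Forall₂ (fun x y => feq x y p) l l') (hf : Frc R (ev omegaName l) p) :
    Frc R (ev omegaName l') p := Frc.congr_names (feq_ev h) hf

lemma isFun_mem {M : Type*} {E : M → M → Prop} (hE : ModelsZFC E) {f a b x y : M}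
    (hf : IsFun E f a b) (h : Val E f x y) : E x a ∧ E y b := by
  obtain ⟨z, hz1, hz2⟩ := h
  obtain ⟨x', y', hx', hy', hp⟩ := hf.1 z hz2
  rw [isPair_iff hE] at hz1 hp
  rw [hz1, pair_inj hE] at hp
  rw [hp.1, hp.2]; exact ⟨hx', hy'⟩

lemma isInj_mono {M : Type*} {E : M → M → Prop} {i a b c : M} (h : IsInj E i a b)
    (hbc : Sub E b c) : IsInj E i a c := by
  refine ⟨⟨fun z hz => ?_, h.1.2⟩, h.2⟩
  obtain ⟨x, y, hx, hy, hxy⟩ := h.1.1 z hz
  exact ⟨x, y, hx, hbc y hy, hxy⟩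

section
variable {W I : Type} [LinearOrder W] [WellFoundedLT W] [LinearOrder I] [WellFoundedLT I]
  [Nonempty I] {L : I → Cardinal.{0}} [hS : Setup W I L]
include hS

/-- rich generic models that decide, for each of their names, whether it names an element of `W`;
and if so, are longer than this element -/
structure Full (𝔊 : Gen (PP W I L)) : Prop where
  rich : Rich 𝔊
  dec : ∀ z ∈ 𝔊.N, ∃ n, (∃ a : W, feq z (check a) (𝔊.G n) ∧ a < (𝔊.G n).1.len) ∨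
    ∀ a : W, ∀ r ≤ 𝔊.G n, ¬ feq z (check a) r

lemma Full.decC {𝔊 : Gen (PP W I L)} (h : Full 𝔊) : DecC W 𝔊 := by
  intro z hz
  obtain ⟨n, ⟨a, ha, _⟩ | h1⟩ := h.dec z hz
  · exact ⟨n, Or.inl ⟨a, ha⟩⟩
  · exact ⟨n, Or.inr h1⟩

lemma Full.len {𝔊 : Gen (PP W I L)} (h : Full 𝔊) {z : 𝔊.M} {a : W} (hz : Rep 𝔊 z (check a)) :
    ∃ n, a < (𝔊.G n).1.len := by
  obtain ⟨z', rfl, m, hm⟩ := hz
  obtain ⟨n, ⟨b, hb, hlt⟩ | h1⟩ := h.dec z'.1 z'.2
  · have h2 : feq (check a : Name (PP W I L)) (check b) (𝔊.G (max n m)) :=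
      feq_trans (feq_symm (feq_mono hm (𝔊.anti (le_max_right _ _))))
        (feq_mono hb (𝔊.anti (le_max_left _ _)))
    rw [feq_check_iff] at h2
    rw [h2]
    exact ⟨n, hlt⟩
  · exact absurd (feq_mono hm (𝔊.anti (le_max_right n m))) (h1 a _ (𝔊.anti (le_max_left _ _)))

theorem exists_full (S : Set (Name (PP W I L))) (hS' : S.Countable) (p : PP W I L) :
    ∃ 𝔊 : Gen (PP W I L), Full 𝔊 ∧ 𝔊.G 0 = p ∧ S ⊆ 𝔊.N := by
  obtain ⟨𝔊, h1, h2, h3, _, h5⟩ := exists_rich (ι := Empty) (κ := Unit) S hS' (fun k => k.elim)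
    (fun _ l => {q : PP W I L | (∃ a : W, feq (l.getD 0 omegaName) (check a) q ∧
        a < q.1.len) ∨
      ∀ a : W, ∀ r ≤ q, ¬ feq (l.getD 0 omegaName) (check a) r}) (by
      intro _ l p
      by_cases h : ∃ a : W, ∃ r ≤ p, feq (l.getD 0 omegaName) (check a) r
      · obtain ⟨a, r, hr, h⟩ := h
        obtain ⟨q, hq, h2⟩ := Cond.exists_len a r.1
        have hq' : (q, r.2) ≤ r := ⟨hq, le_rfl⟩
        exact ⟨(q, r.2), hq'.trans hr, Or.inl ⟨a, feq_mono h hq', h2⟩⟩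
      · push Not at h
        exact ⟨p, le_rfl, Or.inr h⟩) p
  refine ⟨𝔊, ⟨h1, fun z hz => ?_⟩, h2, h3⟩
  exact h5 () [z] (by simpa using hz)

/-- to force a first-order property it is enough that it holds in all full generic models -/
theorem frc_full {R : Fam.{1}} (hR : FO R) (l : List (Name (PP W I L))) (p : PP W I L)
    (S : Set (Name (PP W I L))) (hS' : S.Countable)
    (h : ∀ (𝔊 : Gen (PP W I L)) (hF : Full 𝔊), 𝔊.G 0 ≤ p → S ⊆ 𝔊.N →
      ∀ (hl : ∀ x ∈ l, x ∈ 𝔊.N),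
        R 𝔊.M 𝔊.E (ev hF.rich.om (l.attach.map fun x => 𝔊.cls ⟨x.1, hl x.1 x.2⟩))) :
    Frc R (ev omegaName l) p := by
  refine Frc.dense hR fun q hq => ?_
  obtain ⟨𝔊, hF, h0, hSN⟩ := exists_full (S ∪ {x | x ∈ l})
    (hS'.union (List.finite_toSet l).countable) q
  have hl : ∀ x ∈ l, x ∈ 𝔊.N := fun x hx => hSN (Or.inr hx)
  have h5 := h 𝔊 hF (by rw [h0]; exact hq) (fun x hx => hSN (Or.inl hx)) hl
  let l' : List 𝔊.N := l.attach.map fun x => ⟨x.1, hl x.1 x.2⟩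
  have e4 : (l.attach.map fun x => 𝔊.cls ⟨x.1, hl x.1 x.2⟩) = l'.map 𝔊.cls := by
    simp only [l', List.map_map]; rfl
  have e5 : l'.map Subtype.val = l := by
    simp only [l', List.map_map]
    exact List.attach_map_subtype_val l
  rw [e4] at h5
  have h6 := (truth_list hR 𝔊 l' ⟨omegaName, hF.rich.omega_mem⟩).1 h5
  obtain ⟨n, hn⟩ := h6
  rw [e5] at hn
  exact ⟨𝔊.G n, by rw [← h0]; exact 𝔊.anti (Nat.zero_le n), hn⟩

/-! ### existence of values -/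

/-- a name listing pairs as a function: uniqueness of values -/
def Coherent (𝔊 : Gen (PP W I L)) {ι : Type} (A B : ι → Name (PP W I L)) (c : ι → PP W I L) :
    Prop :=
  ∀ i i' n, 𝔊.G n ≤ c i → 𝔊.G n ≤ c i' → feq (A i) (A i') (𝔊.G n) → feq (B i) (B i') (𝔊.G n)

lemma val_unique {𝔊 : Gen (PP W I L)} (hF : Full 𝔊) {ι : Type} {A B : ι → Name (PP W I L)}
    {c : ι → PP W I L} (h : Name.mk ι (fun i => opairName (A i) (B i)) c ∈ 𝔊.N)
    (hc : Coherent 𝔊 A B c) {u v v' : 𝔊.M} (h1 : Val 𝔊.E (𝔊.cls ⟨_, h⟩) u v)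
    (h2 : Val 𝔊.E (𝔊.cls ⟨_, h⟩) u v') : v = v' := by
  obtain ⟨i, n, hi, hu, hv⟩ := (val_mk hF.rich h).1 h1
  obtain ⟨i', n', hi', hu', hv'⟩ := (val_mk hF.rich h).1 h2
  obtain ⟨m, hm⟩ := hu.feq hu'
  have h3 := hc i i' (max m (max n n')) ((𝔊.anti (by omega)).trans hi)
    ((𝔊.anti (by omega)).trans hi') (feq_mono hm (𝔊.anti (le_max_left _ _)))
  exact (hv.congr h3).unique hv'

lemma exists_val {𝔊 : Gen (PP W I L)} (hF : Full 𝔊) {ι : Type} {A B : ι → Name (PP W I L)}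
    {c : ι → PP W I L} (h : Name.mk ι (fun i => opairName (A i) (B i)) c ∈ 𝔊.N)
    (hc : Coherent 𝔊 A B c) {u : 𝔊.M} {i : ι} {n : ℕ} (hn : 𝔊.G n ≤ c i)
    (hu : Rep 𝔊 u (A i)) : ∃ v, Rep 𝔊 v (B i) ∧ Val 𝔊.E (𝔊.cls ⟨_, h⟩) u v := by
  obtain ⟨u', rfl⟩ := 𝔊.exists_rep u
  obtain ⟨m, hm⟩ := rep_cls_iff.1 hu
  have hfo : FO.{1} (fun _ E v => ∃ y, Val E (v 0) (v 1) y) := FO.ex (FO.val _ _ _)
  have h1 : Frc (fun _ E v => ∃ y, Val E (v 0) (v 1) y)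
      (ev omegaName [Name.mk ι (fun i => opairName (A i) (B i)) c, u'.1]) (𝔊.G (max n m)) := by
    refine frc_full hfo _ _ {B i} (by simp) ?_
    intro 𝔊' hF' h0 hSN hl
    have hfN := hl (Name.mk ι (fun i => opairName (A i) (B i)) c) (by simp)
    have huN := hl u'.1 (by simp)
    have hB : B i ∈ 𝔊'.N := hSN (by simp)
    refine ⟨𝔊'.cls ⟨B i, hB⟩, ?_⟩
    change Val 𝔊'.E (𝔊'.cls ⟨_, hfN⟩) (𝔊'.cls ⟨u'.1, huN⟩) _
    rw [val_mk hF'.rich hfN]
    exact ⟨i, 0, (h0.trans (𝔊.anti (le_max_left _ _))).trans hn,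
      rep_cls_iff.2 ⟨0, feq_mono hm (h0.trans (𝔊.anti (le_max_right _ _)))⟩, rep_self hB⟩
  obtain ⟨v, hv⟩ := Frc.true_list hfo 𝔊 [⟨_, h⟩, u'] ⟨omegaName, hF.rich.omega_mem⟩ h1
  have hv' : Val 𝔊.E (𝔊.cls ⟨_, h⟩) (𝔊.cls u') v := hv
  obtain ⟨i', n', hi', hu', hvr⟩ := (val_mk hF.rich h).1 hv'
  obtain ⟨k, hk⟩ := hu'.feq hu
  have h3 := hc i' i (max k (max n n')) ((𝔊.anti (by omega)).trans hi')
    ((𝔊.anti (by omega)).trans hn) (feq_mono hk (𝔊.anti (le_max_left _ _)))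
  exact ⟨v, hvr.congr h3, hv'⟩

/-- canonical name of a function with domain `A ⊆ W`, given by names of the values -/
noncomputable def funName (A : Set W) (g : W → Name (PP W I L)) : Name (PP W I L) :=
  Name.mk A (fun x => opairName (check x.1) (g x.1)) (fun _ => ⊤)

lemma coherent_funName (𝔊 : Gen (PP W I L)) (A : Set W) (g : W → Name (PP W I L)) :
    Coherent 𝔊 (fun x : A => check x.1) (fun x : A => g x.1) (fun _ => ⊤) := by
  intro i i' n _ _ h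
  rw [feq_check_iff] at h
  have h2 : i = i' := Subtype.ext h
  subst h2
  exact feq_refl _ _

lemma val_funName {𝔊 : Gen (PP W I L)} (hF : Full 𝔊) {A : Set W} {g : W → Name (PP W I L)}
    (h : funName A g ∈ 𝔊.N) {u v : 𝔊.M} :
    Val 𝔊.E (𝔊.cls ⟨_, h⟩) u v ↔ ∃ x ∈ A, Rep 𝔊 u (check x) ∧ Rep 𝔊 v (g x) := by
  have := val_mk hF.rich (A := fun x : A => check x.1) (B := fun x : A => g x.1)
    (c := fun _ => ⊤) h (u := u) (v := v)
  refine this.trans ?_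
  constructor
  · rintro ⟨x, n, _, h1, h2⟩
    exact ⟨x.1, x.2, h1, h2⟩
  · rintro ⟨x, hx, h1, h2⟩
    exact ⟨⟨x, hx⟩, 0, le_top, h1, h2⟩

lemma exists_val_funName {𝔊 : Gen (PP W I L)} (hF : Full 𝔊) {A : Set W}
    {g : W → Name (PP W I L)} (h : funName A g ∈ 𝔊.N) {u : 𝔊.M} {x : W} (hx : x ∈ A)
    (hu : Rep 𝔊 u (check x)) : ∃ v, Rep 𝔊 v (g x) ∧ Val 𝔊.E (𝔊.cls ⟨_, h⟩) u v :=
  exists_val hF (A := fun x : A => check x.1) (B := fun x : A => g x.1) (c := fun _ => ⊤) h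
    (coherent_funName 𝔊 A g) (i := ⟨x, hx⟩) (n := 0) le_top hu

lemma val_funName_unique {𝔊 : Gen (PP W I L)} (hF : Full 𝔊) {A : Set W}
    {g : W → Name (PP W I L)} (h : funName A g ∈ 𝔊.N) {u v v' : 𝔊.M}
    (h1 : Val 𝔊.E (𝔊.cls ⟨_, h⟩) u v) (h2 : Val 𝔊.E (𝔊.cls ⟨_, h⟩) u v') : v = v' :=
  val_unique hF (A := fun x : A => check x.1) (B := fun x : A => g x.1) (c := fun _ => ⊤) h
    (coherent_funName 𝔊 A g) h1 h2

/-- functions between subsets of `W` give functions in the model -/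
lemma isFun_funName {𝔊 : Gen (PP W I L)} (hF : Full 𝔊) {A B : Set W} {g : W → W}
    (hg : ∀ x ∈ A, g x ∈ B) (h : funName A (fun x => check (g x)) ∈ 𝔊.N)
    (hA : checkSet A ∈ 𝔊.N) (hB : checkSet B ∈ 𝔊.N) :
    IsFun 𝔊.E (𝔊.cls ⟨_, h⟩) (𝔊.cls ⟨_, hA⟩) (𝔊.cls ⟨_, hB⟩) := by
  refine ⟨?_, ?_⟩
  · intro z hz
    obtain ⟨u, v, h1, h2⟩ := isPair_of_mem_mk hF.rich (A := fun x : A => check x.1)
      (B := fun x : A => check (g x.1)) (c := fun _ => ⊤) h hz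
    obtain ⟨x, hx, hu, hv⟩ := (val_funName hF h).1 h2
    exact ⟨u, v, (E_checkSet hF.rich hA).2 ⟨x, hx, hu⟩,
      (E_checkSet hF.rich hB).2 ⟨g x, hg x hx, hv⟩, h1⟩
  · intro u hu
    obtain ⟨x, hx, hu'⟩ := (E_checkSet hF.rich hA).1 hu
    obtain ⟨v, _, hv⟩ := exists_val_funName hF h hx hu'
    exact ⟨v, hv, fun v' hv' => val_funName_unique hF h hv' hv⟩

/-- injections between subsets of `W` give injections in the model -/
lemma isInj_funName {𝔊 : Gen (PP W I L)} (hF : Full 𝔊) {A B : Set W} {g : W → W}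
    (hg : ∀ x ∈ A, g x ∈ B) (hinj : InjOn g A) (h : funName A (fun x => check (g x)) ∈ 𝔊.N)
    (hA : checkSet A ∈ 𝔊.N) (hB : checkSet B ∈ 𝔊.N) :
    IsInj 𝔊.E (𝔊.cls ⟨_, h⟩) (𝔊.cls ⟨_, hA⟩) (𝔊.cls ⟨_, hB⟩) := by
  refine ⟨isFun_funName hF hg h hA hB, ?_⟩
  intro u u' v h1 h2
  obtain ⟨x, hx, hu, hv⟩ := (val_funName hF h).1 h1
  obtain ⟨x', hx', hu', hv'⟩ := (val_funName hF h).1 h2
  have e : x = x' := hinj hx hx' (hv.check_inj hv')
  subst e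
  exact hu.unique hu'

/-- injections between subsets of `W` are injections in the model, for arbitrary names of the
domain -/
lemma exists_inj_of_rep {𝔊 : Gen (PP W I L)} (hF : Full 𝔊) {A B : Set W} {g : W → W}
    (hg : ∀ x ∈ A, g x ∈ B) (hinj : InjOn g A) {a b : 𝔊.M} (ha : Rep 𝔊 a (checkSet A))
    (hb : Rep 𝔊 b (checkSet B)) : ∃ i, IsInj 𝔊.E i a b := by
  obtain ⟨a', rfl, n, hn⟩ := ha
  obtain ⟨b', rfl, m, hm⟩ := hb
  have hfo : FO.{1} (fun _ E v => ∃ i, IsInj E i (v 0) (v 1)) := FO.ex (FOx.isInj 0 1 2)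
  have h1 : Frc (fun _ E v => ∃ i, IsInj E i (v 0) (v 1)) (ev omegaName [a'.1, b'.1])
      (𝔊.G (max n m)) := by
    refine frc_full hfo _ _ {checkSet A, checkSet B, funName A (fun x => check (g x))}
      (by simp) ?_
    intro 𝔊' hF' h0 hSN hl
    have ha := hl a'.1 (by simp)
    have hb := hl b'.1 (by simp)
    have hA : checkSet A ∈ 𝔊'.N := hSN (by simp)
    have hB : checkSet B ∈ 𝔊'.N := hSN (by simp)
    have hf : funName A (fun x => check (g x)) ∈ 𝔊'.N := hSN (by simp)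
    have e1 : 𝔊'.cls ⟨a'.1, ha⟩ = 𝔊'.cls ⟨_, hA⟩ :=
      (𝔊'.cls_eq).2 ⟨0, feq_mono hn (h0.trans (𝔊.anti (le_max_left _ _)))⟩
    have e2 : 𝔊'.cls ⟨b'.1, hb⟩ = 𝔊'.cls ⟨_, hB⟩ :=
      (𝔊'.cls_eq).2 ⟨0, feq_mono hm (h0.trans (𝔊.anti (le_max_right _ _)))⟩
    refine ⟨𝔊'.cls ⟨_, hf⟩, ?_⟩
    change IsInj 𝔊'.E _ (𝔊'.cls ⟨a'.1, ha⟩) (𝔊'.cls ⟨b'.1, hb⟩)
    rw [e1, e2]
    exact isInj_funName hF' hg hinj hf hA hB
  exact Frc.true_list hfo 𝔊 [a', b'] ⟨omegaName, hF.rich.omega_mem⟩ h1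

variable (W L) in
/-- the canonical name of `κ` -/
noncomputable abbrev kapN : Name (PP W I L) := checkSet (univ : Set W)

/-! ### names of sets that depend on the collapse only -/

/-- the name with the elements `check x` under the condition `(⊤, a)`, for `(x, a) ∈ S` -/
noncomputable def evN (S : Set (W × AA I)) : Name (PP W I L) :=
  Name.mk S (fun t => check t.1.1) (fun t => (⊤, t.1.2))

lemma E_evN {𝔊 : Gen (PP W I L)} (hR : Rich 𝔊) {S : Set (W × AA I)}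
    (h : (evN S : Name (PP W I L)) ∈ 𝔊.N) {z : 𝔊.M} :
    𝔊.E z (𝔊.cls ⟨evN S, h⟩) ↔ ∃ x a n, (x, a) ∈ S ∧ (𝔊.G n).2 ≤ a ∧ Rep 𝔊 z (check x) := by
  rw [E_iff hR h]
  constructor
  · rintro ⟨j, n, h1, h2⟩
    exact ⟨j.1.1, j.1.2, n, j.2, h1.2, h2⟩
  · rintro ⟨x, a, n, h1, h2, h3⟩
    exact ⟨⟨(x, a), h1⟩, n, ⟨le_top, h2⟩, h3⟩

end

end Pool.Agent.FreeSetsG
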