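import Pool.Agent.Lib_MP_38e082_gen.Map

/-!
# Intersections of `κ` many values have size less than `λ`
-/

set_option linter.unusedSectionVars false

namespace Pool.Agent.FreeSetsG

open Pool.Agent.Forcing Pool.Agent.Forcing.Name Pool.Agent.Inner Set Pool.Agent.FreeSets Cardinal

/-- the property violated by the generic set mapping -/
abbrev RBad : Fam.{1} := fun _ E v => Sub E (v 0) (v 4) ∧ IsInj E (v 1) (v 4) (v 0) ∧
  IsInter E (v 5) (v 4) (v 0) (v 2) ∧ IsInj E (v 3) (v 6) (v 2)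

lemma fo_bad : FO RBad :=
  FO.and (FO.sub _ _) (FO.and (FOx.isInj _ _ _) (FO.and (FOx.isInter _ _ _ _) (FOx.isInj _ _ _)))

section one
variable {W I : Type} [LinearOrder W] [WellFoundedLT W] [LinearOrder I] [WellFoundedLT I]
  [Nonempty I] {L : I → Cardinal.{0}} {ell : W} [hS : Setup W I L]
include hS

/-- the list of the names -/
noncomputable abbrev badL (ell : W) (X i J c : Name (PP W I L)) : List (Name (PP W I L)) :=
  [X, i, J, c, kapN W L, fN W L, check ell]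

lemma bad_true {X i J c : Name (PP W I L)} {p : PP W I L}
    (hbad : Frc RBad (ev omegaName (badL ell X i J c)) p) {𝔊 : Gen (PP W I L)} (hF : Full 𝔊)
    (h0 : 𝔊.G 0 ≤ p) (hN : ∀ z ∈ badL ell X i J c, z ∈ 𝔊.N) :
    Sub 𝔊.E (𝔊.cls ⟨X, hN X (by simp)⟩) (𝔊.cls ⟨kapN W L, hN (kapN W L) (by simp)⟩) ∧
    IsInj 𝔊.E (𝔊.cls ⟨i, hN i (by simp)⟩) (𝔊.cls ⟨kapN W L, hN (kapN W L) (by simp)⟩)
      (𝔊.cls ⟨X, hN X (by simp)⟩) ∧
    IsInter 𝔊.E (𝔊.cls ⟨fN W L, hN (fN W L) (by simp)⟩)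
      (𝔊.cls ⟨kapN W L, hN (kapN W L) (by simp)⟩)
      (𝔊.cls ⟨X, hN X (by simp)⟩) (𝔊.cls ⟨J, hN J (by simp)⟩) ∧
    IsInj 𝔊.E (𝔊.cls ⟨c, hN c (by simp)⟩) (𝔊.cls ⟨check ell, hN (check ell) (by simp)⟩)
      (𝔊.cls ⟨J, hN J (by simp)⟩) :=
  Frc.true_list fo_bad 𝔊 [⟨X, hN X (by simp)⟩, ⟨i, hN i (by simp)⟩, ⟨J, hN J (by simp)⟩,
    ⟨c, hN c (by simp)⟩, ⟨kapN W L, hN (kapN W L) (by simp)⟩, ⟨fN W L, hN (fN W L) (by simp)⟩,
    ⟨check ell, hN (check ell) (by simp)⟩] ⟨omegaName, hF.rich.omega_mem⟩ (n := 0)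
    (hbad.mono h0)

end one

section two
variable {W I : Type} [LinearOrder W] [WellFoundedLT W] [LinearOrder I] [WellFoundedLT I]
  [Nonempty I] {L : I → Cardinal.{0}} {ell mu : W} {e : I → W} [hS2 : Setup2 W I L ell mu e]
include hS2

variable (mu e) in
/-- some condition of the collapse decides unboundedly many elements of `X` -/
lemma exists_unbounded {X i J c : Name (PP W I L)} {p : PP W I L}
    (hbad : Frc RBad (ev omegaName (badL ell X i J c)) p) :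
    ∃ q ≤ p, ∀ γ : W, ∀ q' ≤ q.1, ∃ q'' ≤ q', ∃ y, γ < y ∧ fmem (check y) X (q'', q.2) := by
  by_contra hcon
  push Not at hcon
  have hA : #{a : AA I // a ≤ p.2} < Order.succ (lam L) :=
    Order.lt_succ_iff.2 ((mk_subtype_le _).trans (cardA' W L ell mu e).le)
  obtain ⟨q, hq, h⟩ := distrib (Cond.closed (W := W) (I := I) (L := L) (T := Set (W × AA I)))
    hA (fun t => {q | ∃ γ : W, ∀ q'' ≤ q, ∀ y, γ < y → ¬ fmem (check y) X (q'', t.1)}) p.1
    (fun t q hq => by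
      obtain ⟨γ, q', hq', h⟩ := hcon (q, t.1) ⟨hq, t.2⟩
      exact ⟨q', hq', γ, h⟩)
    (fun t q h r hr => by
      obtain ⟨γ, h⟩ := h
      exact ⟨γ, fun q'' hq'' => h q'' (hq''.trans hr)⟩)
  choose γ hγ using h
  obtain ⟨b, hb⟩ := hS2.reg (range γ) (mk_range_le.trans
    ((mk_subtype_le _).trans (cardA' W L ell mu e).le))
  obtain ⟨𝔊, hF, h0, hSN⟩ := exists_full ({check b} ∪ {x | x ∈ badL ell X i J c} :
    Set (Name (PP W I L))) ((countable_singleton _).union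
    (List.finite_toSet (badL ell X i J c)).countable) (q, p.2)
  have hle : 𝔊.G 0 ≤ p := by rw [h0]; exact ⟨hq, le_rfl⟩
  obtain ⟨t1, t2, _, _⟩ := bad_true hbad hF hle (fun z hz => hSN (Or.inr hz))
  have hX : X ∈ 𝔊.N := hSN (Or.inr (by simp))
  have hi : i ∈ 𝔊.N := hSN (Or.inr (by simp))
  have hk : kapN W L ∈ 𝔊.N := hSN (Or.inr (by simp))
  have hbN : check b ∈ 𝔊.N := hSN (Or.inl rfl)
  have t1' : Sub 𝔊.E (𝔊.cls ⟨X, hX⟩) (𝔊.cls ⟨_, hk⟩) := t1
  have t2' : IsInj 𝔊.E (𝔊.cls ⟨i, hi⟩) (𝔊.cls ⟨_, hk⟩) (𝔊.cls ⟨X, hX⟩) := t2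
  have hex : ∃ x, 𝔊.E x (𝔊.cls ⟨X, hX⟩) ∧ ¬ 𝔊.E x (𝔊.cls ⟨_, hbN⟩) := by
    by_contra hno
    push Not at hno
    have t3 := isInj_mono t2' hno
    obtain ⟨m, hm⟩ := (truth_list fo_inj 𝔊 [⟨i, hi⟩, ⟨_, hk⟩, ⟨_, hbN⟩]
      ⟨omegaName, hF.rich.omega_mem⟩).1 t3
    have hm' : Frc RInj (ev omegaName [i, checkSet (univ : Set W), checkSet (Iio b)]) (𝔊.G m) := by
      rw [← check_eq]; exact hm
    have h1 := mul_le L ell mu e (hS2.small b)
    exact no_inj2 _ _ h1 (h1.trans_lt (card_univ_W W L ell mu e)) i (𝔊.G m) hm'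
  obtain ⟨x, hx1, hx2⟩ := hex
  obtain ⟨d, _, hxd⟩ := (E_checkSet hF.rich hk).1 (t1' x hx1)
  have hd : b ≤ d := by
    by_contra hlt
    exact hx2 ((E_iff_lt hF.decC hxd (rep_self hbN)).2 (not_le.1 hlt))
  obtain ⟨x', rfl⟩ := 𝔊.exists_rep x
  obtain ⟨m, hm⟩ := rep_cls_iff.1 hxd
  obtain ⟨k, hk'⟩ := hx1
  have h5 : fmem (check d) X (𝔊.G (max m k)) :=
    fmem_congr_left (feq_mono hm (𝔊.anti (le_max_left _ _)))
      (fmem_mono hk' (𝔊.anti (le_max_right _ _)))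
  have h6 : 𝔊.G (max m k) ≤ (q, p.2) := by rw [← h0]; exact 𝔊.anti (Nat.zero_le _)
  let t : {a : AA I // a ≤ p.2} := ⟨(𝔊.G (max m k)).2, h6.2⟩
  refine hγ t (𝔊.G (max m k)).1 h6.1 d ((hb _ ⟨t, rfl⟩).trans_le hd) ?_
  exact h5

variable (mu e) in
theorem not_bad (X i J c : Name (PP W I L)) (p : PP W I L) :
    ¬ Frc RBad (ev omegaName (badL ell X i J c)) p := by
  intro hbad0
  obtain ⟨p1, hp1, hunb⟩ := exists_unbounded mu e hbad0
  have hbad1 := hbad0.mono hp1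
  -- a bound for the intersection
  obtain ⟨q1, hq1, y0, -, hy0⟩ := hunb (bt L) p1.1 le_rfl
  obtain ⟨q2, hq2, hlen2⟩ := Cond.exists_len y0 q1
  -- decide the intersection of the values at the elements decided by `p1.2`
  let Good : RR W I L → W → Prop := fun r x =>
    ∀ r' ≤ r, ∀ y < r'.len, fmem (check y) X (r', p1.2) → x ∈ down r' y
  let Bad : RR W I L → W → Prop := fun r x =>
    ∃ y < r.len, fmem (check y) X (r, p1.2) ∧ x ∉ down r y
  obtain ⟨q3, hq3, h3⟩ := distrib (Cond.closed (W := W) (I := I) (L := L)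
    (T := Set (W × AA I))) (I := Iio y0) (Order.lt_succ_iff.2 (hS2.small y0))
    (fun x => {r | Good r x.1 ∨ Bad r x.1}) q2
    (fun x r _ => by
      by_cases h : Good r x.1
      · exact ⟨r, le_rfl, Or.inl h⟩
      · change ¬ (∀ r' ≤ r, ∀ y < r'.len, fmem (check y) X (r', p1.2) → x.1 ∈ down r' y) at h
        push Not at h
        obtain ⟨r', hr', y, hy, h4, h5⟩ := h
        exact ⟨r', hr', Or.inr ⟨y, hy, h4, h5⟩⟩)
    (fun x r h r' hr' => by
      rcases h with h | ⟨y, hy, h4, h5⟩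
      · exact Or.inl fun s hs => h s (hs.trans hr')
      · refine Or.inr ⟨y, hy.trans_le hr'.len, fmem_mono h4 ⟨hr', le_rfl⟩, ?_⟩
        rw [down_eq hr' hy]
        exact h5)
  let s : Set W := {x | x < y0 ∧ Good q3 x}
  have hq3p : (q3, p1.2) ≤ p1 := ⟨hq3.trans (hq2.trans hq1), le_rfl⟩
  have hy0' : fmem (check y0) X (q3, p1.2) := fmem_mono hy0 ⟨hq3.trans hq2, le_rfl⟩
  have hlen3 : y0 < q3.len := hlen2.trans_le hq3.len
  -- the intersection is contained in `s`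
  have hinj : Frc RInj (ev omegaName [c, checkSet (Iio ell), checkSet s]) (q3, p1.2) := by
    refine frc_full fo_inj _ _ ({check ell, check y0, checkSet (down q3 y0)} ∪
      {x | x ∈ badL ell X i J c}) ((by simp : Set.Countable ({check ell, check y0,
        checkSet (down q3 y0)} : Set (Name (PP W I L)))).union
      (List.finite_toSet (badL ell X i J c)).countable) ?_
    intro 𝔊 hF h0 hSN hl
    obtain ⟨t1, t2, t3, t4⟩ := bad_true (hbad1.mono hq3p) hF h0 (fun z hz => hSN (Or.inr hz))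
    have hcN := hl c (by simp)
    have hAN := hl (checkSet (Iio ell)) (by simp)
    have hsN := hl (checkSet s) (by simp)
    have hX : X ∈ 𝔊.N := hSN (Or.inr (by simp))
    have hJ : J ∈ 𝔊.N := hSN (Or.inr (by simp))
    have hk : kapN W L ∈ 𝔊.N := hSN (Or.inr (by simp))
    have hf : fN W L ∈ 𝔊.N := hSN (Or.inr (by simp))
    have hell : check ell ∈ 𝔊.N := hSN (Or.inr (by simp))
    have hy0N : check y0 ∈ 𝔊.N := hSN (Or.inl (by simp))
    have hDN : checkSet (down q3 y0) ∈ 𝔊.N := hSN (Or.inl (by simp))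
    have t3' : IsInter 𝔊.E (𝔊.cls ⟨_, hf⟩) (𝔊.cls ⟨_, hk⟩) (𝔊.cls ⟨X, hX⟩)
      (𝔊.cls ⟨J, hJ⟩) := t3
    have t4' : IsInj 𝔊.E (𝔊.cls ⟨c, hcN⟩) (𝔊.cls ⟨_, hell⟩) (𝔊.cls ⟨J, hJ⟩) := t4
    have h01 : (𝔊.G 0).1 ≤ q3 := h0.1
    have hsub : Sub 𝔊.E (𝔊.cls ⟨J, hJ⟩) (𝔊.cls ⟨_, hsN⟩) := by
      intro t ht
      have ht2 := ((t3' t).1 ht).2
      have e1 : down (𝔊.G 0).1 y0 = down q3 y0 := down_eq h01 hlen3
      have h5 := ht2 (𝔊.cls ⟨_, hy0N⟩) (𝔊.cls ⟨_, hDN⟩) ⟨0, fmem_mono hy0' h0⟩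
        ((val_genName stable_down hF hf).2 ⟨0, y0, hlen3.trans_le h01.len, rep_self hy0N, by
          rw [e1]; exact rep_self hDN⟩)
      obtain ⟨x, hx, hxr⟩ := (E_checkSet hF.rich hDN).1 h5
      refine (E_checkSet hF.rich hsN).2 ⟨x, ⟨hx.1, ?_⟩, hxr⟩
      rcases h3 ⟨x, hx.1⟩ with h6 | ⟨y, hy, h6, h7⟩
      · exact h6
      · exfalso
        -- pass to a model which contains the name of `y`
        obtain ⟨t', rfl⟩ := 𝔊.exists_rep t
        obtain ⟨k1, hk1⟩ := rep_cls_iff.1 hxr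
        obtain ⟨k2, hk2⟩ := ht
        obtain ⟨𝔊', hF', h0', hSN'⟩ := exists_full (({check y, checkSet (down q3 y), check x} :
          Set (Name (PP W I L))) ∪ {x | x ∈ badL ell X i J c})
          ((by simp : Set.Countable ({check y, checkSet (down q3 y), check x} :
            Set (Name (PP W I L)))).union
          (List.finite_toSet (badL ell X i J c)).countable) (𝔊.G (max k1 k2))
        have hle' : 𝔊'.G 0 ≤ (q3, p1.2) := by
          rw [h0']; exact (𝔊.anti (Nat.zero_le _)).trans h0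
        obtain ⟨_, _, s3, _⟩ := bad_true (hbad1.mono hq3p) hF' hle'
          (fun z hz => hSN' (Or.inr hz))
        have hX' : X ∈ 𝔊'.N := hSN' (Or.inr (by simp))
        have hJ' : J ∈ 𝔊'.N := hSN' (Or.inr (by simp))
        have hk' : kapN W L ∈ 𝔊'.N := hSN' (Or.inr (by simp))
        have hf' : fN W L ∈ 𝔊'.N := hSN' (Or.inr (by simp))
        have hyN' : check y ∈ 𝔊'.N := hSN' (Or.inl (by simp))
        have hxN' : check x ∈ 𝔊'.N := hSN' (Or.inl (by simp))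
        have hDN' : checkSet (down q3 y) ∈ 𝔊'.N := hSN' (Or.inl (by simp))
        have s3' : IsInter 𝔊'.E (𝔊'.cls ⟨_, hf'⟩) (𝔊'.cls ⟨_, hk'⟩) (𝔊'.cls ⟨X, hX'⟩)
          (𝔊'.cls ⟨J, hJ'⟩) := s3
        have h01' : (𝔊'.G 0).1 ≤ q3 := hle'.1
        have e2 : down (𝔊'.G 0).1 y = down q3 y := down_eq h01' hy
        have hxJ : 𝔊'.E (𝔊'.cls ⟨_, hxN'⟩) (𝔊'.cls ⟨J, hJ'⟩) := by
          refine ⟨0, ?_⟩
          rw [h0']
          exact fmem_congr_left (feq_mono hk1 (𝔊.anti (le_max_left _ _)))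
            (fmem_mono hk2 (𝔊.anti (le_max_right _ _)))
        have h8 := ((s3' _).1 hxJ).2 (𝔊'.cls ⟨_, hyN'⟩) (𝔊'.cls ⟨_, hDN'⟩)
          ⟨0, fmem_mono h6 hle'⟩
          ((val_genName stable_down hF' hf').2 ⟨0, y, hy.trans_le h01'.len, rep_self hyN', by
            rw [e2]; exact rep_self hDN'⟩)
        obtain ⟨x2, hx2, hx2r⟩ := (E_checkSet hF'.rich hDN').1 h8
        have e3 : x = x2 := (rep_self hxN').check_inj hx2r
        exact h7 (show x ∈ down q3 y by rw [e3]; exact hx2)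
    have hcls : 𝔊.cls ⟨_, hAN⟩ = 𝔊.cls ⟨check ell, hell⟩ :=
      ((rep_iff hell).1 (by rw [check_eq]; exact rep_self hAN))
    change IsInj 𝔊.E (𝔊.cls ⟨c, hcN⟩) (𝔊.cls ⟨_, hAN⟩) (𝔊.cls ⟨_, hsN⟩)
    rw [hcls]
    exact isInj_mono t4' hsub
  -- so `s` is large
  have hs : lam L ≤ #s := by
    by_contra hlt
    have h1 := mul_lt L ell mu e (not_le.1 hlt)
    refine no_inj2 (Iio ell) s h1.le ?_ c _ hinj
    rw [hS2.card_ell]
    exact h1
  -- the promise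
  obtain ⟨q4, hq4, hlen4, hY⟩ := Cond.exists_promise q3 s
    (fun x hx => hx.1.trans hlen3) hs
  obtain ⟨q5, hq5, y, hy, hyX⟩ := hunb q4.len q4 (hq4.trans hq3p.1)
  obtain ⟨q6, hq6, hlen6⟩ := Cond.exists_len y q5
  have h64 : q6 ≤ q4 := hq6.trans hq5
  obtain ⟨j, x, hx, hH⟩ := h64.prom y hy.le hlen6 s hY
  have h7 := hx.2 q6 (h64.trans hq4) y hlen6 (fmem_mono hyX ⟨hq6, le_rfl⟩)
  exact h7.2 j hH

end two

end Pool.Agent.FreeSetsG
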