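import Pool.Agent.Lib_MP_38e082_gen.Main
import Mathlib.SetTheory.Cardinal.Aleph
import Mathlib.SetTheory.Cardinal.Cofinality.Ordinal

/-!
# The instance for a regular cardinal `μ`

`I` is the well-order `μ`, `L i = ℶ_{κ + i}` where `κ` is the size of the collapse, and `W` is the
successor of `λ = ℶ_{κ + μ}`.
-/

set_option linter.unusedSectionVars false

namespace Pool.Agent.FreeSetsG

open Cardinal Set Ordinal

variable (μ : Cardinal.{0})

/-- the well-order `μ` -/
abbrev II : Type := μ.ord.ToType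

/-- the size of the collapse -/
noncomputable abbrev kk : Cardinal.{0} := #(AA (II μ) × Th (II μ))

/-- the order type of the initial segment below `i` -/
noncomputable abbrev tpi (i : II μ) : Ordinal.{0} := typein (α := II μ) (· < ·) i

/-- the cardinals `ℶ_{κ + i}` -/
noncomputable abbrev LL (i : II μ) : Cardinal.{0} := beth ((kk μ).ord + tpi μ i)

/-- the strong limit cardinal -/
noncomputable abbrev ll : Cardinal.{0} := beth ((kk μ).ord + μ.ord)

/-- the well-order `λ⁺` -/
abbrev WW : Type := (Order.succ (ll μ)).ord.ToType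

/-- the order type of the initial segment below `x` -/
noncomputable abbrev tp (x : WW μ) : Ordinal.{0} := typein (α := WW μ) (· < ·) x

lemma tpi_lt {i j : II μ} : tpi μ i < tpi μ j ↔ i < j := typein_lt_typein (α := II μ) (· < ·)

lemma tpi_lt_ord (i : II μ) : tpi μ i < μ.ord := by
  have := typein_lt_type (α := II μ) (· < ·) i
  rwa [type_toType] at this

lemma exists_tpi {o : Ordinal.{0}} (h : o < μ.ord) : ∃ i : II μ, tpi μ i = o := by
  have h2 : o < type (α := II μ) (· < ·) := by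
    rw [type_toType]; exact h
  exact typein_surj (α := II μ) (· < ·) h2

lemma LL_mono : StrictMono (LL μ) := fun i j h =>
  beth_strictMono (add_lt_add_right ((tpi_lt μ).2 h) _)

variable {μ} (hμ : μ.IsRegular)
include hμ

lemma lim_ord : Order.IsSuccLimit μ.ord := isSuccLimit_ord hμ.aleph0_le

lemma lam_LL : lam (LL μ) = ll μ := by
  apply le_antisymm
  · exact ciSup_le' fun i => beth_mono (add_le_add_right (tpi_lt_ord μ i).le _)
  · change beth ((kk μ).ord + μ.ord) ≤ ⨆ i, LL μ i
    rw [beth_limit (isSuccLimit_add _ (lim_ord hμ))]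
    refine ciSup_le' fun a => ?_
    rcases lt_or_ge a.1 (kk μ).ord with h1 | h1
    · obtain ⟨i, hi⟩ := exists_tpi μ (lim_ord hμ).bot_lt
      refine (beth_mono (h1.le.trans ?_)).trans (le_ciSup (f := LL μ)
        Cardinal.bddAbove_of_small i)
      exact le_self_add
    · have h2 : a.1 - (kk μ).ord < μ.ord := by
        rw [sub_lt_of_le h1]
        exact a.2
      obtain ⟨i, hi⟩ := exists_tpi μ h2
      have h3 : a.1 = (kk μ).ord + tpi μ i := by
        rw [hi, Ordinal.add_sub_cancel_of_le h1]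
      rw [h3]
      exact le_ciSup (f := LL μ) Cardinal.bddAbove_of_small i

lemma lt_lam_LL {c : Cardinal.{0}} (h : c < ll μ) : ∃ i, c < LL μ i := by
  rw [← lam_LL hμ] at h
  exact exists_lt_of_lt_ciSup' h

lemma exists_succ (i : II μ) : ∃ j : II μ, tpi μ j = Order.succ (tpi μ i) :=
  exists_tpi μ ((lim_ord hμ).succ_lt (tpi_lt_ord μ i))

lemma LL_lt (i : II μ) : LL μ i < ll μ :=
  beth_strictMono (add_lt_add_right (tpi_lt_ord μ i) _)

omit hμ in
lemma card_tp (x : WW μ) : (tp μ x).card = #(Iio x) := rfl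

omit hμ in
lemma tp_lt {x y : WW μ} : tp μ x < tp μ y ↔ x < y := typein_lt_typein (α := WW μ) (· < ·)

omit hμ in
lemma tp_inj {x y : WW μ} (h : tp μ x = tp μ y) : x = y := typein_injective (α := WW μ) (· < ·) h

omit hμ in
lemma exists_tp {o : Ordinal.{0}} (h : o < (Order.succ (ll μ)).ord) :
    ∃ x : WW μ, tp μ x = o := by
  have h2 : o < type (α := WW μ) (· < ·) := by
    rw [type_toType]; exact h
  exact typein_surj (α := WW μ) (· < ·) h2

omit hμ in
lemma exists_tp_le {o : Ordinal.{0}} (h : o ≤ (ll μ).ord) :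
    ∃ x : WW μ, tp μ x = o :=
  exists_tp (h.trans_lt (ord_lt_ord.2 (Order.lt_succ _)))

omit hμ in
lemma kk_le : kk μ ≤ beth (kk μ).ord := by
  have h1 : (kk μ).ord ≤ (beth (kk μ).ord).ord := by
    refine le_trans ?_ (ord_le_ord.2 (aleph_le_beth _))
    exact (le_omega_self _).trans (by rw [ord_aleph])
  have h2 := card_le_card h1
  rwa [card_ord, card_ord] at h2

lemma kk_lt : kk μ < ll μ := by
  obtain ⟨i, _⟩ := exists_tpi μ (lim_ord hμ).bot_lt
  refine (kk_le.trans (beth_mono ?_)).trans_lt (LL_lt hμ i)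
  exact le_self_add

lemma ne_II : Nonempty (II μ) := by
  obtain ⟨i, _⟩ := exists_tpi μ (lim_ord hμ).bot_lt
  exact ⟨i⟩

lemma mu_lt_kk : μ ≤ kk μ := by
  have := ne_II hμ
  have h1 : #(II μ) = μ := by simp [II]
  conv_lhs => rw [← h1]
  refine mk_le_of_injective (f := fun i : II μ => ((⊤ : AA (II μ)), ({(i, i)} : Th (II μ)))) ?_
  intro i j h
  have h1 : ({(i, i)} : Th (II μ)) = {(j, j)} := congrArg Prod.snd h
  have h2 := singleton_injective h1
  exact congrArg Prod.fst h2

lemma mu_lt_ll : μ < ll μ := (mu_lt_kk hμ).trans_lt (kk_lt hμ)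

theorem setup0 : Setup (WW μ) (II μ) (LL μ) where
  ne := ne_II hμ
  nomax := by
    intro i
    obtain ⟨j, hj⟩ := exists_succ hμ i
    exact ⟨j, (tpi_lt μ).1 (by rw [hj]; exact Order.lt_succ _)⟩
  mono := LL_mono μ
  inf := fun i => aleph0_le_beth _
  small := by
    intro a
    rw [lam_LL hμ, ← card_tp]
    have h1 : tp μ a < (Order.succ (ll μ)).ord := by
      have := typein_lt_type (α := WW μ) (· < ·) a
      rwa [type_toType] at this
    exact Order.lt_succ_iff.1 (lt_ord.1 h1)
  reg := by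
    intro s hs
    rw [lam_LL hμ] at hs
    by_contra hcon
    push Not at hcon
    have h1 : IsCofinal s := fun a => by
      obtain ⟨x, hx, h⟩ := hcon a
      exact ⟨x, hx, h⟩
    have h2 := Order.cof_le h1
    rw [cof_toType, (isRegular_succ (aleph0_le_beth _)).cof_ord] at h2
    exact absurd (Order.lt_succ (ll μ)) (not_lt.2 (h2.trans hs))

/-- the element of `WW` corresponding to `λ` -/
noncomputable def ell0 (μ : Cardinal.{0}) : WW μ := (exists_tp_le (μ := μ) le_rfl).choose

omit hμ in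
lemma tp_ell0 : tp μ (ell0 μ) = (ll μ).ord := (exists_tp_le (μ := μ) le_rfl).choose_spec

open Classical in
/-- the element of `WW` corresponding to `o` -/
noncomputable def el (μ : Cardinal.{0}) (o : Ordinal.{0}) : WW μ :=
  if h : ∃ x : WW μ, tp μ x = o then h.choose else ell0 μ

omit hμ in
lemma tp_el {o : Ordinal.{0}} (h : o ≤ (ll μ).ord) : tp μ (el μ o) = o := by
  unfold el
  rw [dif_pos (exists_tp_le h)]
  exact (exists_tp_le h).choose_spec

theorem setup2 : Setup2 (WW μ) (II μ) (LL μ) (ell0 μ) (el μ μ.ord) (fun i => el μ (tpi μ i)) where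
  toSetup := setup0 hμ
  regI := by
    intro s hs
    have h0 : #(II μ) = μ := by simp [II]
    rw [h0] at hs
    by_contra hcon
    push Not at hcon
    have h1 : IsCofinal s := fun a => by
      obtain ⟨x, hx, h⟩ := hcon a
      exact ⟨x, hx, h⟩
    have h2 := Order.cof_le h1
    rw [cof_toType, hμ.cof_ord] at h2
    exact absurd hs (not_lt.2 h2)
  infI := by
    have h0 : #(II μ) = μ := by simp [II]
    rw [h0]; exact hμ.aleph0_le
  smallI := by
    intro i
    have h0 : #(II μ) = μ := by simp [II]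
    rw [h0]
    exact lt_ord.1 (tpi_lt_ord μ i)
  cardA := by rw [lam_LL hμ]; exact kk_lt hμ
  card_ell := by
    rw [← card_tp, tp_ell0, card_ord]
    exact (lam_LL hμ).symm
  lt_ell := by
    intro b hb
    rw [← card_tp]
    have h1 := tp_lt.2 hb
    rw [tp_ell0] at h1
    rw [lt_ord] at h1
    exact h1.trans_eq (lam_LL hμ).symm
  emb := by
    intro i j hij
    have h1 : ∀ i : II μ, tpi μ i ≤ (ll μ).ord := fun i =>
      (tpi_lt_ord μ i).le.trans (ord_le_ord.2 (mu_lt_ll hμ).le)
    rw [← tp_lt, tp_el (h1 i), tp_el (h1 j)]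
    exact (tpi_lt μ).2 hij
  range_emb := by
    have h1 : ∀ i : II μ, tpi μ i ≤ (ll μ).ord := fun i =>
      (tpi_lt_ord μ i).le.trans (ord_le_ord.2 (mu_lt_ll hμ).le)
    have h2 : tp μ (el μ μ.ord) = μ.ord := tp_el (ord_le_ord.2 (mu_lt_ll hμ).le)
    ext x
    rw [mem_Iio, ← tp_lt, h2]
    constructor
    · rintro ⟨i, rfl⟩
      rw [tp_el (h1 i)]
      exact tpi_lt_ord μ i
    · intro hx
      obtain ⟨i, hi⟩ := exists_tpi μ hx
      refine ⟨i, tp_inj ?_⟩
      rw [tp_el (h1 i), hi]
  mu_lt := by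
    rw [← tp_lt, tp_el (ord_le_ord.2 (mu_lt_ll hμ).le), tp_ell0]
    exact ord_lt_ord.2 (mu_lt_ll hμ)
  cof := by
    have h1 : ∀ i : II μ, tp μ (el μ (LL μ i).ord) = (LL μ i).ord := fun i =>
      tp_el (ord_le_ord.2 (LL_lt hμ i).le)
    refine ⟨fun i => el μ (LL μ i).ord, fun i => ?_, fun x hx => ?_⟩
    · rw [← tp_lt, h1, tp_ell0]
      exact ord_lt_ord.2 (LL_lt hμ i)
    · have h2 := tp_lt.2 hx
      rw [tp_ell0, lt_ord] at h2
      obtain ⟨i, hi⟩ := lt_lam_LL hμ h2
      refine ⟨i, ?_⟩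
      rw [← tp_lt, h1]
      exact lt_ord.2 hi
  nat := by
    have hω : (ω : Ordinal.{0}) ≤ μ.ord := by
      rw [← ord_aleph0]
      exact ord_le_ord.2 hμ.aleph0_le
    have hω' : (ω : Ordinal.{0}) ≤ (ll μ).ord := hω.trans (ord_le_ord.2 (mu_lt_ll hμ).le)
    have h1 : ∀ n : ℕ, tp μ (el μ (n : Ordinal.{0})) = (n : Ordinal.{0}) := fun n =>
      tp_el ((natCast_lt_omega0 n).le.trans hω')
    have hw : tp μ (el μ ω) = ω := tp_el hω'
    refine ⟨fun n => el μ (n : Ordinal.{0}), fun m n h => ?_, el μ ω, ?_, ?_⟩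
    · rw [← tp_lt, h1, h1]; exact Nat.cast_lt.2 h
    · rw [← not_lt, ← tp_lt, hw, tp_el (ord_le_ord.2 (mu_lt_ll hμ).le)]
      exact not_lt.2 hω
    · ext x
      rw [mem_Iio, ← tp_lt, hw, lt_omega0]
      constructor
      · rintro ⟨n, rfl⟩
        exact ⟨n, h1 n⟩
      · rintro ⟨n, hn⟩
        exact ⟨n, tp_inj ((h1 n).trans hn.symm)⟩
  pow := by
    intro a ha
    have h1 := tp_lt.2 ha
    rw [tp_ell0, lt_ord, card_tp] at h1
    have h1' : #(Iio a × AA (II μ)) < ll μ := by
      have h0 : #(AA (II μ)) < ll μ := by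
        refine lt_of_le_of_lt ?_ (kk_lt hμ)
        exact mk_le_of_injective (f := fun a : AA (II μ) => (a, (default : Th (II μ))))
          (fun a b h => congrArg Prod.fst h)
      simp only [mk_prod, Cardinal.lift_id]
      exact mul_lt_of_lt (aleph0_le_beth _) h1 h0
    obtain ⟨i, hi⟩ := lt_lam_LL hμ h1'
    obtain ⟨j, hj⟩ := exists_succ hμ i
    have hb : tp μ (el μ (LL μ j).ord) = (LL μ j).ord := tp_el (ord_le_ord.2 (LL_lt hμ j).le)
    have hbc : #(Iio (el μ (LL μ j).ord)) = LL μ j := by rw [← card_tp, hb, card_ord]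
    have h2 : #(Set (Iio a × AA (II μ))) ≤ #(Iio (el μ (LL μ j).ord)) := by
      rw [mk_set, hbc]
      have h3 : LL μ j = 2 ^ LL μ i := by
        change beth ((kk μ).ord + tpi μ j) = _
        rw [hj, Ordinal.add_succ, beth_succ]
      rw [h3]
      exact power_le_power_left two_ne_zero hi.le
    obtain ⟨φ⟩ := h2
    refine ⟨el μ (LL μ j).ord, ?_, ?_⟩
    · rw [← tp_lt, hb, tp_ell0]
      exact ord_lt_ord.2 (LL_lt hμ j)
    · let ψ : Set (Iio a × AA (II μ)) → WW μ := fun S => (φ S).1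
      have hψ : Function.Injective ψ := fun S T h => φ.injective (Subtype.ext h)
      refine ⟨fun x => (fun t : Iio a × AA (II μ) => (t.1.1, t.2)) '' (Function.invFun ψ x),
        fun S hS => ?_⟩
      refine ⟨ψ {y | (y.1.1, y.2) ∈ S}, (φ _).2, ?_⟩
      change (fun t : Iio a × AA (II μ) => (t.1.1, t.2)) ''
        (Function.invFun ψ (ψ {y | (y.1.1, y.2) ∈ S})) = S
      rw [Function.leftInverse_invFun hψ]
      ext ⟨y, b⟩
      constructor
      · rintro ⟨z, hz, h4⟩
        rw [← h4]; exact hz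
      · intro hy
        exact ⟨(⟨y, (hS hy).1⟩, b), hy, rfl⟩

end Pool.Agent.FreeSetsG
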