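import Pool.Agent.Lib_MP_38e082_lc.Voc

/-!
# The vocabulary of the theorem

`(M, E)` is a structure for the language of set theory; all quantifiers range over `M`, so each
notion is the relativisation to `(M, E)` of the usual first-order definition.
-/

namespace Pool.Agent.FreeSetsG

open Pool.Agent.Inner Pool.Agent.FreeSets

universe w

variable {M : Type w} (E : M → M → Prop)

/-- `m` is an infinite regular cardinal: a cardinal with `ω ≤ m`, and there is no cofinal map
from an element of `m` to `m` -/
def IsRegCard (m : M) : Prop :=
  IsCard E m ∧ (∃ om, IsOmega E om ∧ (m = om ∨ E om m)) ∧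
    ∀ a c, E a m → ¬ IsCofinalMap E c a m

/-- `m` is the cardinal `ℵ_n` -/
def IsAleph : Nat → M → Prop
  | 0, m => IsOmega E m
  | n + 1, m => ∃ a, IsAleph n a ∧ IsSuccCard E a m

/-- `l` is a singular cardinal and `m` is its cofinality: `l` is a cardinal, `m < l` is an
infinite regular cardinal, and there is a cofinal map from `m` to `l` -/
def SingularCof (m l : M) : Prop :=
  IsRegCard E m ∧ IsCard E l ∧ E m l ∧ ∃ c, IsCofinalMap E c m l

end Pool.Agent.FreeSetsG
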