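import Pool.Agent.Lib_MP_38e082_gen.Decide
import Pool.Agent.Lib_MP_38e082_gen.Voc

/-!
# Cardinals of the generic model
-/

set_option linter.unusedSectionVars false

namespace Pool.Agent.FreeSetsG

open Pool.Agent.Forcing Pool.Agent.Forcing.Name Pool.Agent.Inner Set Pool.Agent.FreeSets Cardinal

/-! ### natural numbers -/

section nat
variable {P W : Type} [LinearOrder W] [WellFoundedLT W] [Preorder P] [OrderTop P]

lemma feq_num_check {e : ℕ → W} (he : StrictMono e) {w : W}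
    (hw : range e = Iio w) (n : ℕ) (p : P) : feq (num n : Name P) (check (e n)) p := by
  have hlow : ∀ n x, x < e n → ∃ m < n, x = e m := by
    intro n x hx
    have h1 : x ∈ range e := by
      rw [hw]
      have h2 : e n ∈ Iio w := hw ▸ mem_range_self n
      exact hx.trans h2
    obtain ⟨m, rfl⟩ := h1
    exact ⟨m, he.lt_iff_lt.1 hx, rfl⟩
  induction n generalizing p with
  | zero =>
    refine feq_of_forall (fun z q _ h => absurd h not_fmem_emptyName) (fun z q _ h => ?_)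
    rw [check_eq, fmem_checkSet] at h
    obtain ⟨r, _, x, hx, _⟩ := h q le_rfl
    obtain ⟨m, hm, _⟩ := hlow 0 x hx
    omega
  | succ n ih =>
    refine feq_of_forall (fun z q _ h => ?_) (fun z q _ h => ?_)
    · rw [fmem_num_succ] at h
      rw [check_eq, fmem_checkSet]
      intro r hr
      obtain ⟨s, hs, h1 | h1⟩ := h r hr
      · have h2 := fmem_congr_right (ih s) h1
        rw [check_eq, fmem_checkSet] at h2
        obtain ⟨t, ht, x, hx, h3⟩ := h2 s le_rfl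
        exact ⟨t, ht.trans hs, x, lt_trans hx (he (Nat.lt_succ_self n)), h3⟩
      · exact ⟨s, hs, e n, he (Nat.lt_succ_self n), feq_trans h1 (ih s)⟩
    · rw [check_eq, fmem_checkSet] at h
      rw [fmem_num_succ]
      intro r hr
      obtain ⟨s, hs, x, hx, h1⟩ := h r hr
      obtain ⟨m, hm, rfl⟩ := hlow _ _ hx
      refine ⟨s, hs, ?_⟩
      rcases Nat.lt_succ_iff_lt_or_eq.1 hm with h2 | h2
      · left
        refine fmem_congr_right (feq_symm (ih s)) ?_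
        rw [check_eq]
        exact fmem_checkSet.2 fun t ht => ⟨t, le_rfl, e m, he h2, feq_mono h1 ht⟩
      · right
        subst h2
        exact feq_trans h1 (feq_symm (ih s))

lemma feq_omega_check {e : ℕ → W} (he : StrictMono e) {w : W}
    (hw : range e = Iio w) (p : P) : feq (omegaName : Name P) (check w) p := by
  refine feq_of_forall (fun z q _ h => ?_) (fun z q _ h => ?_)
  · rw [fmem_omegaName] at h
    rw [check_eq, fmem_checkSet]
    intro r hr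
    obtain ⟨s, hs, n, h1⟩ := h r hr
    have h2 : e n ∈ Iio w := hw ▸ mem_range_self n
    exact ⟨s, hs, e n, h2, feq_trans h1 (feq_num_check he hw n s)⟩
  · rw [check_eq, fmem_checkSet] at h
    rw [fmem_omegaName]
    intro r hr
    obtain ⟨s, hs, x, hx, h1⟩ := h r hr
    have h2 : x ∈ range e := by rw [hw]; exact hx
    obtain ⟨n, rfl⟩ := h2
    exact ⟨s, hs, n, feq_trans h1 (feq_symm (feq_num_check he hw n s))⟩

end nat

/-! ### definability -/

/-- the property: `v 0` is a cofinal map from `v 1` to `v 2` -/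
abbrev RCof : Fam.{1} := fun _ E v => IsCofinalMap E (v 0) (v 1) (v 2)

lemma fo_cof : FO RCof :=
  FO.and (FO.isFun _ _ _) (FO.all (FO.imp (FO.mem _ _) (FO.ex (FO.ex (FO.and (FO.val _ _ _)
    (FO.or (FO.eq _ _) (FO.mem _ _)))))))

/-- the property: `v 0` is at most a value of `v 1` -/
abbrev RBelow : Fam.{1} := fun _ E v => ∃ n y, Val E (v 1) n y ∧ (v 0 = y ∨ E (v 0) y)

lemma fo_below : FO RBelow :=
  FO.ex (FO.ex (FO.and (FO.val _ _ _) (FO.or (FO.eq _ _) (FO.mem _ _))))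

lemma fo_ontoPow (i j k : ℕ) : FO.{1} (fun _ E v => OntoPow E (v i) (v j) (v k)) :=
  FO.and (FO.all (FO.all (FO.all (FO.imp (FO.val _ _ _) (FO.imp (FO.val _ _ _) (FO.eq _ _))))))
    (FO.all (FO.imp (FO.sub _ _) (FO.ex (FO.and (FO.mem _ _) (FO.val _ _ _)))))

/-- the property: `v 2` is a value of `v 1` at an element of `v 0` -/
abbrev RHit : Fam.{1} := fun _ E v => ∃ t, E t (v 0) ∧ Val E (v 1) t (v 2)

lemma fo_hit : FO RHit := FO.ex (FO.and (FO.mem _ _) (FO.val _ _ _))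

section one
variable {W I : Type} [LinearOrder W] [WellFoundedLT W] [LinearOrder I] [WellFoundedLT I]
  [Nonempty I] {L : I → Cardinal.{0}} [hS : Setup W I L]
include hS

lemma isOrd_check {𝔊 : Gen (PP W I L)} (hF : Full 𝔊) {S : Set W} (hlow : IsLowerSet S)
    {s : 𝔊.M} (h : Rep 𝔊 s (checkSet S)) : IsOrd 𝔊.E s := by
  have hD := hF.decC
  constructor
  · intro y hy t ht
    obtain ⟨x, hx, hyr⟩ := (E_rep_checkSet hD h).1 hy
    obtain ⟨u, hu, htr⟩ := (E_rep_check hD hyr).1 ht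
    exact (E_rep_checkSet hD h).2 ⟨u, hlow hu.le hx, htr⟩
  · intro y hy t ht s hs
    obtain ⟨x, hx, hyr⟩ := (E_rep_checkSet hD h).1 hy
    obtain ⟨u, hu, htr⟩ := (E_rep_check hD hyr).1 ht
    obtain ⟨v, hv, hsr⟩ := (E_rep_check hD htr).1 hs
    exact (E_rep_check hD hyr).2 ⟨v, hv.trans hu, hsr⟩

lemma isCard_check {𝔊 : Gen (PP W I L)} (hF : Full 𝔊) {S : Set W} (hlow : IsLowerSet S)
    (hcard : ∀ a ∈ S, ∀ (i : Name (PP W I L)) (p : PP W I L),
      ¬ Frc RInj (ev omegaName [i, checkSet S, checkSet (Iio a)]) p)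
    {s : 𝔊.M} (h : Rep 𝔊 s (checkSet S)) : IsCard 𝔊.E s := by
  refine ⟨isOrd_check hF hlow h, ?_⟩
  intro y hy i hi
  obtain ⟨a, ha, hya⟩ := (E_rep_checkSet hF.decC h).1 hy
  obtain ⟨s', rfl, n, hn⟩ := h
  obtain ⟨y', rfl, k, hk⟩ := hya
  obtain ⟨i', rfl⟩ := 𝔊.exists_rep i
  obtain ⟨m, hm⟩ := (truth_list fo_inj 𝔊 [i', s', y']
    ⟨omegaName, hF.rich.omega_mem⟩).1 hi
  refine hcard a ha i'.1 (𝔊.G (max n (max k m))) ?_
  rw [check_eq] at hk
  refine frc_congr_list ?_ (hm.mono (𝔊.anti (by omega)))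
  exact .cons (feq_refl _ _) (.cons (feq_mono hn (𝔊.anti (by omega))) (.cons
    (feq_mono hk (𝔊.anti (by omega))) .nil))

end one

section two
variable {W I : Type} [LinearOrder W] [WellFoundedLT W] [LinearOrder I] [WellFoundedLT I]
  [Nonempty I] {L : I → Cardinal.{0}} {ell mu : W} {e : I → W} [hS2 : Setup2 W I L ell mu e]
include hS2

variable (L ell mu e) in
lemma card_mu : #(Iio mu) = #I := by
  rw [← hS2.range_emb]
  exact mk_range_eq e hS2.emb.injective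

variable (L ell mu e) in
lemma card_lt_mu {a : W} (ha : a < mu) : #(Iio a) < #I := by
  obtain ⟨i, rfl⟩ : ∃ i, e i = a := by
    have : a ∈ range e := by rw [hS2.range_emb]; exact ha
    exact this
  -- `Iio (e i)` is the image of `Iio i`
  have h1 : #(Iio (e i)) ≤ #(Iio i) := by
    refine mk_le_of_surjective (f := fun j : Iio i => (⟨e j.1, hS2.emb j.2⟩ : Iio (e i))) ?_
    rintro ⟨x, hx⟩
    have : x ∈ range e := by rw [hS2.range_emb]; exact lt_trans hx ha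
    obtain ⟨j, rfl⟩ := this
    exact ⟨⟨j, hS2.emb.lt_iff_lt.1 hx⟩, rfl⟩
  exact h1.trans_lt (hS2.smallI i)

variable (L ell mu e) in
/-- names of `μ` and of `checkSet (Iio mu)` -/
lemma isCard_mu {𝔊 : Gen (PP W I L)} (hF : Full 𝔊) {m : 𝔊.M} (h : Rep 𝔊 m (check mu)) :
    IsCard 𝔊.E m := by
  rw [check_eq] at h
  refine isCard_check hF (isLowerSet_Iio mu) (fun a ha i p => ?_) h
  refine no_inj1 (ell := ell) (mu := mu) (e := e) _ _ (card_lt_mu L ell mu e ha) ?_ i p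
  rw [card_mu L ell mu e]
  exact card_lt_mu L ell mu e ha

variable (L ell mu e) in
lemma isCard_below {𝔊 : Gen (PP W I L)} (hF : Full 𝔊) {c : W} (hc : c ≤ mu)
    (hcard : ∀ a < c, #(Iio a) < #(Iio c)) {m : 𝔊.M} (h : Rep 𝔊 m (check c)) :
    IsCard 𝔊.E m := by
  rw [check_eq] at h
  refine isCard_check hF (isLowerSet_Iio c) (fun a ha i p => ?_) h
  exact no_inj1 (ell := ell) (mu := mu) (e := e) _ _
    (card_lt_mu L ell mu e (lt_of_lt_of_le ha hc)) (hcard a ha) i p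

variable (L ell mu e) in
lemma isCard_ell {𝔊 : Gen (PP W I L)} (hF : Full 𝔊) {m : 𝔊.M} (h : Rep 𝔊 m (check ell)) :
    IsCard 𝔊.E m := by
  rw [check_eq] at h
  refine isCard_check hF (isLowerSet_Iio ell) (fun a ha i p => ?_) h
  have h1 := mul_lt L ell mu e (hS2.lt_ell a ha)
  refine no_inj2 _ _ h1.le ?_ i p
  rw [hS2.card_ell]
  exact h1

variable (W L ell mu e) in
lemma card_univ_W : lam L < #(univ : Set W) := by
  by_contra h
  obtain ⟨a, ha⟩ := hS2.reg univ (not_lt.1 h)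
  exact lt_irrefl _ (ha a (mem_univ a))

variable (L ell mu e) in
lemma isCard_kap {𝔊 : Gen (PP W I L)} (hF : Full 𝔊) {m : 𝔊.M} (h : Rep 𝔊 m (kapN W L)) :
    IsCard 𝔊.E m := by
  refine isCard_check hF isLowerSet_univ (fun a _ i p => ?_) h
  have h1 := mul_le L ell mu e (hS2.small a)
  exact no_inj2 _ _ h1 (h1.trans_lt (card_univ_W W L ell mu e)) i p

/-! ### regularity -/

/-- `μ` is regular in the model -/
theorem no_cof (c : Name (PP W I L)) (a : W) (ha : a < mu) (p : PP W I L) :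
    ¬ Frc RCof (ev omegaName [c, check a, check mu]) p := by
  intro h
  obtain ⟨q, hq, hdec⟩ := exists_dec1 (ell := ell) (mu := mu) (e := e) RVal [c] (Iio a)
    (card_lt_mu L ell mu e ha) p
  have hq' := h.mono hq
  -- the values
  have key : ∀ x < a, ∃ i : I, Frc RVal (ev omegaName [check x, check (e i), c]) q := by
    intro x hx
    obtain ⟨𝔊, hF, h0, hSN⟩ := exists_full
      ({c, check a, check mu, check x} : Set (Name (PP W I L))) (by simp) q
    subst h0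
    have hcN : c ∈ 𝔊.N := hSN (by simp)
    have haN : check a ∈ 𝔊.N := hSN (by simp)
    have hmN : check mu ∈ 𝔊.N := hSN (by simp)
    have hxN : check x ∈ 𝔊.N := hSN (by simp)
    have t0 : IsCofinalMap 𝔊.E (𝔊.cls ⟨c, hcN⟩) (𝔊.cls ⟨check a, haN⟩)
        (𝔊.cls ⟨check mu, hmN⟩) :=
      Frc.true_list fo_cof 𝔊 [⟨c, hcN⟩, ⟨_, haN⟩, ⟨_, hmN⟩] ⟨omegaName, hF.rich.omega_mem⟩ hq'
    obtain ⟨y, hy, _⟩ := t0.1.2 (𝔊.cls ⟨check x, hxN⟩)
      ((E_rep_check hF.decC (rep_self haN)).2 ⟨x, hx, rep_self hxN⟩)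
    obtain ⟨b, hb, hyb⟩ := (E_rep_check hF.decC (rep_self hmN)).1
      (isFun_mem hF.rich.zfc t0.1 hy).2
    obtain ⟨y', rfl⟩ := 𝔊.exists_rep y
    obtain ⟨n, hn⟩ := rep_cls_iff.1 hyb
    obtain ⟨m, hm⟩ := (truth_list fo_val 𝔊 [⟨_, hxN⟩, y', ⟨c, hcN⟩]
      ⟨omegaName, hF.rich.omega_mem⟩).1 hy
    have hm' : Frc RVal (ev omegaName [check x, check b, c]) (𝔊.G (max n m)) := by
      refine frc_congr_list ?_ (hm.mono (𝔊.anti (le_max_right n m)))
      exact .cons (feq_refl _ _) (.cons (feq_mono hn (𝔊.anti (le_max_left _ _)))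
        (.cons (feq_refl _ _) .nil))
    rcases hdec x hx with ⟨b', hb'⟩ | hno
    · -- the decided value is below `mu`
      have hbN : ∃ i, e i = b := by
        have : b ∈ range e := by rw [hS2.range_emb]; exact hb
        exact this
      obtain ⟨i, rfl⟩ := hbN
      have hbb : e i = b' := by
        obtain ⟨𝔊', hF', h0', hSN'⟩ := exists_full
          ({c, check a, check mu, check x, check (e i), check b'} : Set (Name (PP W I L)))
          (by simp) (𝔊.G (max n m))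
        have hcN' : c ∈ 𝔊'.N := hSN' (by simp)
        have haN' : check a ∈ 𝔊'.N := hSN' (by simp)
        have hmN' : check mu ∈ 𝔊'.N := hSN' (by simp)
        have hxN' : check x ∈ 𝔊'.N := hSN' (by simp)
        have hiN' : check (e i) ∈ 𝔊'.N := hSN' (by simp)
        have hbN' : check b' ∈ 𝔊'.N := hSN' (by simp)
        have hle : 𝔊'.G 0 ≤ 𝔊.G 0 := by rw [h0']; exact 𝔊.anti (Nat.zero_le _)
        have s0 : IsCofinalMap 𝔊'.E (𝔊'.cls ⟨c, hcN'⟩) (𝔊'.cls ⟨check a, haN'⟩)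
            (𝔊'.cls ⟨check mu, hmN'⟩) :=
          Frc.true_list fo_cof 𝔊' [⟨c, hcN'⟩, ⟨_, haN'⟩, ⟨_, hmN'⟩]
            ⟨omegaName, hF'.rich.omega_mem⟩ (hq'.mono hle)
        have s1 : Val 𝔊'.E (𝔊'.cls ⟨c, hcN'⟩) (𝔊'.cls ⟨check x, hxN'⟩)
            (𝔊'.cls ⟨check (e i), hiN'⟩) :=
          Frc.true_list fo_val 𝔊' [⟨_, hxN'⟩, ⟨_, hiN'⟩, ⟨c, hcN'⟩]
            ⟨omegaName, hF'.rich.omega_mem⟩ (n := 0) (by rw [h0']; exact hm')
        have s2 : Val 𝔊'.E (𝔊'.cls ⟨c, hcN'⟩) (𝔊'.cls ⟨check x, hxN'⟩)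
            (𝔊'.cls ⟨check b', hbN'⟩) :=
          Frc.true_list fo_val 𝔊' [⟨_, hxN'⟩, ⟨_, hbN'⟩, ⟨c, hcN'⟩]
            ⟨omegaName, hF'.rich.omega_mem⟩ (n := 0) (hb'.mono hle)
        obtain ⟨y, _, hyu⟩ := s0.1.2 _ (isFun_mem hF'.rich.zfc s0.1 s1).1
        have e1 := hyu _ s1
        have e2 := hyu _ s2
        exact (rep_self hiN').check_inj ((e1.trans e2.symm) ▸ rep_self hbN')
      exact ⟨i, by rw [hbb]; exact hb'⟩
    · exact absurd hm' (hno b _ (𝔊.anti (Nat.zero_le _)))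
  choose! g hg using key
  -- the bound
  have hcard : #(g '' Iio a) < #I := mk_image_le.trans_lt (card_lt_mu L ell mu e ha)
  obtain ⟨i0, hi0⟩ := hS2.regI _ hcard
  have hi0mu : e i0 < mu := by
    have : e i0 ∈ Iio mu := by rw [← hS2.range_emb]; exact mem_range_self _
    exact this
  obtain ⟨𝔊, hF, h0, hSN⟩ := exists_full
    ({c, check a, check mu, check (e i0)} : Set (Name (PP W I L))) (by simp) q
  subst h0
  have hcN : c ∈ 𝔊.N := hSN (by simp)
  have haN : check a ∈ 𝔊.N := hSN (by simp)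
  have hmN : check mu ∈ 𝔊.N := hSN (by simp)
  have hiN : check (e i0) ∈ 𝔊.N := hSN (by simp)
  have t0 : IsCofinalMap 𝔊.E (𝔊.cls ⟨c, hcN⟩) (𝔊.cls ⟨check a, haN⟩)
      (𝔊.cls ⟨check mu, hmN⟩) :=
    Frc.true_list fo_cof 𝔊 [⟨c, hcN⟩, ⟨_, haN⟩, ⟨_, hmN⟩] ⟨omegaName, hF.rich.omega_mem⟩ hq'
  obtain ⟨n, y, hny, hyi⟩ := t0.2 (𝔊.cls ⟨check (e i0), hiN⟩)
    ((E_rep_check hF.decC (rep_self hmN)).2 ⟨_, hi0mu, rep_self hiN⟩)
  obtain ⟨x, hx, hnx⟩ := (E_rep_check hF.decC (rep_self haN)).1 (isFun_mem hF.rich.zfc t0.1 hny).1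
  obtain ⟨b, hb, hyb⟩ := (E_rep_check hF.decC (rep_self hmN)).1 (isFun_mem hF.rich.zfc t0.1 hny).2
  -- the value at `x` is `e (g x)`
  have hbg : b = e (g x) := by
    obtain ⟨n', rfl⟩ := 𝔊.exists_rep n
    obtain ⟨y', rfl⟩ := 𝔊.exists_rep y
    obtain ⟨k1, hk1⟩ := rep_cls_iff.1 hnx
    obtain ⟨k2, hk2⟩ := rep_cls_iff.1 hyb
    obtain ⟨k3, hk3⟩ := (truth_list fo_val 𝔊 [n', y', ⟨c, hcN⟩]
      ⟨omegaName, hF.rich.omega_mem⟩).1 hny
    have hm' : Frc RVal (ev omegaName [check x, check b, c]) (𝔊.G (max k1 (max k2 k3))) := by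
      refine frc_congr_list ?_ (hk3.mono (𝔊.anti (by omega)))
      exact .cons (feq_mono hk1 (𝔊.anti (by omega))) (.cons (feq_mono hk2 (𝔊.anti (by omega)))
        (.cons (feq_refl _ _) .nil))
    obtain ⟨𝔊', hF', h0', hSN'⟩ := exists_full
      ({c, check a, check mu, check x, check (e (g x)), check b} : Set (Name (PP W I L)))
      (by simp) (𝔊.G (max k1 (max k2 k3)))
    have hcN' : c ∈ 𝔊'.N := hSN' (by simp)
    have haN' : check a ∈ 𝔊'.N := hSN' (by simp)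
    have hmN' : check mu ∈ 𝔊'.N := hSN' (by simp)
    have hxN' : check x ∈ 𝔊'.N := hSN' (by simp)
    have hiN' : check (e (g x)) ∈ 𝔊'.N := hSN' (by simp)
    have hbN' : check b ∈ 𝔊'.N := hSN' (by simp)
    have hle : 𝔊'.G 0 ≤ 𝔊.G 0 := by rw [h0']; exact 𝔊.anti (Nat.zero_le _)
    have s0 : IsCofinalMap 𝔊'.E (𝔊'.cls ⟨c, hcN'⟩) (𝔊'.cls ⟨check a, haN'⟩)
        (𝔊'.cls ⟨check mu, hmN'⟩) :=
      Frc.true_list fo_cof 𝔊' [⟨c, hcN'⟩, ⟨_, haN'⟩, ⟨_, hmN'⟩]
        ⟨omegaName, hF'.rich.omega_mem⟩ (hq'.mono hle)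
    have s1 : Val 𝔊'.E (𝔊'.cls ⟨c, hcN'⟩) (𝔊'.cls ⟨check x, hxN'⟩)
        (𝔊'.cls ⟨check b, hbN'⟩) :=
      Frc.true_list fo_val 𝔊' [⟨_, hxN'⟩, ⟨_, hbN'⟩, ⟨c, hcN'⟩]
        ⟨omegaName, hF'.rich.omega_mem⟩ (n := 0) (by rw [h0']; exact hm')
    have s2 : Val 𝔊'.E (𝔊'.cls ⟨c, hcN'⟩) (𝔊'.cls ⟨check x, hxN'⟩)
        (𝔊'.cls ⟨check (e (g x)), hiN'⟩) :=
      Frc.true_list fo_val 𝔊' [⟨_, hxN'⟩, ⟨_, hiN'⟩, ⟨c, hcN'⟩]
        ⟨omegaName, hF'.rich.omega_mem⟩ (n := 0) ((hg x hx).mono hle)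
    obtain ⟨y, _, hyu⟩ := s0.1.2 _ (isFun_mem hF'.rich.zfc s0.1 s1).1
    have e1 := hyu _ s1
    have e2 := hyu _ s2
    exact (rep_self hbN').check_inj ((e1.trans e2.symm) ▸ rep_self hiN')
  have hlt : b < e i0 := by
    rw [hbg]
    exact hS2.emb (hi0 _ ⟨x, hx, rfl⟩)
  rcases hyi with h1 | h1
  · rw [← h1] at hyb
    exact absurd hlt (by rw [(rep_self hiN).check_inj hyb]; exact lt_irrefl _)
  · exact absurd ((E_iff_lt hF.decC (rep_self hiN) hyb).1 h1) (not_lt.2 hlt.le)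

variable (L ell mu e) in
/-- `μ` is a regular cardinal of the model -/
lemma isRegCard {𝔊 : Gen (PP W I L)} (hF : Full 𝔊) {m : 𝔊.M} (h : Rep 𝔊 m (check mu)) :
    IsRegCard 𝔊.E m := by
  refine ⟨isCard_mu L ell mu e hF h, ⟨hF.rich.om, hF.rich.isOmega_om, ?_⟩, ?_⟩
  · obtain ⟨e0, he, w, hw, hr⟩ := hS2.nat
    have h1 : Rep 𝔊 hF.rich.om (check w) :=
      (rep_self hF.rich.omega_mem).congr (n := 0) (feq_omega_check he hr _)
    rcases hw.lt_or_eq with h2 | h2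
    · exact Or.inr ((E_iff_lt hF.decC h1 h).2 h2)
    · rw [h2] at h1
      exact Or.inl (h.unique h1)
  · intro a c ha hc
    obtain ⟨x, hx, hax⟩ := (E_rep_check hF.decC h).1 ha
    obtain ⟨m', rfl, n, hn⟩ := h
    obtain ⟨a', rfl, k, hk⟩ := hax
    obtain ⟨c', rfl⟩ := 𝔊.exists_rep c
    obtain ⟨j, hj⟩ := (truth_list fo_cof 𝔊 [c', a', m']
      ⟨omegaName, hF.rich.omega_mem⟩).1 hc
    refine no_cof (ell := ell) (mu := mu) (e := e) c'.1 x hx (𝔊.G (max n (max k j))) ?_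
    refine frc_congr_list ?_ (hj.mono (𝔊.anti (by omega)))
    exact .cons (feq_refl _ _) (.cons (feq_mono hk (𝔊.anti (by omega))) (.cons
      (feq_mono hn (𝔊.anti (by omega))) .nil))

variable (L ell mu e) in
/-- the cofinality of `λ` is `μ` -/
lemma exists_cofinal {𝔊 : Gen (PP W I L)} (hF : Full 𝔊) {m l : 𝔊.M} (hm : Rep 𝔊 m (check mu))
    (hl : Rep 𝔊 l (check ell)) : ∃ c, IsCofinalMap 𝔊.E c m l := by
  obtain ⟨c, hc1, hc2⟩ := hS2.cof
  obtain ⟨m', rfl, n, hn⟩ := hm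
  obtain ⟨l', rfl, k, hk⟩ := hl
  have hfo : FO.{1} (fun _ E v => ∃ i, IsCofinalMap E i (v 0) (v 1)) :=
    FO.ex (FO.and (FO.isFun 0 1 2) (FO.all (FO.imp (FO.mem _ _) (FO.ex (FO.ex
      (FO.and (FO.val _ _ _) (FO.or (FO.eq _ _) (FO.mem _ _))))))))
  -- the inverse of the embedding
  have hinv : ∀ x < mu, ∃ i, e i = x := by
    intro x hx
    have : x ∈ range e := by rw [hS2.range_emb]; exact hx
    exact this
  let g : W → W := fun x => c (Function.invFun e x)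
  have hge : ∀ i, g (e i) = c i := fun i => by
    change c (Function.invFun e (e i)) = c i
    rw [Function.leftInverse_invFun hS2.emb.injective]
  have h1 : Frc (fun _ E v => ∃ i, IsCofinalMap E i (v 0) (v 1)) (ev omegaName [m'.1, l'.1])
      (𝔊.G (max n k)) := by
    refine frc_full hfo _ _ {checkSet (Iio mu), checkSet (Iio ell),
      funName (Iio mu) (fun x => check (g x))} (by simp) ?_
    intro 𝔊' hF' h0 hSN hl
    have ha := hl m'.1 (by simp)
    have hb := hl l'.1 (by simp)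
    have hA : checkSet (Iio mu) ∈ 𝔊'.N := hSN (by simp)
    have hB : checkSet (Iio ell) ∈ 𝔊'.N := hSN (by simp)
    have hf : funName (Iio mu) (fun x => check (g x)) ∈ 𝔊'.N := hSN (by simp)
    rw [check_eq] at hn hk
    have e1 : 𝔊'.cls ⟨m'.1, ha⟩ = 𝔊'.cls ⟨_, hA⟩ := (𝔊'.cls_eq).2
      ⟨0, feq_mono hn (h0.trans (𝔊.anti (le_max_left _ _)))⟩
    have e2 : 𝔊'.cls ⟨l'.1, hb⟩ = 𝔊'.cls ⟨_, hB⟩ := (𝔊'.cls_eq).2
      ⟨0, feq_mono hk (h0.trans (𝔊.anti (le_max_right _ _)))⟩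
    refine ⟨𝔊'.cls ⟨_, hf⟩, ?_⟩
    change IsCofinalMap 𝔊'.E _ (𝔊'.cls ⟨m'.1, ha⟩) (𝔊'.cls ⟨l'.1, hb⟩)
    rw [e1, e2]
    refine ⟨isFun_funName hF' (fun x hx => ?_) hf hA hB, ?_⟩
    · obtain ⟨i, rfl⟩ := hinv x hx
      rw [hge]
      exact hc1 i
    · intro x hx
      obtain ⟨a, ha, hxa⟩ := (E_checkSet hF'.rich hB).1 hx
      obtain ⟨i, hi⟩ := hc2 a ha
      have hei : e i ∈ Iio mu := by rw [← hS2.range_emb]; exact mem_range_self i
      obtain ⟨x', rfl⟩ := 𝔊'.exists_rep x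
      obtain ⟨j, hj⟩ := rep_cls_iff.1 hxa
      have h2 : Frc RBelow (ev omegaName [x'.1, funName (Iio mu) (fun x => check (g x))])
          (𝔊'.G j) := by
        refine frc_full fo_below _ _ {check (e i)} (by simp) ?_
        intro 𝔊2 hF2 h02 hSN2 hl2
        have hxN := hl2 x'.1 (by simp)
        have hfN := hl2 (funName (Iio mu) (fun x => check (g x))) (by simp)
        have hiN : check (e i) ∈ 𝔊2.N := hSN2 (by simp)
        obtain ⟨v, hv1, hv⟩ := exists_val_funName hF2 hfN hei (rep_self hiN)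
        rw [hge] at hv1
        have hxr : Rep 𝔊2 (𝔊2.cls ⟨x'.1, hxN⟩) (check a) :=
          rep_cls_iff.2 ⟨0, feq_mono hj h02⟩
        exact ⟨_, v, hv, Or.inr ((E_iff_lt hF2.decC hxr hv1).2 hi)⟩
      exact Frc.true_list fo_below 𝔊' [x', ⟨_, hf⟩] ⟨omegaName, hF'.rich.omega_mem⟩ h2
  exact Frc.true_list hfo 𝔊 [m', l'] ⟨omegaName, hF.rich.omega_mem⟩ h1

/-! ### strong limit -/

variable (L ell mu e) in
lemma strongLimit {𝔊 : Gen (PP W I L)} (hF : Full 𝔊) (h : check ell ∈ 𝔊.N) :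
    StrongLimit 𝔊.E (𝔊.cls ⟨check ell, h⟩) := by
  intro a ha
  obtain ⟨x, hx, hax⟩ := (E_rep_check hF.decC (rep_self h)).1 ha
  obtain ⟨a', rfl, n, hn⟩ := hax
  obtain ⟨y, hy, g, hg⟩ := hS2.pow x hx
  have hfo : FO.{1} (fun _ E v => ∃ b s, E b (v 1) ∧ OntoPow E s b (v 0)) :=
    FO.ex (FO.ex (FO.and (FO.mem 1 3) (fo_ontoPow 0 1 2)))
  have h1 : Frc (fun _ E v => ∃ b s, E b (v 1) ∧ OntoPow E s b (v 0))
      (ev omegaName [a'.1, check ell]) (𝔊.G n) := by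
    refine frc_full hfo _ _ {check x, check y, funName (Iio y) (fun u => evN (g u))}
      (by simp) ?_
    intro 𝔊 hF' h0 hSN hl
    have haN := hl a'.1 (by simp)
    have hellN := hl (check ell) (by simp)
    have hxN : check x ∈ 𝔊.N := hSN (by simp)
    have hyN : check y ∈ 𝔊.N := hSN (by simp)
    have hfN : funName (Iio y) (fun u => evN (g u)) ∈ 𝔊.N := hSN (by simp)
    have e1 : 𝔊.cls ⟨a'.1, haN⟩ = 𝔊.cls ⟨_, hxN⟩ := (𝔊.cls_eq).2 ⟨0, feq_mono hn h0⟩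
    refine ⟨𝔊.cls ⟨_, hyN⟩, 𝔊.cls ⟨_, hfN⟩, ?_, ?_⟩
    · exact (E_rep_check hF'.decC (rep_self hellN)).2 ⟨y, hy, rep_self hyN⟩
    · change OntoPow 𝔊.E _ _ (𝔊.cls ⟨a'.1, haN⟩)
      rw [e1]
      refine ⟨fun u v v' hv hv' => val_funName_unique hF' hfN hv hv', ?_⟩
      intro z hz
      obtain ⟨z', rfl⟩ := 𝔊.exists_rep z
      obtain ⟨m, hm⟩ := (truth_list fo_sub 𝔊 [z', ⟨_, hxN⟩]
        ⟨omegaName, hF'.rich.omega_mem⟩).1 hz
      have hm' : Frc RSub (ev omegaName [z'.1, checkSet (Iio x)]) (𝔊.G m) := by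
        rw [← check_eq]; exact hm
      have h2 : Frc RHit (ev omegaName
          [check y, funName (Iio y) (fun u => evN (g u)), z'.1]) (𝔊.G m) := by
        refine Frc.dense fo_hit fun q hq => ?_
        obtain ⟨r, hr, S, hSx, hS⟩ := exists_decide_sub (mul_le L ell mu e (hS2.small x))
          (hm'.mono hq)
        obtain ⟨u, hu, hgu⟩ := hg S (hSx.trans (prod_mono Subset.rfl (subset_univ _)))
        refine ⟨(r, q.2), ⟨hr, le_rfl⟩, frc_full fo_hit _ _ {check u, evN S}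
          (by simp) ?_⟩
        intro 𝔊' hF'' h0' hSN' hl'
        have hyN' := hl' (check y) (by simp)
        have hfN' := hl' (funName (Iio y) (fun u => evN (g u))) (by simp)
        have hzN' := hl' z'.1 (by simp)
        have huN' : check u ∈ 𝔊'.N := hSN' (by simp)
        have hSN'' : evN S ∈ 𝔊'.N := hSN' (by simp)
        refine ⟨𝔊'.cls ⟨_, huN'⟩, ?_, ?_⟩
        · exact (E_rep_check hF''.decC (rep_self hyN')).2 ⟨u, hu, rep_self huN'⟩
        · change Val 𝔊'.E (𝔊'.cls ⟨_, hfN'⟩) _ (𝔊'.cls ⟨z'.1, hzN'⟩)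
          rw [val_funName hF'' hfN']
          refine ⟨u, hu, rep_self huN', ?_⟩
          rw [hgu]
          exact rep_cls_iff.2 ⟨0, feq_mono hS h0'⟩
      exact Frc.true_list fo_hit 𝔊 [⟨_, hyN⟩, ⟨_, hfN⟩, z']
        ⟨omegaName, hF'.rich.omega_mem⟩ h2
  exact Frc.true_list hfo 𝔊 [a', ⟨_, h⟩] ⟨omegaName, hF.rich.omega_mem⟩ h1

/-! ### successor cardinals -/

variable (L ell mu e) in
/-- `ℵ_n` is computed correctly up to `μ` -/
lemma isAleph {𝔊 : Gen (PP W I L)} (hF : Full 𝔊) (n : ℕ) :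
    ∀ c : W, c ≤ mu → (∃ d : ℕ → W, ∃ e0 : ℕ → W, d n = c ∧ (∀ i < n, d i < d (i+1)) ∧
      (∀ i ≤ n, ∀ a < d i, #(Iio a) < #(Iio (d i))) ∧
      (∀ i < n, ∀ a < d (i+1), #(Iio a) ≤ #(Iio (d i))) ∧
      StrictMono e0 ∧ range e0 = Iio (d 0) ∧ ∀ i ≤ n, check (d i) ∈ 𝔊.N) →
      ∀ m : 𝔊.M, Rep 𝔊 m (check c) → IsAleph 𝔊.E n m := by
  induction n with
  | zero =>
    rintro c hc ⟨d, e0, h1, _, _, _, h5, h6, _⟩ m hm
    subst h1
    have h7 : Rep 𝔊 hF.rich.om (check (d 0)) :=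
      (rep_self hF.rich.omega_mem).congr (n := 0) (feq_omega_check h5 h6 _)
    change IsOmega 𝔊.E m
    rw [hm.unique h7]
    exact hF.rich.isOmega_om
  | succ n ih =>
    rintro c hc ⟨d, e0, h1, h2, h3, h4, h5, h6, h7⟩ m hm
    subst h1
    have hlt := h2 n (Nat.lt_succ_self n)
    have hN := h7 n (Nat.le_succ n)
    refine ⟨𝔊.cls ⟨_, hN⟩, ih (d n) (hlt.le.trans hc) ⟨d, e0, rfl,
      fun i hi => h2 i (hi.trans (Nat.lt_succ_self n)),
      fun i hi => h3 i (hi.trans (Nat.le_succ n)),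
      fun i hi => h4 i (hi.trans (Nat.lt_succ_self n)), h5, h6,
      fun i hi => h7 i (hi.trans (Nat.le_succ n))⟩ _ (rep_self hN), ?_, ?_, ?_⟩
    · exact isCard_below L ell mu e hF hc (h3 (n+1) le_rfl) hm
    · exact (E_iff_lt hF.decC (rep_self hN) hm).2 hlt
    · intro a ha
      obtain ⟨x, hx, hax⟩ := (E_rep_check hF.decC hm).1 ha
      obtain ⟨φ⟩ := h4 n (Nat.lt_succ_self n) x hx
      refine exists_inj_of_rep hF (A := Iio x) (B := Iio (d n))
        (g := fun y => if h : y < x then (φ ⟨y, h⟩).1 else y) ?_ ?_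
        (by rw [← check_eq]; exact hax) (by rw [← check_eq]; exact rep_self hN)
      · intro y hy
        have hy' : y < x := hy
        simp only [dif_pos hy']
        exact (φ ⟨y, hy'⟩).2
      · intro y hy z hz hyz
        have hy' : y < x := hy
        have hz' : z < x := hz
        simp only [dif_pos hy', dif_pos hz'] at hyz
        have h2 := φ.injective (Subtype.ext hyz)
        exact congrArg Subtype.val h2

end two

end Pool.Agent.FreeSetsG
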