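import Pool.Agent.Lib_MP_38e082_gen.Free

/-!
# The model
-/

set_option linter.unusedSectionVars false

namespace Pool.Agent.FreeSetsG

open Pool.Agent.Forcing Pool.Agent.Forcing.Name Pool.Agent.Inner Set Pool.Agent.FreeSets Cardinal

section
variable {W I : Type} [LinearOrder W] [WellFoundedLT W] [LinearOrder I] [WellFoundedLT I]
  [Nonempty I] {L : I → Cardinal.{0}} {ell mu : W} {e : I → W} [hS2 : Setup2 W I L ell mu e]
include hS2

variable (L ell mu e) in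
theorem exists_model_gen (d e0 : ℕ → W) : ∃ (M : Type 1) (E : M → M → Prop), ModelsZFC E ∧
    OmegaModel E ∧ ∃ m l k f : M, SingularCof E m l ∧
      (∀ n : ℕ, (d n = mu ∧ (∀ i < n, d i < d (i+1)) ∧
        (∀ i ≤ n, ∀ a < d i, #(Iio a) < #(Iio (d i))) ∧
        (∀ i < n, ∀ a < d (i+1), #(Iio a) ≤ #(Iio (d i))) ∧
        StrictMono e0 ∧ range e0 = Iio (d 0)) → IsAleph E n m) ∧
      StrongLimit E l ∧ IsSuccCard E l k ∧ (∃ s, OntoPow E s k l) ∧
      Counterexample E m l k f := by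
  obtain ⟨𝔊, hF, _, hSN⟩ := exists_full (({kapN W L, check ell, check mu, fN W L, bitN W L} :
    Set (Name (PP W I L))) ∪ range (fun i => check (d i)))
    ((by simp : Set.Countable ({kapN W L, check ell, check mu, fN W L, bitN W L} :
    Set (Name (PP W I L)))).union (countable_range _)) ⊤
  have hk : kapN W L ∈ 𝔊.N := hSN (Or.inl (by simp))
  have hell : check ell ∈ 𝔊.N := hSN (Or.inl (by simp))
  have hmu : check mu ∈ 𝔊.N := hSN (Or.inl (by simp))
  have hf : fN W L ∈ 𝔊.N := hSN (Or.inl (by simp))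
  have hb : bitN W L ∈ 𝔊.N := hSN (Or.inl (by simp))
  have hd : ∀ i, check (d i) ∈ 𝔊.N := fun i => hSN (Or.inr ⟨i, rfl⟩)
  refine ⟨𝔊.M, 𝔊.E, hF.rich.zfc, ?_, 𝔊.cls ⟨_, hmu⟩, 𝔊.cls ⟨_, hell⟩, 𝔊.cls ⟨_, hk⟩,
    𝔊.cls ⟨_, hf⟩,
    ⟨isRegCard L ell mu e hF (rep_self hmu), isCard_ell L ell mu e hF (rep_self hell),
      (E_iff_lt hF.decC (rep_self hmu) (rep_self hell)).2 hS2.mu_lt,
      exists_cofinal L ell mu e hF (rep_self hmu) (rep_self hell)⟩, ?_,
    strongLimit L ell mu e hF hell, ⟨isCard_kap L ell mu e hF (rep_self hk), ?_, ?_⟩,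
    ⟨_, ontoPow_bit L ell mu e hF hb hk ell hell⟩, isSetMapping hF hf hk, ?_, ?_⟩
  · refine ⟨hF.rich.om, fun x => ?_⟩
    rw [hF.rich.mem_om]
    exact exists_congr fun n => (Gen.isNum_num hF.rich.num_mem n x).symm
  · rintro n ⟨h1, h2, h3, h4, h5, h6⟩
    exact isAleph L ell mu e hF n mu le_rfl ⟨d, e0, h1, h2, h3, h4, h5, h6,
      fun i _ => hd i⟩ _ (rep_self hmu)
  · exact (E_checkSet hF.rich hk).2 ⟨ell, mem_univ _, rep_self hell⟩
  · intro a ha
    obtain ⟨x, _, hx⟩ := (E_checkSet hF.rich hk).1 ha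
    have h1 : #(Iio x) ≤ #(Iio ell) := by rw [hS2.card_ell]; exact hS2.small x
    obtain ⟨φ⟩ := h1
    refine exists_inj_of_rep hF (A := Iio x) (B := Iio ell)
      (g := fun y => if h : y < x then (φ ⟨y, h⟩).1 else y) ?_ ?_
      (by rw [← check_eq]; exact hx) (by rw [← check_eq]; exact rep_self hell)
    · intro y hy
      have hy' : y < x := hy
      simp only [dif_pos hy']
      exact (φ ⟨y, hy'⟩).2
    · intro y hy z hz hyz
      have hy' : y < x := hy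
      have hz' : z < x := hz
      simp only [dif_pos hy', dif_pos hz'] at hyz
      have h2 := φ.injective (Subtype.ext hyz)
      exact congrArg Subtype.val h2
  · intro X i J h1 h2 h3 c h4
    obtain ⟨X', rfl⟩ := 𝔊.exists_rep X
    obtain ⟨i', rfl⟩ := 𝔊.exists_rep i
    obtain ⟨J', rfl⟩ := 𝔊.exists_rep J
    obtain ⟨c', rfl⟩ := 𝔊.exists_rep c
    obtain ⟨n, hn⟩ := (truth_list fo_bad 𝔊 [X', i', J', c', ⟨_, hk⟩, ⟨_, hf⟩, ⟨_, hell⟩]
      ⟨omegaName, hF.rich.omega_mem⟩).1 ⟨h1, h2, h3, h4⟩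
    exact not_bad mu e _ _ _ _ _ hn
  · intro H h1 h2
    obtain ⟨H', rfl⟩ := 𝔊.exists_rep H
    obtain ⟨n, hn⟩ := (truth_list fo_free 𝔊 [H', ⟨_, hk⟩, ⟨_, hf⟩]
      ⟨omegaName, hF.rich.omega_mem⟩).1 ⟨h1, h2⟩
    have h3 : Frc REInj (ev omegaName [H'.1, check mu]) (𝔊.G n) :=
      Frc.dense fo_einj fun q hq => frc_small ell mu e (Frc.mono hn hq)
    exact Frc.true_list fo_einj 𝔊 [H', ⟨_, hmu⟩]
      ⟨omegaName, hF.rich.omega_mem⟩ h3

end

end Pool.Agent.FreeSetsG
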