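import Pool.Agent.Lib_MP_38e082_gen.Lam

/-!
# The generic set mapping
-/

set_option linter.unusedSectionVars false

namespace Pool.Agent.FreeSetsG

open Pool.Agent.Forcing Pool.Agent.Forcing.Name Pool.Agent.Inner Set Pool.Agent.FreeSets Cardinal

section gen
variable {W I : Type} [LinearOrder W] [WellFoundedLT W] [LinearOrder I] [WellFoundedLT I]
  [Nonempty I] {L : I → Cardinal.{0}} [hS : Setup W I L]
include hS

/-- name of the function on `κ` whose values below the length of a condition `p` are given by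
`V p` -/
noncomputable def genName (V : RR W I L → W → Name (PP W I L)) : Name (PP W I L) :=
  Name.mk (Σ p : RR W I L, Iio p.len) (fun t => opairName (check t.2.1) (V t.1 t.2.1))
    (fun t => (t.1, ⊤))

/-- the values do not change in extensions -/
def Stable (V : RR W I L → W → Name (PP W I L)) : Prop :=
  ∀ q p, q ≤ p → ∀ d < p.len, V q d = V p d

lemma coherent_genName {V : RR W I L → W → Name (PP W I L)} (hV : Stable V)
    (𝔊 : Gen (PP W I L)) :
    Coherent 𝔊 (fun t : Σ p : RR W I L, Iio p.len => check t.2.1)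
      (fun t => V t.1 t.2.1) (fun t => (t.1, ⊤)) := by
  rintro ⟨p, d, hd⟩ ⟨p', d', hd'⟩ n h1 h2 h
  have h3 : d = d' := feq_check_iff.1 h
  subst h3
  have e1 := hV _ _ h1.1 d hd
  have e2 := hV _ _ h2.1 d hd'
  have e3 : V p d = V p' d := e1.symm.trans e2
  change feq (V p d) (V p' d) _
  rw [e3]
  exact feq_refl _ _

lemma val_genName {V : RR W I L → W → Name (PP W I L)} (hV : Stable V) {𝔊 : Gen (PP W I L)}
    (hF : Full 𝔊) (h : genName V ∈ 𝔊.N) {u v : 𝔊.M} : Val 𝔊.E (𝔊.cls ⟨_, h⟩) u v ↔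
      ∃ n d, d < (𝔊.G n).1.len ∧ Rep 𝔊 u (check d) ∧ Rep 𝔊 v (V (𝔊.G n).1 d) := by
  refine (val_mk hF.rich (A := fun t : Σ p : RR W I L, Iio p.len => check t.2.1)
    (B := fun t => V t.1 t.2.1) (c := fun t => (t.1, ⊤)) h).trans ?_
  constructor
  · rintro ⟨⟨p, d, hd⟩, n, h1, h2, h3⟩
    have hle : (𝔊.G n).1 ≤ p := h1.1
    refine ⟨n, d, lt_of_lt_of_le hd hle.len, h2, ?_⟩
    rw [hV _ _ hle d hd]
    exact h3
  · rintro ⟨n, d, h1, h2, h3⟩
    exact ⟨⟨(𝔊.G n).1, d, h1⟩, n, ⟨le_rfl, le_top⟩, h2, h3⟩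

lemma exists_val_genName {V : RR W I L → W → Name (PP W I L)} (hV : Stable V)
    {𝔊 : Gen (PP W I L)} (hF : Full 𝔊) (h : genName V ∈ 𝔊.N) {u : 𝔊.M} {d : W}
    (hu : Rep 𝔊 u (check d)) :
    ∃ v n, d < (𝔊.G n).1.len ∧ Rep 𝔊 v (V (𝔊.G n).1 d) ∧ Val 𝔊.E (𝔊.cls ⟨_, h⟩) u v := by
  obtain ⟨n, hn⟩ := hF.len hu
  obtain ⟨v, h1, h2⟩ := exists_val hF (A := fun t : Σ p : RR W I L, Iio p.len => check t.2.1)
    (B := fun t => V t.1 t.2.1) (c := fun t => (t.1, ⊤)) h (coherent_genName hV 𝔊)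
    (i := ⟨(𝔊.G n).1, d, hn⟩) (n := n) ⟨le_rfl, le_top⟩ hu
  exact ⟨v, n, hn, h1, h2⟩

lemma val_genName_unique {V : RR W I L → W → Name (PP W I L)} (hV : Stable V)
    {𝔊 : Gen (PP W I L)} (hF : Full 𝔊) (h : genName V ∈ 𝔊.N) {u v v' : 𝔊.M}
    (h1 : Val 𝔊.E (𝔊.cls ⟨_, h⟩) u v) (h2 : Val 𝔊.E (𝔊.cls ⟨_, h⟩) u v') : v = v' :=
  val_unique hF (A := fun t : Σ p : RR W I L, Iio p.len => check t.2.1)
    (B := fun t => V t.1 t.2.1) (c := fun t => (t.1, ⊤)) h (coherent_genName hV 𝔊) h1 h2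

/-! ### the two generic functions -/

lemma stable_bit : Stable (fun (p : RR W I L) d => evN (p.bit d)) :=
  fun _ _ h d hd => congrArg evN (h.bit d hd)

/-- the value of the generic set mapping at `d` -/
def down (p : RR W I L) (d : W) : Set W := {x | x < d ∧ ∀ j, ¬ p.H j x d}

lemma down_eq {q p : RR W I L} (h : q ≤ p) {d : W} (hd : d < p.len) : down q d = down p d := by
  ext x
  constructor
  · rintro ⟨h1, h2⟩
    exact ⟨h1, fun j hj => h2 j ((h.H j x d hd).2 hj)⟩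
  · rintro ⟨h1, h2⟩
    exact ⟨h1, fun j hj => h2 j ((h.H j x d hd).1 hj)⟩

lemma stable_down : Stable (fun (p : RR W I L) d => checkSet (down p d)) :=
  fun _ _ h d hd => congrArg checkSet (down_eq h hd)

variable (W L) in
/-- name of the generic set mapping -/
noncomputable abbrev fN : Name (PP W I L) := genName (fun p d => checkSet (down p d))

variable (W L) in
/-- name of a generic enumeration of the subsets of `λ` -/
noncomputable abbrev bitN : Name (PP W I L) := genName (fun p d => evN (p.bit d))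

lemma isSetMapping {𝔊 : Gen (PP W I L)} (hF : Full 𝔊) (hf : fN W L ∈ 𝔊.N)
    (hk : kapN W L ∈ 𝔊.N) : IsSetMapping 𝔊.E (𝔊.cls ⟨_, hf⟩) (𝔊.cls ⟨_, hk⟩) := by
  refine ⟨?_, ?_, ?_⟩
  · intro z hz
    obtain ⟨u, v, h1, h2⟩ := isPair_of_mem_mk hF.rich
      (A := fun t : Σ p : RR W I L, Iio p.len => check t.2.1)
      (B := fun t => checkSet (down t.1 t.2.1)) (c := fun t => (t.1, ⊤)) hf hz
    obtain ⟨n, d, _, hu, _⟩ := (val_genName stable_down hF hf).1 h2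
    exact ⟨u, v, (E_checkSet hF.rich hk).2 ⟨d, mem_univ d, hu⟩, h1⟩
  · intro u hu
    obtain ⟨d, _, hd⟩ := (E_checkSet hF.rich hk).1 hu
    obtain ⟨v, n, _, _, hv⟩ := exists_val_genName stable_down hF hf hd
    exact ⟨v, hv, fun v' hv' => val_genName_unique stable_down hF hf hv' hv⟩
  · intro u v _ hv t ht
    obtain ⟨n, d, _, hu, hvr⟩ := (val_genName stable_down hF hf).1 hv
    obtain ⟨x, hx, htr⟩ := (E_rep_checkSet hF.decC hvr).1 ht
    exact (E_rep_check hF.decC hu).2 ⟨x, hx.1, htr⟩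

end gen

section two
variable {W I : Type} [LinearOrder W] [WellFoundedLT W] [LinearOrder I] [WellFoundedLT I]
  [Nonempty I] {L : I → Cardinal.{0}} {ell mu : W} {e : I → W} [hS2 : Setup2 W I L ell mu e]
include hS2

variable (L ell mu e) in
/-- every subset of `check a` is listed by `bitN` -/
lemma ontoPow_bit {𝔊 : Gen (PP W I L)} (hF : Full 𝔊) (hb : bitN W L ∈ 𝔊.N)
    (hk : kapN W L ∈ 𝔊.N) (a : W) (ha : check a ∈ 𝔊.N) :
    OntoPow 𝔊.E (𝔊.cls ⟨_, hb⟩) (𝔊.cls ⟨_, hk⟩) (𝔊.cls ⟨_, ha⟩) := by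
  refine ⟨fun u v v' hv hv' => val_genName_unique stable_bit hF hb hv hv', ?_⟩
  intro z hz
  obtain ⟨z', rfl⟩ := 𝔊.exists_rep z
  obtain ⟨m, hm⟩ := (truth_list fo_sub 𝔊 [z', ⟨_, ha⟩]
    ⟨omegaName, hF.rich.omega_mem⟩).1 hz
  have hm' : Frc RSub (ev omegaName [z'.1, checkSet (Iio a)]) (𝔊.G m) := by
    rw [← check_eq]; exact hm
  have h2 : Frc RHit (ev omegaName [kapN W L, bitN W L, z'.1]) (𝔊.G m) := by
    refine Frc.dense fo_hit fun q hq => ?_
    obtain ⟨r, hr, S, _, hSz⟩ := exists_decide_sub (mul_le L ell mu e (hS2.small a))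
      (hm'.mono hq)
    obtain ⟨r', hr', hlen, hbit⟩ := Cond.exists_one_point r S
    refine ⟨(r', q.2), ⟨hr'.trans hr, le_rfl⟩,
      frc_full fo_hit _ _ {check r.len, evN S} (by simp) ?_⟩
    intro 𝔊' hF' h0 hSN hl
    have hkN := hl (kapN W L) (by simp)
    have hbN := hl (bitN W L) (by simp)
    have hzN := hl z'.1 (by simp)
    have hrN : check r.len ∈ 𝔊'.N := hSN (by simp)
    have hSN' : evN S ∈ 𝔊'.N := hSN (by simp)
    refine ⟨𝔊'.cls ⟨_, hrN⟩, ?_, ?_⟩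
    · exact (E_checkSet hF'.rich hkN).2 ⟨r.len, mem_univ _, rep_self hrN⟩
    · change Val 𝔊'.E (𝔊'.cls ⟨_, hbN⟩) _ (𝔊'.cls ⟨z'.1, hzN⟩)
      rw [val_genName stable_bit hF' hbN]
      have hlt : r.len < r'.len := by rw [hlen]; exact lt_suc L _
      have h01 : (𝔊'.G 0).1 ≤ r' := h0.1
      refine ⟨0, r.len, hlt.trans_le h01.len, rep_self hrN, ?_⟩
      have e : (𝔊'.G 0).1.bit r.len = S := (h01.bit _ hlt).trans hbit
      change Rep 𝔊' _ (evN ((𝔊'.G 0).1.bit r.len))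
      rw [e]
      exact rep_cls_iff.2 ⟨0, feq_mono hSz (h0.trans ⟨hr', le_rfl⟩)⟩
  exact Frc.true_list fo_hit 𝔊 [⟨_, hk⟩, ⟨_, hb⟩, z'] ⟨omegaName, hF.rich.omega_mem⟩ h2

end two

end Pool.Agent.FreeSetsG
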